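import Pool.Agent.BPN.L.Lin
import Pool.Agent.BPN.S.EMb

/-!
# Eilenberg-MacLane spectra as linear spectra, finite products (project BPN, module L/LEM)
-/

namespace BPN

open GSp

variable {k : Type} [Field k]

theorem EMG.smul_mem {V : Type} [AddCommGroup V] [Module k V] {n q : ℤ} (a : k)
    {c : (ℕ → ℕ) → V} (hc : c ∈ EMG V n q) : a • c ∈ EMG V n q := by
  obtain ⟨h1, ⟨D, h2⟩, h3⟩ := hc
  refine ⟨fun f h => h1 f (fun h0 => h (by simp [h0])),
    ⟨D, fun f h => h2 f (fun h0 => h (by simp [h0]))⟩, fun g hg hs => ?_⟩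
  obtain ⟨K, hK⟩ := h3 g hg hs
  refine ⟨K, fun T hT => ?_⟩
  have h4 : ∑ i ∈ Finset.range T, (-1 : ℤ) ^ i • (a • c) (g ∘ dl i) =
      a • ∑ i ∈ Finset.range T, (-1 : ℤ) ^ i • c (g ∘ dl i) := by
    rw [Finset.smul_sum]
    exact Finset.sum_congr rfl fun i _ => smul_comm _ _ _
  rw [h4, hK T hT, smul_zero]

instance (V : Type) [AddCommGroup V] [Module k V] (n q : ℤ) : Module k (EMG V n q) where
  smul := fun a c => ⟨a • c.1, EMG.smul_mem a c.2⟩
  one_smul := fun c => Subtype.ext (one_smul k c.1)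
  mul_smul := fun a b c => Subtype.ext (mul_smul a b c.1)
  smul_zero := fun a => Subtype.ext (smul_zero a)
  smul_add := fun a b c => Subtype.ext (smul_add a b.1 c.1)
  add_smul := fun a b c => Subtype.ext (add_smul a b c.1)
  zero_smul := fun c => Subtype.ext (zero_smul k c.1)

/-- The Eilenberg-MacLane spectrum of a vector space as a linear spectrum. -/
def EML (k : Type) [Field k] (V : Type) [AddCommGroup V] [Module k V] (n : ℤ) : LSp k where
  V := fun q => EMG V n q
  d := fun i _ _ h =>
    { toFun := (EM V n).d i h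
      map_add' := fun x y => map_add _ x y
      map_smul' := fun _ _ => rfl }
  s := fun i _ _ h =>
    { toFun := (EM V n).s i h
      map_add' := fun x y => map_add _ x y
      map_smul' := fun _ _ => rfl }
  dd := (EM V n).dd
  ds_lt := (EM V n).ds_lt
  ds_eq := (EM V n).ds_eq
  ds_succ := (EM V n).ds_succ
  ds_gt := (EM V n).ds_gt
  ss := (EM V n).ss
  fin := (EM V n).fin

theorem EML_toG (V : Type) [AddCommGroup V] [Module k V] (n : ℤ) :
    (EML k V n).toG = EM V n := rfl

/-- Finite products of linear spectra. -/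
def LSp.pi {ι : Type} [Fintype ι] (L : ι → LSp k) : LSp k where
  V := fun q => ∀ i, (L i).V q
  d := fun j _ _ h => LinearMap.pi fun i => ((L i).d j h).comp (LinearMap.proj i)
  s := fun j _ _ h => LinearMap.pi fun i => ((L i).s j h).comp (LinearMap.proj i)
  dd := fun hij _ _ _ h₁ h₂ x => funext fun i => (L i).dd hij h₁ h₂ (x i)
  ds_lt := fun hij _ _ _ h₁ h₂ x => funext fun i => (L i).ds_lt hij h₁ h₂ (x i)
  ds_eq := fun j _ _ h x => funext fun i => (L i).ds_eq j h (x i)
  ds_succ := fun j _ _ h x => funext fun i => (L i).ds_succ j h (x i)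
  ds_gt := fun hij _ _ _ h₁ h₂ x => funext fun i => (L i).ds_gt hij h₁ h₂ (x i)
  ss := fun hij _ _ _ h₁ h₂ x => funext fun i => (L i).ss hij h₁ h₂ (x i)
  fin := fun {q r} h x => by
    choose n hn using fun i => (L i).fin h (x i)
    exact ⟨Finset.univ.sup n, fun j hj => funext fun i =>
      hn i j (le_trans (Finset.le_sup (Finset.mem_univ i)) hj)⟩

namespace LSp

variable {ι : Type} [Fintype ι] {L : ι → LSp k} {X : PSp}

/-- Projection. -/
def piProj (L : ι → LSp k) (i : ι) : LSp.Hom (LSp.pi L) (L i) :=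
  ⟨fun _ => LinearMap.proj i, fun _ _ _ _ _ => rfl, fun _ _ _ _ _ => rfl⟩

/-- Inclusion. -/
def piIn [DecidableEq ι] (L : ι → LSp k) (i : ι) : LSp.Hom (L i) (LSp.pi L) :=
  ⟨fun q => LinearMap.single k (fun i => (L i).V q) i, fun j q r h x => by
      funext i'
      change (Pi.single i ((L i).d j h x) : ∀ i, (L i).V q) i' =
        (L i').d j h ((Pi.single i x : ∀ i, (L i).V r) i')
      by_cases hi : i' = i
      · subst hi
        rw [Pi.single_eq_same, Pi.single_eq_same]
      · rw [Pi.single_eq_of_ne hi, Pi.single_eq_of_ne hi, map_zero], fun j q r h x => by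
      funext i'
      change (Pi.single i ((L i).s j h x) : ∀ i, (L i).V r) i' =
        (L i').s j h ((Pi.single i x : ∀ i, (L i).V q) i')
      by_cases hi : i' = i
      · subst hi
        rw [Pi.single_eq_same, Pi.single_eq_same]
      · rw [Pi.single_eq_of_ne hi, Pi.single_eq_of_ne hi, map_zero]⟩

/-- Maps into a product. -/
def toPi (a : ∀ i, Map X (L i).toG) : Map X (LSp.pi L).toG where
  f := fun q x i => (a i).f q x
  map_pt := fun q => funext fun i => (a i).map_pt q
  map_d := fun j _ _ h x => funext fun i => (a i).map_d j h x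
  map_s := fun j _ _ h x => funext fun i => (a i).map_s j h x

theorem null_toPi {a : ∀ i, Map X (L i).toG} (h : ∀ i, (a i).Null) : (toPi a).Null := by
  choose b hb using h
  let B : Map X (LSp.pi L).toG.P :=
    { f := fun q x i => (b i).f q x
      map_pt := fun q => funext fun i => (b i).map_pt q
      map_d := fun j _ _ h x => funext fun i => (b i).map_d j h x
      map_s := fun j _ _ h x => funext fun i => (b i).map_s j h x }
  refine ⟨B, Map.ext2 fun q x => funext fun i => ?_⟩
  exact congrArg (fun m : Map X (L i).toG => m.f q x) (hb i)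

/-- A map into a product is nullhomotopic iff all components are. -/
theorem null_pi_iff (a : Map X (LSp.pi L).toG) :
    a.Null ↔ ∀ i, (Map.post (piProj L i).toG a).Null := by
  constructor
  · intro h i
    exact h.post _
  · intro h
    exact null_toPi h

/-- A map from a product is homotopic to the sum of its restrictions to the factors. -/
theorem pi_source [DecidableEq ι] {H : GSp} (c : Map (LSp.pi L).toG.U H) :
    HC.mk c = ∑ i, HC.mk (Map.comp (Map.comp c (Map.ofHom (piIn L i).toG))
      (Map.ofHom (piProj L i).toG)) := by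
  let e : Finset ι → Map (LSp.pi L).toG.U (LSp.pi L).toG := fun s =>
    { f := fun q x i => if i ∈ s then x i else 0
      map_pt := fun q => funext fun i => by
        split_ifs
        · rfl
        · rfl
      map_d := fun j q r h x => funext fun i => by
        change (if i ∈ s then (L i).d j h (x i) else 0) = (L i).d j h (if i ∈ s then x i else 0)
        split_ifs
        · rfl
        · rw [map_zero]
      map_s := fun j q r h x => funext fun i => by
        change (if i ∈ s then (L i).s j h (x i) else 0) = (L i).s j h (if i ∈ s then x i else 0)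
        split_ifs
        · rfl
        · rw [map_zero] }
  have h1 : ∀ s : Finset ι, HC.mk (Map.comp c (e s)) =
      ∑ i ∈ s, HC.mk (Map.comp (Map.comp c (Map.ofHom (piIn L i).toG))
        (Map.ofHom (piProj L i).toG)) := by
    intro s
    induction s using Finset.induction_on with
    | empty =>
      rw [Finset.sum_empty, HC.mk_eq_zero]
      have : Map.comp c (e ∅) = 0 := Map.ext2 fun q x => by
        have h2 : (e ∅).f q x = (LSp.pi L).toG.U.pt q := funext fun i => rfl
        change c.f q ((e ∅).f q x) = 0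
        rw [h2, c.map_pt]
      rw [this]
      exact Map.null_zero
    | insert i s hi ih =>
      rw [Finset.sum_insert hi, ← ih]
      have h2 : e (insert i s) = Map.comp (Map.ofHom (piIn L i).toG)
          (Map.ofHom (piProj L i).toG) + e s := Map.ext2 fun q x => funext fun i' => by
        change (if i' ∈ insert i s then x i' else 0) =
          (Pi.single i (x i) : ∀ i, (L i).V q) i' + (if i' ∈ s then x i' else 0)
        by_cases hi' : i' = i
        · subst hi'
          rw [if_pos (Finset.mem_insert_self _ _), if_neg hi, Pi.single_eq_same, add_zero]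
        · rw [Pi.single_eq_of_ne hi', zero_add]
          simp only [Finset.mem_insert, hi', false_or]
      rw [← HC.comp_mk c (e (insert i s)), h2, map_add, map_add]
      rfl
  have h2 := h1 Finset.univ
  have h3 : Map.comp c (e Finset.univ) = c := Map.ext2 fun q x => by
    have h4 : (e Finset.univ).f q x = x := funext fun i => if_pos (Finset.mem_univ i)
    exact congrArg (c.f q) h4
  rwa [h3] at h2

/-- Homotopy groups of a product. -/
theorem pi_pi_bijective (q : ℤ) :
    Function.Bijective (fun (x : (LSp.pi L).toG.pi q) (i : ι) =>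
      (Map.ofHom (piProj L i).toG).pi q x) := by
  constructor
  · intro x x' h
    obtain ⟨z, hz⟩ := (LSp.pi L).toG.piMk_surj q (x - x')
    have h1 : ∀ i, (Map.ofHom (piProj L i).toG).pi q (x - x') = 0 := fun i => by
      rw [map_sub, sub_eq_zero]
      exact congrFun h i
    have h2 : ∀ i, ∃ y ∈ (L i).toG.N (q + 1), (L i).toG.d 0 rfl y = z.1 i := by
      intro i
      have h3 := h1 i
      rw [← hz, Map.pi_mk, piMk_eq_zero] at h3
      exact h3
    choose y hy hyz using h2
    have h3 : x - x' = 0 := by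
      rw [← hz, piMk_eq_zero]
      exact ⟨fun i => y i, fun j r h => funext fun i => hy i j h, funext fun i => hyz i⟩
    exact sub_eq_zero.1 h3
  · intro w
    choose z hz using fun i => (L i).toG.piMk_surj q (w i)
    refine ⟨(LSp.pi L).toG.piMk q ⟨fun i => (z i).1, fun j r h => funext fun i => (z i).2 j h⟩, ?_⟩
    funext i
    rw [← hz i]
    rfl

/-! ### Universal coefficients -/

variable {V : Type} [AddCommGroup V] [Module k V]

/-- Cycles as a subspace. -/
def Zs (T : LSp k) (n : ℤ) : Submodule k (T.V n) where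
  carrier := {x | ∀ (i : ℕ) {q : ℤ} (h : q + 1 = n), T.d i h x = 0}
  zero_mem' := fun _ _ _ => map_zero _
  add_mem' := fun {a b} ha hb i r h => by rw [map_add, ha i h, hb i h, add_zero]
  smul_mem' := fun c a ha i r h => by rw [map_smul, ha i h, smul_zero]

/-- Maps to spectra with the extensionality property are linear as soon as their cochain is. -/
private theorem exists_linear (T L : LSp k) (n : ℤ) (p : L.V n →ₗ[k] V)
    (hext : ∀ (X : PSp) (a b : Map X L.toG), (∀ x, p (a.f n x) = p (b.f n x)) → a = b)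
    (a : Map T.toG.U L.toG) (c : T.V n →ₗ[k] V) (hc : ∀ x, p (a.f n x) = c x) :
    ∃ A : Hom T L, ∀ q x, A.f q x = a.f q x := by
  have a0 : ∀ q, a.f q (0 : T.V q) = (0 : L.V q) := fun q => a.map_pt q
  have ad : ∀ (i : ℕ) {q r : ℤ} (h : q + 1 = r) (x : T.V r),
      a.f q (T.d i h x) = L.d i h (a.f r x) := fun i _ _ h x => a.map_d i h x
  have as : ∀ (i : ℕ) {q r : ℤ} (h : q + 1 = r) (x : T.V q),
      a.f r (T.s i h x) = L.s i h (a.f q x) := fun i _ _ h x => a.map_s i h x
  have hadd : ∀ q (x y : T.V q), a.f q (x + y) = (a.f q x + a.f q y : L.V q) := by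
    intro q x y
    let A1 : Map (GSp.prod T.toG T.toG).U L.toG :=
      { f := fun q z => a.f q (z.1 + z.2 : T.V q)
        map_pt := fun q => by
          change a.f q ((0 : T.V q) + 0) = (0 : L.V q)
          rw [add_zero, a0]
        map_d := fun i q r h z => by
          change a.f q (T.d i h z.1 + T.d i h z.2) = L.d i h (a.f r (z.1 + z.2 : T.V r))
          rw [← map_add, ad]
        map_s := fun i q r h z => by
          change a.f r (T.s i h z.1 + T.s i h z.2) = L.s i h (a.f q (z.1 + z.2 : T.V q))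
          rw [← map_add, as] }
    let A2 : Map (GSp.prod T.toG T.toG).U L.toG :=
      { f := fun q z => (a.f q z.1 + a.f q z.2 : L.V q)
        map_pt := fun q => by
          change (a.f q (0 : T.V q) + a.f q (0 : T.V q) : L.V q) = (0 : L.V q)
          rw [a0, add_zero]
        map_d := fun i q r h z => by
          change (a.f q (T.d i h z.1) + a.f q (T.d i h z.2) : L.V q) =
            L.d i h (a.f r z.1 + a.f r z.2 : L.V r)
          rw [map_add, ad, ad]
        map_s := fun i q r h z => by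
          change (a.f r (T.s i h z.1) + a.f r (T.s i h z.2) : L.V r) =
            L.s i h (a.f q z.1 + a.f q z.2 : L.V q)
          rw [map_add, as, as] }
    have h := hext _ A1 A2 (fun z => by
      change p (a.f n (z.1 + z.2 : T.V n)) = p (a.f n z.1 + a.f n z.2 : L.V n)
      rw [map_add p, hc, hc, hc, map_add])
    exact congrArg (fun m : Map (GSp.prod T.toG T.toG).U L.toG => m.f q (x, y)) h
  have hsmul : ∀ (t : k) q (x : T.V q), a.f q (t • x) = (t • (a.f q x : L.V q) : L.V q) := by
    intro t q x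
    let B1 : Map T.toG.U L.toG :=
      { f := fun q x => a.f q (t • (x : T.V q) : T.V q)
        map_pt := fun q => by
          change a.f q (t • (0 : T.V q)) = (0 : L.V q)
          rw [smul_zero, a0]
        map_d := fun i q r h z => by
          change a.f q (t • T.d i h z) = L.d i h (a.f r (t • (z : T.V r) : T.V r))
          rw [← map_smul, ad]
        map_s := fun i q r h z => by
          change a.f r (t • T.s i h z) = L.s i h (a.f q (t • (z : T.V q) : T.V q))
          rw [← map_smul, as] }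
    let B2 : Map T.toG.U L.toG :=
      { f := fun q x => (t • (a.f q x : L.V q) : L.V q)
        map_pt := fun q => by
          change (t • (a.f q (0 : T.V q) : L.V q) : L.V q) = (0 : L.V q)
          rw [a0, smul_zero]
        map_d := fun i q r h z => by
          change (t • (a.f q (T.d i h z) : L.V q) : L.V q) =
            L.d i h (t • (a.f r z : L.V r) : L.V r)
          rw [map_smul, ad]
        map_s := fun i q r h z => by
          change (t • (a.f r (T.s i h z) : L.V r) : L.V r) =
            L.s i h (t • (a.f q z : L.V q) : L.V q)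
          rw [map_smul, as] }
    have h := hext _ B1 B2 (fun z => by
      change p (a.f n (t • (z : T.V n) : T.V n)) = p (t • (a.f n z : L.V n) : L.V n)
      rw [map_smul p, hc, hc, map_smul])
    exact congrArg (fun m : Map T.toG.U L.toG => m.f q x) h
  exact ⟨⟨fun q => { toFun := fun x => a.f q x, map_add' := hadd q, map_smul' := fun t x => hsmul t q x },
    fun i _ _ h x => ad i h x, fun i _ _ h x => as i h x⟩, fun _ _ => rfl⟩

/-- Alternating sum of the faces of a degenerate element. -/
private theorem coc_s (T : LSp k) {n r : ℤ} (c : T.V n →ₗ[k] V) (hD : ∀ x ∈ T.D n, c x = 0)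
    (h : n + 1 = r) (j : ℕ) (y : T.V n) {K : ℕ} (hK : j + 2 ≤ K) :
    ∑ i ∈ Finset.range K, (-1 : ℤ) ^ i • c (T.d i h (T.s j h y)) = 0 := by
  obtain ⟨l, hl⟩ : ∃ l : ℤ, l + 1 = n := ⟨n - 1, by omega⟩
  have h1 : ∀ i ∈ Finset.range K, (-1 : ℤ) ^ i • c (T.d i h (T.s j h y)) =
      (if i = j then (-1 : ℤ) ^ i • c y else 0) + (if i = j + 1 then (-1 : ℤ) ^ i • c y else 0) := by
    intro i _
    rcases lt_trichotomy i j with hij | hij | hij
    · obtain ⟨j', rfl⟩ : ∃ j', j = j' + 1 := ⟨j - 1, by omega⟩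
      rw [T.ds_lt (by omega : i ≤ j') hl h, hD _ (T.s_mem_D hl _ _), smul_zero,
        if_neg (by omega), if_neg (by omega), add_zero]
    · subst hij
      rw [T.ds_eq, if_pos rfl, if_neg (by omega), add_zero]
    · by_cases h2 : i = j + 1
      · subst h2
        rw [T.ds_succ, if_neg (by omega), if_pos rfl, zero_add]
      · obtain ⟨i', rfl⟩ : ∃ i', i = i' + 1 := ⟨i - 1, by omega⟩
        rw [T.ds_gt (by omega : j < i') hl h, hD _ (T.s_mem_D hl _ _), smul_zero,
          if_neg (by omega), if_neg (by omega), add_zero]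
  rw [Finset.sum_congr rfl h1, Finset.sum_add_distrib, Finset.sum_ite_eq', Finset.sum_ite_eq',
    if_pos (Finset.mem_range.2 (by omega)), if_pos (Finset.mem_range.2 (by omega)), pow_succ]
  simp

private theorem coc (T : LSp k) {n r : ℤ} (c : T.V n →ₗ[k] V) (hD : ∀ x ∈ T.D n, c x = 0)
    (h : n + 1 = r) {u v : T.V r} (hu : u ∈ T.N r) (hv : v ∈ T.D r) :
    ∃ K₀ : ℕ, ∀ K, K₀ ≤ K →
      ∑ i ∈ Finset.range K, (-1 : ℤ) ^ i • c (T.d i h (u + v)) = c (T.d 0 h u) := by
  obtain ⟨z, hz⟩ := (T.mem_D_iff h v).1 hv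
  obtain ⟨m, hm⟩ := T.sD_eq h z
  have hv' : v = ∑ j ∈ Finset.range m, T.s j h (z j) := hz.symm.trans (hm m le_rfl)
  refine ⟨m + 2, fun K hK => ?_⟩
  have h1 : ∑ i ∈ Finset.range K, (-1 : ℤ) ^ i • c (T.d i h u) = c (T.d 0 h u) := by
    rw [Finset.sum_eq_single_of_mem 0 (Finset.mem_range.2 (by omega)) (fun i _ hi => by
      obtain ⟨i', rfl⟩ : ∃ i', i = i' + 1 := ⟨i - 1, by omega⟩
      rw [hu i' h, map_zero, smul_zero]), pow_zero, one_smul]
  have h2 : ∑ i ∈ Finset.range K, (-1 : ℤ) ^ i • c (T.d i h v) = 0 := by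
    have h3 : ∀ i, (-1 : ℤ) ^ i • c (T.d i h v) =
        ∑ j ∈ Finset.range m, (-1 : ℤ) ^ i • c (T.d i h (T.s j h (z j))) := by
      intro i
      rw [hv', map_sum, map_sum, Finset.smul_sum]
    rw [Finset.sum_congr rfl fun i _ => h3 i, Finset.sum_comm]
    refine Finset.sum_eq_zero fun j hj => ?_
    exact coc_s T c hD h j (z j) (by have := Finset.mem_range.1 hj; omega)
  rw [← h1]
  have h4 : ∀ i, (-1 : ℤ) ^ i • c (T.d i h (u + v)) =
      (-1 : ℤ) ^ i • c (T.d i h u) + (-1 : ℤ) ^ i • c (T.d i h v) := fun i => by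
    rw [map_add, map_add, smul_add]
  rw [Finset.sum_congr rfl fun i _ => h4 i, Finset.sum_add_distrib, h2, add_zero]

private theorem decomp (T : LSp k) {r : ℤ} (x : T.V r) :
    ∃ u ∈ T.N r, ∃ v ∈ T.D r, u + v = x :=
  Submodule.mem_sup.1 (by rw [T.N_sup_D]; trivial)

private theorem exists_ext {A T W : Type} [AddCommGroup A] [Module k A] [AddCommGroup T]
    [Module k T] [AddCommGroup W] [Module k W] (ι : A →ₗ[k] T) (ψ : A →ₗ[k] W)
    (h : ∀ a, ι a = 0 → ψ a = 0) : ∃ σ : T →ₗ[k] W, ∀ a, σ (ι a) = ψ a := by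
  obtain ⟨σ, -, h2⟩ := ext_section (LinearMap.fst k T W) (fun x => ⟨(x, 0), rfl⟩) ι (ι.prod ψ)
    (fun _ => rfl) (fun a ha => Prod.ext ha (h a ha))
  exact ⟨(LinearMap.snd k T W).comp σ, fun a => congrArg Prod.snd (h2 a)⟩

/-- the value at `id` -/
private def ev (V : Type) [AddCommGroup V] [Module k V] (n q : ℤ) : EMG V n q →ₗ[k] V where
  toFun := fun c => c.1 id
  map_add' := fun _ _ => rfl
  map_smul' := fun _ _ => rfl

/-- Linear cocycles give linear maps to `EML`: a linear functional on `T_n` which vanishes on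
degenerate elements and on `d_0 N_{n+1}`. -/
theorem exists_linmap (T : LSp k) (n : ℤ) (c : T.V n →ₗ[k] V) (hD : ∀ x ∈ T.D n, c x = 0)
    (hB : ∀ x ∈ T.N (n + 1), c (T.d 0 rfl x) = 0) :
    ∃ a : LSp.Hom T (EML k V n), ∀ x, (a.f n x).1 id = c x := by
  obtain ⟨a, ha⟩ := EM.exists_map (X := T.toG.U) (n := n) (fun x => c x) (map_zero c)
    (fun i {q} h x => hD _ (T.s_mem_D h i x)) (fun {r} h x => by
      subst h
      obtain ⟨u, hu, v, hv, rfl⟩ := decomp T x
      obtain ⟨K₀, hK⟩ := coc T c hD rfl hu hv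
      exact ⟨K₀, fun K h => (hK K h).trans (hB u hu)⟩)
  obtain ⟨A, hA⟩ := exists_linear T (EML k V n) n (ev V n n) (fun X a b h => EM.map_ext h) a c ha
  exact ⟨A, fun x => by rw [hA]; exact ha x⟩

private theorem Zs_le_N (T : LSp k) (n : ℤ) : T.Zs n ≤ T.N n := fun _ hx i _ h => hx (i + 1) h

private theorem eq_zero_of_NDd (T : LSp k) {n : ℤ} {x y : T.V n} (hx : x ∈ T.N n) (hy : y ∈ T.D n)
    (h : x + y = 0) : x = 0 := by
  have h1 : x ∈ T.N n ⊓ T.D n := by
    refine ⟨hx, ?_⟩
    have : x = -y := eq_neg_of_add_eq_zero_left h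
    rw [this]
    exact neg_mem hy
  rw [T.N_inf_D] at h1
  exact h1

/-- **Universal coefficients, existence**: every linear functional on the cycles which vanishes on the
boundaries is induced by a linear map `T → EML`. -/
theorem uc_exists (T : LSp k) (n : ℤ) (φ : T.Zs n →ₗ[k] V)
    (hφ : ∀ (x : T.V (n + 1)), x ∈ T.N (n + 1) → ∀ h : T.d 0 rfl x ∈ T.Zs n,
      φ ⟨T.d 0 rfl x, h⟩ = 0) :
    ∃ a : LSp.Hom T (EML k V n), ∀ x : T.Zs n, (a.f n x.1).1 id = φ x := by
  obtain ⟨c, hc⟩ := exists_ext (A := T.Zs n × T.D n) (T := T.V n) (W := V)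
    ((T.Zs n).subtype.coprod (T.D n).subtype) (φ.comp (LinearMap.fst k _ _)) (by
      rintro ⟨x, y⟩ h
      have h1 : x.1 = 0 := eq_zero_of_NDd T (Zs_le_N T n x.2) y.2 h
      have h2 : x = 0 := Subtype.ext h1
      change φ x = 0
      rw [h2, map_zero])
  have hcZ : ∀ x : T.Zs n, c x.1 = φ x := by
    intro x
    have h1 := hc (x, 0)
    have h2 : ((T.Zs n).subtype.coprod (T.D n).subtype) (x, (0 : T.D n)) = x.1 := by
      rw [LinearMap.coprod_apply, map_zero, add_zero]
      rfl
    rw [h2] at h1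
    exact h1
  have hcD : ∀ x ∈ T.D n, c x = 0 := by
    intro x hx
    have h1 := hc (0, ⟨x, hx⟩)
    have h2 : ((T.Zs n).subtype.coprod (T.D n).subtype) ((0 : T.Zs n), (⟨x, hx⟩ : T.D n)) = x := by
      rw [LinearMap.coprod_apply, map_zero, zero_add]
      rfl
    rw [h2] at h1
    rw [h1]
    exact map_zero φ
  obtain ⟨a, ha⟩ := exists_linmap T n c hcD (fun x hx => by
    have h1 : T.d 0 rfl x ∈ T.Zs n := by
      intro i q h
      rw [← T.dd (Nat.zero_le i) h rfl x, hx i rfl, map_zero]
    rw [hcZ ⟨_, h1⟩]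
    exact hφ x hx h1)
  exact ⟨a, fun x => (ha x.1).trans (hcZ x)⟩

/-- The value at `dl 0` of an element of degree `n + 1`. -/
private theorem val_dl (n : ℤ) (y : EMG V n (n + 1)) (f : ℕ → V)
    (hf : ∀ i, y.1 (dl (i + 1)) = f i) :
    ∃ K₀ : ℕ, ∀ K, K₀ ≤ K → y.1 (dl 0) = ∑ i ∈ Finset.range K, (-1 : ℤ) ^ i • f i := by
  obtain ⟨K₀, hK⟩ := y.2.2.2 id monotone_id ⟨0, fun i _ => by simp⟩
  refine ⟨K₀, fun K h => ?_⟩
  have h1 := hK (K + 1) (by omega)
  rw [Finset.sum_range_succ'] at h1
  have h2 : ∀ i, (-1 : ℤ) ^ (i + 1) • y.1 (id ∘ dl (i + 1)) = -((-1 : ℤ) ^ i • f i) := fun i => by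
    rw [Function.id_comp, hf, pow_succ]
    simp
  rw [Finset.sum_congr rfl fun i _ => h2 i, Finset.sum_neg_distrib, pow_zero, one_smul,
    Function.id_comp, neg_add_eq_zero] at h1
  exact h1.symm

private theorem hom_D (T : LSp k) (n : ℤ) (a : LSp.Hom T (EML k V n)) {v : T.V n}
    (hv : v ∈ T.D n) : a.f n v = 0 := by
  have h1 : T.D n ≤ LinearMap.ker (a.f n) := by
    refine iSup_le fun i => ?_
    rintro _ ⟨y, rfl⟩
    rw [LinearMap.mem_ker, a.map_s]
    have h2 : a.f (n - 1) y = 0 := EMG.eq_zero_of_lt (by omega) _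
    rw [h2, map_zero]
  exact h1 hv

/-- **Universal coefficients, uniqueness**: a linear map `T → EML` which vanishes on the cycles of degree
`n` is nullhomotopic. -/
theorem uc_null (T : LSp k) (n : ℤ) (a : LSp.Hom T (EML k V n))
    (h : ∀ x ∈ T.Zs n, (a.f n x).1 id = 0) :
    ∃ b : LSp.Hom T (EML k V n).P, ∀ q x, (EML k V n).dP.f q (b.f q x) = a.f q x := by
  obtain ⟨l, hl⟩ : ∃ l : ℤ, l + 1 = n := ⟨n - 1, by omega⟩
  obtain ⟨c, hc⟩ := exists_ext (A := T.N n × T.D l) (T := T.V l) (W := V)
    (((T.d 0 hl).comp (T.N n).subtype).coprod (T.D l).subtype)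
    (((ev V n n).comp ((a.f n).comp (T.N n).subtype)).comp (LinearMap.fst k _ _)) (by
      rintro ⟨x, y⟩ h0
      have hdx : T.d 0 hl x.1 ∈ T.N l := by
        intro i q h'
        rw [← T.dd (Nat.zero_le (i + 1)) h' hl x.1, x.2 (i + 1) hl, map_zero]
      have h1 : T.d 0 hl x.1 = 0 := eq_zero_of_NDd T hdx y.2 h0
      refine h x.1 ?_
      rintro (_ | i) q h'
      · obtain rfl : q = l := by omega
        exact h1
      · exact x.2 i h')
  have hcN : ∀ x ∈ T.N n, c (T.d 0 hl x) = (a.f n x).1 id := by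
    intro x hx
    have h1 := hc (⟨x, hx⟩, 0)
    have h2 : (((T.d 0 hl).comp (T.N n).subtype).coprod (T.D l).subtype)
        ((⟨x, hx⟩ : T.N n), (0 : T.D l)) = T.d 0 hl x := by
      rw [LinearMap.coprod_apply, map_zero, add_zero]
      rfl
    rw [h2] at h1
    exact h1
  have hcD : ∀ x ∈ T.D l, c x = 0 := by
    intro x hx
    have h1 := hc (0, ⟨x, hx⟩)
    have h2 : (((T.d 0 hl).comp (T.N n).subtype).coprod (T.D l).subtype)
        ((0 : T.N n), (⟨x, hx⟩ : T.D l)) = x := by
      rw [LinearMap.coprod_apply, map_zero, zero_add]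
      rfl
    rw [h2] at h1
    rw [h1]
    exact map_zero ((ev V n n).comp ((a.f n).comp (T.N n).subtype))
  obtain ⟨b, hb⟩ := EM.exists_mapP (X := T.toG.U) (M := V) hl (fun x => c x) (map_zero c)
    (fun i {q} h x => hcD _ (T.s_mem_D h i x))
  obtain ⟨B, hB⟩ := exists_linear T (EML k V n).P l (ev V n (l + 1))
    (fun X a b h => EM.mapP_ext hl h) b c hb
  refine ⟨B, ?_⟩
  have key : Map.post (EM V n).dP b = (Map.ofHom a.toG : Map T.toG.U (EML k V n).toG) := by
    refine EM.map_ext fun x => ?_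
    obtain ⟨u, hu, v, hv, rfl⟩ := decomp T x
    obtain ⟨K₀, hK⟩ := coc T c hcD hl hu hv
    obtain ⟨K₁, hK1⟩ := val_dl n (b.f n (u + v)) (fun i => c (T.d i hl (u + v))) (fun i => by
      rw [← hb]
      exact congrArg (fun z : (EM V n).P.G l => z.1 id) (b.map_d i hl (u + v)).symm)
    have h1 : (b.f n (u + v)).1 (dl 0) = (a.f n (u + v)).1 id := by
      rw [hK1 (max K₀ K₁) (le_max_right _ _), hK (max K₀ K₁) (le_max_left _ _), hcN u hu, map_add,
        hom_D T n a hv, add_zero]
    exact h1
  intro q x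
  rw [hB]
  exact congrArg (fun m : Map T.toG.U (EML k V n).toG => m.f q x) key

/-- A map `X → EM V n` is nullhomotopic iff it vanishes on `π_n (lin X)`. -/
theorem null_iff (X : PSp) (n : ℤ) (a : Map X (EML k V n).toG) :
    a.Null ↔ ∀ x ∈ (lin k X).Zs n, (a.lin.f n x).1 id = 0 := by
  constructor
  · rintro ⟨b, rfl⟩ x hx
    obtain ⟨l, hl⟩ : ∃ l : ℤ, l + 1 = n := ⟨n - 1, by omega⟩
    let b' : Map X (EML k V n).P.toG := b
    have h1 : ∀ i, (b'.lin.f n x).1 (dl (i + 1)) = 0 := by
      intro i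
      have h2 : (EML k V n).P.d i hl (b'.lin.f n x) = 0 := by
        rw [← b'.lin.map_d i hl x, hx i hl, map_zero]
      exact congrArg (fun z : (EM V n).P.G l => z.1 id) h2
    obtain ⟨K₀, hK⟩ := val_dl n (b'.lin.f n x) (fun _ => 0) h1
    have h3 : (b'.lin.f n x).1 (dl 0) = 0 := by
      rw [hK K₀ le_rfl]
      simp
    have h4 : (Map.lin (L := EML k V n) (Map.post (EML k V n).toG.dP b)).f n =
        ((EML k V n).dP.f n).comp (b'.lin.f n) := by
      refine Fr.hom_ext fun y => ?_
      refine (Map.lin_of (L := EML k V n) (Map.post (EML k V n).toG.dP b) n y).trans ?_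
      exact congrArg ((EML k V n).dP.f n) (Map.lin_of b' n y).symm
    rw [h4]
    exact h3
  · intro h
    obtain ⟨b, hb⟩ := uc_null (lin k X) n a.lin h
    refine ⟨Map.post b.toG (lin.eta k X), Map.ext2 fun q x => ?_⟩
    have h1 := hb q (Fr.of k (X.pt q) x)
    rw [Map.lin_of] at h1
    exact h1

end LSp

end BPN
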