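import Pool.Agent.BPN.L.CE
import Pool.Agent.BPN.L.LEM

/-!
# Transgression criterion and mod p equivalences (project BPN, module L/ModP)
-/

namespace BPN

open GSp

variable {k : Type} [Field k] {G H K : GSp}

/-- The counit on a generator. -/
private theorem mp_eps_of (G : GSp) (q : ℤ) (x : G.G q) :
    G.eps.f q (FrG.of (0 : G.G q) x) = x :=
  FrG.lift_of (x₀ := (0 : G.G q)) (fun x => x) rfl x

/-- If a class on the fibre restricts to `Ω e` on `Ω H` then `e c` is nullhomotopic.  PROOF: on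
`Fib c` the map `(w, b) ↦ e b` is a nullhomotopy of `e ∘ c.ext' ∘ fibF`, hence (homotopic maps) we
get a nullhomotopy `b'` of `e c fibP`, whose restriction to `Ω H` is `Ω e`; subtracting `a` we may assume
that this restriction is nullhomotopic; apply `CE.null_of` to `p = fibP` (kernel weakly equivalent to
`Ω H`, `omKer_we`). -/
theorem CE.trans (c : Map G.U H) (hG : G.SBB) (hH : H.SBB) (L : LSp k) (e : Map H.U L.toG)
    (a : Map c.Fib.U L.toG.Om) (h : HC.mk (Map.comp a (Map.ofHom c.fibI)) = HC.mk e.Om) :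
    (Map.comp e c).Null := by
  -- the two maps on `F (U G)`
  have h1 : HC.mk (Map.comp (Map.comp e c) (Map.ofHom G.eps)) =
      HC.mk (Map.comp e (Map.ofHom c.ext')) := by
    apply ((GSp.eta_we G).pre_bijective (K := L.toG)).1
    rw [HC.pre_mk, HC.pre_mk]
    have h2 : Map.pre (PSp.eta G.U).toHom (Map.comp (Map.comp e c) (Map.ofHom G.eps)) =
        Map.comp e c := by
      refine Map.ext2 fun q x => ?_
      change e.f q (c.f q (G.eps.f q (FrG.of (0 : G.G q) x))) = e.f q (c.f q x)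
      rw [mp_eps_of]
    have h3 : Map.pre (PSp.eta G.U).toHom (Map.comp e (Map.ofHom c.ext')) = Map.comp e c := by
      refine Map.ext2 fun q x => ?_
      change e.f q (c.ext'.f q (FrG.of (0 : G.G q) x)) = e.f q (c.f q x)
      rw [Map.ext'_of]
    rw [h2, h3]
  rw [HC.mk_eq] at h1
  obtain ⟨w, hw⟩ := h1
  have hw2 : ∀ (q : ℤ) (x : G.U.F.G q), L.toG.dP.f q (w.f q x) =
      e.f q (c.f q (G.eps.f q x)) + -e.f q (c.ext'.f q x) := fun q x =>
    congrArg (fun z : Map G.U.F.U L.toG => z.f q x) hw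
  have hed : ∀ (q : ℤ) (b : H.P.G q), L.toG.dP.f q (e.mapP.f q b) = e.f q (H.dP.f q b) :=
    fun q b => (e.map_d 0 rfl b).symm
  -- the nullhomotopy on the fibre
  let b₀ : Map c.Fib.U L.toG.P :=
    Map.pre (Map.ofHom c.fibF).toHom w + ⟨fun q x => e.mapP.f q x.1.2,
      fun q => e.mapP.map_pt q, fun i _ _ h x => e.mapP.map_d i h x.1.2,
      fun i _ _ h x => e.mapP.map_s i h x.1.2⟩
  let b : Map c.Fib.U L.toG.P := b₀ + -(Map.post (kerIncl L.toG.dP) a)
  have hb : ∀ (q : ℤ) (x : c.Fib.G q), L.toG.dP.f q (b.f q x) =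
      e.f q (c.f q (c.fibP.f q x)) := by
    intro q x
    have h4 : L.toG.dP.f q (a.f q x).1 = 0 := (a.f q x).2
    have hx : c.ext'.f q x.1.1 = H.dP.f q x.1.2 := x.2
    change L.toG.dP.f q (w.f q x.1.1 + e.mapP.f q x.1.2 + -(a.f q x).1) = _
    rw [map_add, map_add, map_neg, h4, hw2, hed, ← hx]
    change _ = e.f q (c.f q (G.eps.f q x.1.1))
    rw [neg_zero, add_zero]
    exact neg_add_cancel_right _ _
  have hb0 : ∀ (q : ℤ) (x : (ker c.fibP).G q), L.toG.dP.f q (b.f q x.1) = 0 := by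
    intro q x
    have hx : c.fibP.f q x.1 = 0 := x.2
    rw [hb, hx]
    have h5 : c.f q (0 : G.G q) = 0 := c.map_pt q
    have h6 : e.f q (0 : H.G q) = 0 := e.map_pt q
    rw [h5, h6]
  let u : Map (ker c.fibP).U L.toG.Om :=
    ⟨fun q x => ⟨b.f q x.1, hb0 q x⟩, fun q => Subtype.ext (b.map_pt q),
      fun i _ _ h x => Subtype.ext (b.map_d i h x.1),
      fun i _ _ h x => Subtype.ext (b.map_s i h x.1)⟩
  refine CE.null_of c.fibP c.fibP_surj (CE.fib_sbb c hG hH) L (Map.comp e c) b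
    (Map.ext2 fun q x => hb q x) u (fun q x => rfl) ?_
  rw [← HC.mk_eq_zero]
  apply (c.omKer_we.pre_bijective (K := L.toG.Om)).1
  rw [HC.pre_mk, map_zero]
  have h7 : Map.pre (Map.ofHom c.omKer).toHom u =
      e.Om + -(Map.comp a (Map.ofHom c.fibI)) := by
    refine Map.ext2 fun q x => Subtype.ext ?_
    change w.f q (0 : G.U.F.G q) + e.mapP.f q x.1 + -(a.f q (c.fibI.f q x)).1 =
      e.mapP.f q x.1 + -(a.f q (c.fibI.f q x)).1
    have h8 : w.f q (0 : G.U.F.G q) = 0 := w.map_pt q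
    rw [h8]
    exact congrArg (fun z => z + -(a.f q (c.fibI.f q x)).1) (zero_add (e.mapP.f q x.1))
  rw [h7, map_add, map_neg, h, add_neg_cancel]

/-- If all maps from the fibre to `L` and to `Ω L` are nullhomotopic then precomposition with `c` is
bijective on classes with values in `L`.  PROOF: surjective: every class on `G` vanishes on the fibre,
use `CE.exact_G`.  Injective: `CE.null_of` for `cylP` (its kernel is weakly equivalent to `Fib c`). -/
theorem CE.pre_bijective (c : Map G.U H) (hG : G.SBB) (hH : H.SBB) (L : LSp k)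
    (h0 : ∀ a : Map c.Fib.U L.toG, a.Null) (h1 : ∀ a : Map c.Fib.U L.toG.Om, a.Null) :
    Function.Bijective (HC.pre c.toHom : HC H.U L.toG →+ HC G.U L.toG) := by
  constructor
  · rw [injective_iff_map_eq_zero]
    intro x hx
    obtain ⟨θ, rfl⟩ := HC.mk_surj x
    rw [HC.pre_mk, HC.mk_eq_zero] at hx
    rw [HC.mk_eq_zero]
    obtain ⟨e, he⟩ := c.exists_fib_ext θ hx
    refine CE.om_inj hH L θ ?_
    rw [← he]
    exact (h1 e).comp_left _
  · intro x
    obtain ⟨a, rfl⟩ := HC.mk_surj x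
    obtain ⟨θ, hθ⟩ := CE.exact_G c hG hH L a (h0 _)
    exact ⟨HC.mk θ, hθ⟩

private theorem mp_nsmul_f {X : PSp} {K : GSp} (a : Map X K) (n : ℕ) (q : ℤ) (x : X.X q) :
    (n • a).f q x = n • a.f q x := by
  induction n with
  | zero => rw [zero_nsmul, zero_nsmul, Map.zero_f]
  | succ n ih => rw [succ_nsmul, succ_nsmul, Map.add_f, ih]

private theorem mp_nsmul_pi (G : GSp) (n : ℕ) (q : ℤ) (x : G.pi q) :
    (n • Map.id G).pi q x = n • x := by
  induction n with
  | zero =>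
    rw [zero_nsmul, zero_nsmul]
    exact DFunLike.congr_fun (Map.null_zero.pi q) x
  | succ n ih =>
    rw [succ_nsmul, succ_nsmul, Map.pi_add, ih, Map.pi_id]
    rfl

/-- If `p` acts bijectively on the homotopy groups of `G` and by zero on `K` then every map from `G` to
`K` is nullhomotopic. -/
private theorem mp_null {p : ℕ} (hp : ∀ q, Function.Bijective (fun x : G.pi q => (p : ℤ) • x))
    (K : GSp) (hK : ∀ q (x : K.G q), p • x = 0) (a : Map G.U K) : a.Null := by
  have hw : (p • Map.id G).WE := by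
    intro q
    have h1 : ((p • Map.id G).pi q : G.pi q → G.pi q) = fun x => (p : ℤ) • x := by
      funext x
      rw [mp_nsmul_pi, natCast_zsmul]
    rw [h1]
    exact hp q
  rw [← HC.mk_eq_zero]
  apply (hw.pre_bijective (K := K)).1
  rw [map_zero]
  have h2 : HC.pre (p • Map.id G).toHom (HC.mk a) = HC.comp a (HC.mk (p • Map.id G)) := rfl
  rw [h2, map_nsmul, map_nsmul]
  have h3 : HC.comp a (HC.mk (Map.id G)) = HC.mk a := rfl
  rw [h3, ← map_nsmul]
  have h4 : p • a = 0 := Map.ext2 fun q x => by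
    rw [mp_nsmul_f, hK, Map.zero_f]
  rw [h4, map_zero]

private theorem mp_zmod {p : ℕ} [Fact p.Prime] (L : LSp (ZMod p)) (q : ℤ) (x : L.toG.G q) :
    p • x = 0 := by
  have h1 : ((p : ℕ) : ZMod p) • (show L.V q from x) = p • (show L.V q from x) :=
    Nat.cast_smul_eq_nsmul (ZMod p) p _
  rw [ZMod.natCast_self, zero_smul] at h1
  exact h1.symm

/-- If `p` acts bijectively on all homotopy groups of `G` then every map from `G` to a linear spectrum
over `F_p` is nullhomotopic.  PROOF: `p • id` is a weak equivalence, and `a ∘ (p • id) ≃ p • a = 0`. -/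
theorem null_of_pdiv {p : ℕ} [Fact p.Prime] (hp : ∀ q, Function.Bijective
    (fun x : G.pi q => (p : ℤ) • x)) (L : LSp (ZMod p)) (a : Map G.U L.toG) : a.Null :=
  mp_null hp L.toG (mp_zmod L) a

theorem null_of_pdiv_om {p : ℕ} [Fact p.Prime] (hp : ∀ q, Function.Bijective
    (fun x : G.pi q => (p : ℤ) • x)) (L : LSp (ZMod p)) (a : Map G.U L.toG.Om) : a.Null :=
  mp_null hp L.toG.Om (fun q x => Subtype.ext (mp_zmod L (q + 1) x.1)) a

/-- Algebra of the fibre: if `c` induces isomorphisms `π_q G / p → π_q H / p`, `π_q G [p] → π_q H [p]`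
(injective and surjective) for all `q` then `p` acts bijectively on the homotopy groups of `Fib c`. -/
theorem fib_pdiv {p : ℕ} [Fact p.Prime] (c : Map G.U H)
    (h1 : ∀ q (x : G.pi q), (∃ y : H.pi q, c.pi q x = (p : ℤ) • y) → ∃ z : G.pi q, x = (p : ℤ) • z)
    (h2 : ∀ q (y : H.pi q), ∃ (x : G.pi q) (z : H.pi q), y = c.pi q x + (p : ℤ) • z)
    (h3 : ∀ q (x : G.pi q), (p : ℤ) • x = 0 → c.pi q x = 0 → x = 0)
    (h4 : ∀ q (y : H.pi q), (p : ℤ) • y = 0 → ∃ x : G.pi q, (p : ℤ) • x = 0 ∧ c.pi q x = y) :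
    ∀ q, Function.Bijective (fun x : c.Fib.pi q => (p : ℤ) • x) := by
  intro q
  constructor
  · have key : ∀ x : c.Fib.pi q, (p : ℤ) • x = 0 → x = 0 := by
      intro x hx
      have e1 : (Map.ofHom c.fibP).pi q x = 0 := by
        apply h3 q
        · rw [← map_zsmul, hx, map_zero]
        · exact (c.fib_exact_G q _).2 ⟨x, rfl⟩
      obtain ⟨y, rfl⟩ := (c.fib_exact_Fib q x).1 e1
      rw [← map_zsmul, c.fib_exact_Om] at hx
      obtain ⟨g, hg⟩ := hx
      rw [map_zsmul] at hg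
      obtain ⟨z, rfl⟩ := h1 (q + 1) g ⟨_, hg⟩
      rw [map_zsmul, ← sub_eq_zero, ← zsmul_sub] at hg
      obtain ⟨x', hx', hcx⟩ := h4 (q + 1) _ hg
      rw [c.fib_exact_Om]
      exact ⟨z - x', by rw [map_sub, hcx, sub_sub_cancel]⟩
    intro x y hxy
    have h5 : (p : ℤ) • x = (p : ℤ) • y := hxy
    rw [← sub_eq_zero, ← zsmul_sub] at h5
    exact sub_eq_zero.1 (key _ h5)
  · intro x
    have e1 : c.pi q ((Map.ofHom c.fibP).pi q x) = 0 := (c.fib_exact_G q _).2 ⟨x, rfl⟩
    obtain ⟨z, hz⟩ := h1 q _ ⟨0, by rw [e1, zsmul_zero]⟩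
    rw [hz, map_zsmul] at e1
    obtain ⟨x₁, hx₁, hcx⟩ := h4 q _ e1
    have e2 : c.pi q (z - x₁) = 0 := by rw [map_sub, hcx, sub_self]
    obtain ⟨y, hy⟩ := (c.fib_exact_G q _).1 e2
    have e3 : (Map.ofHom c.fibP).pi q (x - (p : ℤ) • y) = 0 := by
      rw [map_sub, map_zsmul, hy, hz, zsmul_sub, hx₁, sub_zero, sub_self]
    obtain ⟨w, hw⟩ := (c.fib_exact_Fib q _).1 e3
    obtain ⟨u, v, huv⟩ := h2 (q + 1) (omPi H q w)
    obtain ⟨v', rfl⟩ := (omPi_bijective H q).2 v
    have e4 : (Map.ofHom c.fibI).pi q (w - (p : ℤ) • v') = 0 := by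
      rw [c.fib_exact_Om]
      exact ⟨u, by rw [map_sub, map_zsmul, huv, add_sub_cancel_right]⟩
    refine ⟨y + (Map.ofHom c.fibI).pi q v', ?_⟩
    change (p : ℤ) • (y + (Map.ofHom c.fibI).pi q v') = x
    rw [map_sub, map_zsmul, sub_eq_zero] at e4
    rw [zsmul_add, ← e4, hw, add_sub_cancel]

/-- **Mod `p` equivalences induce bijections on mod `p` cohomology.** -/
theorem modp_bijective {p : ℕ} [Fact p.Prime] (c : Map G.U H) (hG : G.SBB) (hH : H.SBB)
    (h1 : ∀ q (x : G.pi q), (∃ y : H.pi q, c.pi q x = (p : ℤ) • y) → ∃ z : G.pi q, x = (p : ℤ) • z)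
    (h2 : ∀ q (y : H.pi q), ∃ (x : G.pi q) (z : H.pi q), y = c.pi q x + (p : ℤ) • z)
    (h3 : ∀ q (x : G.pi q), (p : ℤ) • x = 0 → c.pi q x = 0 → x = 0)
    (h4 : ∀ q (y : H.pi q), (p : ℤ) • y = 0 → ∃ x : G.pi q, (p : ℤ) • x = 0 ∧ c.pi q x = y)
    (L : LSp (ZMod p)) :
    Function.Bijective (HC.pre c.toHom : HC H.U L.toG →+ HC G.U L.toG) :=
  CE.pre_bijective c hG hH L (fun a => null_of_pdiv (fib_pdiv c h1 h2 h3 h4) L a)
    (fun a => null_of_pdiv_om (fib_pdiv c h1 h2 h3 h4) L a)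

end BPN
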