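import Pool.Agent.BPN.L.Lin

/-!
# Modules over monoid spectra and the bar argument (project BPN, module L/Bar)
-/

namespace BPN

open GSp Classical

/-- Monoid spectra. -/
structure MSp where
  G : ℤ → Type
  [mon : ∀ q, AddMonoid (G q)]
  d : ℕ → ∀ {q r : ℤ}, q + 1 = r → G r →+ G q
  s : ℕ → ∀ {q r : ℤ}, q + 1 = r → G q →+ G r
  dd : ∀ {i j : ℕ}, i ≤ j → ∀ {q r t : ℤ} (h₁ : q + 1 = r) (h₂ : r + 1 = t) (x : G t),
      d i h₁ (d (j + 1) h₂ x) = d j h₁ (d i h₂ x)
  ds_lt : ∀ {i j : ℕ}, i ≤ j → ∀ {q r t : ℤ} (h₁ : q + 1 = r) (h₂ : r + 1 = t) (x : G r),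
      d i h₂ (s (j + 1) h₂ x) = s j h₁ (d i h₁ x)
  ds_eq : ∀ (i : ℕ) {q r : ℤ} (h : q + 1 = r) (x : G q), d i h (s i h x) = x
  ds_succ : ∀ (i : ℕ) {q r : ℤ} (h : q + 1 = r) (x : G q), d (i + 1) h (s i h x) = x
  ds_gt : ∀ {i j : ℕ}, j < i → ∀ {q r t : ℤ} (h₁ : q + 1 = r) (h₂ : r + 1 = t) (x : G r),
      d (i + 1) h₂ (s j h₂ x) = s j h₁ (d i h₁ x)
  ss : ∀ {i j : ℕ}, i ≤ j → ∀ {q r t : ℤ} (h₁ : q + 1 = r) (h₂ : r + 1 = t) (x : G q),
      s i h₂ (s j h₁ x) = s (j + 1) h₂ (s i h₁ x)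
  fin : ∀ {q r : ℤ} (h : q + 1 = r) (x : G r), ∃ n : ℕ, ∀ i, n ≤ i → d i h x = 0

attribute [instance] MSp.mon

/-- A group spectrum as a monoid spectrum. -/
def GSp.toM (G : GSp) : MSp where
  G := G.G
  d := G.d
  s := G.s
  dd := G.dd
  ds_lt := G.ds_lt
  ds_eq := G.ds_eq
  ds_succ := G.ds_succ
  ds_gt := G.ds_gt
  ss := G.ss
  fin := G.fin

/-- Right modules over (the monoid algebra of) a monoid spectrum. -/
structure LMod (k : Type) [Field k] (M : MSp) extends LSp k where
  act : ∀ q, M.G q → (V q →ₗ[k] V q)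
  act_zero : ∀ q w, act q 0 w = w
  act_add : ∀ q m m' w, act q (m + m') w = act q m' (act q m w)
  act_d : ∀ (i : ℕ) {q r : ℤ} (h : q + 1 = r) (m : M.G r) (w : V r),
    d i h (act r m w) = act q (M.d i h m) (d i h w)
  act_s : ∀ (i : ℕ) {q r : ℤ} (h : q + 1 = r) (m : M.G q) (w : V q),
    s i h (act q m w) = act r (M.s i h m) (s i h w)

namespace LMod

variable {k : Type} [Field k] {M : MSp}

/-- `W · I`, `I` the augmentation ideal: spanned by the elements `w · m - w`. -/
def I (W : LMod k M) : LSp.Sub W.toLSp where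
  S := fun q => Submodule.span k {x | ∃ m w, x = W.act q m w - w}
  d_mem := fun i {q r} h x hx => by
    induction hx using Submodule.span_induction with
    | mem x hx =>
      obtain ⟨m, w, rfl⟩ := hx
      rw [map_sub, W.act_d]
      exact Submodule.subset_span ⟨_, _, rfl⟩
    | zero => rw [map_zero]; exact zero_mem _
    | add x y _ _ hx hy => rw [map_add]; exact add_mem hx hy
    | smul a x _ hx => rw [map_smul]; exact Submodule.smul_mem _ _ hx
  s_mem := fun i {q r} h x hx => by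
    induction hx using Submodule.span_induction with
    | mem x hx =>
      obtain ⟨m, w, rfl⟩ := hx
      rw [map_sub, W.act_s]
      exact Submodule.subset_span ⟨_, _, rfl⟩
    | zero => rw [map_zero]; exact zero_mem _
    | add x y _ _ hx hy => rw [map_add]; exact add_mem hx hy
    | smul a x _ hx => rw [map_smul]; exact Submodule.smul_mem _ _ hx

/-- Levelwise projectivity: the action map `W ⊗ k[M] → W` has levelwise a section linear over
`k[M]` (no compatibility with faces).  `W ⊗ k[M]` is realised as `M →₀ W`. -/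
def Proj (W : LMod k M) : Prop := ∀ q, ∃ σ : W.V q →ₗ[k] (M.G q →₀ W.V q),
  (∀ w, (σ w).sum (fun m v => W.act q m v) = w) ∧
  ∀ m w, σ (W.act q m w) = (σ w).mapDomain (fun m' => m' + m)

/-- the linear map `single x v ↦ single (a x) (f v)` -/
noncomputable def fm {A B V U : Type} [AddCommGroup V] [Module k V] [AddCommGroup U] [Module k U]
    (a : A → B) (f : V →ₗ[k] U) : (A →₀ V) →ₗ[k] (B →₀ U) :=
  Finsupp.lsum k (fun x => (Finsupp.lsingle (a x)).comp f)

theorem fm_single {A B V U : Type} [AddCommGroup V] [Module k V] [AddCommGroup U] [Module k U]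
    (a : A → B) (f : V →ₗ[k] U) (x : A) (v : V) :
    fm a f (Finsupp.single x v) = Finsupp.single (a x) (f v) := by
  unfold fm
  rw [Finsupp.lsum_single]
  rfl

theorem lext {A V U : Type} [AddCommGroup V] [Module k V] [AddCommGroup U] [Module k U]
    (f g : (A →₀ V) →ₗ[k] U) (h : ∀ x v, f (Finsupp.single x v) = g (Finsupp.single x v))
    (t : A →₀ V) : f t = g t := by
  rw [Finsupp.lhom_ext h]

theorem fm_id {A B V : Type} [AddCommGroup V] [Module k V] (a : A → B) (t : A →₀ V) :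
    fm (k := k) a LinearMap.id t = t.mapDomain a := by
  refine lext (fm (k := k) a LinearMap.id) (Finsupp.lmapDomain V k a) (fun x v => ?_) t
  rw [fm_single, Finsupp.lmapDomain_apply, Finsupp.mapDomain_single]
  rfl

/-- `W ⊗ k[M]` -/
@[reducible] noncomputable def T (W : LMod k M) : LMod k M where
  V := fun q => M.G q →₀ W.V q
  d := fun i _ _ h => fm (M.d i h) (W.d i h)
  s := fun i _ _ h => fm (M.s i h) (W.s i h)
  dd := fun hij q r t h₁ h₂ x => by
    refine lext ((fm (M.d _ h₁) (W.d _ h₁)).comp (fm (M.d _ h₂) (W.d _ h₂)))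
      ((fm (M.d _ h₁) (W.d _ h₁)).comp (fm (M.d _ h₂) (W.d _ h₂))) (fun a v => ?_) x
    simp only [LinearMap.comp_apply, fm_single]
    rw [M.dd hij, W.dd hij]
  ds_lt := fun hij q r t h₁ h₂ x => by
    refine lext ((fm (M.d _ h₂) (W.d _ h₂)).comp (fm (M.s _ h₂) (W.s _ h₂)))
      ((fm (M.s _ h₁) (W.s _ h₁)).comp (fm (M.d _ h₁) (W.d _ h₁))) (fun a v => ?_) x
    simp only [LinearMap.comp_apply, fm_single]
    rw [M.ds_lt hij h₁ h₂, W.ds_lt hij h₁ h₂]
  ds_eq := fun i q r h x => by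
    refine lext ((fm (M.d i h) (W.d i h)).comp (fm (M.s i h) (W.s i h)))
      LinearMap.id (fun a v => ?_) x
    simp only [LinearMap.comp_apply, fm_single, LinearMap.id_apply]
    rw [M.ds_eq, W.ds_eq]
  ds_succ := fun i q r h x => by
    refine lext ((fm (M.d (i + 1) h) (W.d (i + 1) h)).comp (fm (M.s i h) (W.s i h)))
      LinearMap.id (fun a v => ?_) x
    simp only [LinearMap.comp_apply, fm_single, LinearMap.id_apply]
    rw [M.ds_succ, W.ds_succ]
  ds_gt := fun hij q r t h₁ h₂ x => by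
    refine lext ((fm (M.d _ h₂) (W.d _ h₂)).comp (fm (M.s _ h₂) (W.s _ h₂)))
      ((fm (M.s _ h₁) (W.s _ h₁)).comp (fm (M.d _ h₁) (W.d _ h₁))) (fun a v => ?_) x
    simp only [LinearMap.comp_apply, fm_single]
    rw [M.ds_gt hij h₁ h₂, W.ds_gt hij h₁ h₂]
  ss := fun hij q r t h₁ h₂ x => by
    refine lext ((fm (M.s _ h₂) (W.s _ h₂)).comp (fm (M.s _ h₁) (W.s _ h₁)))
      ((fm (M.s _ h₂) (W.s _ h₂)).comp (fm (M.s _ h₁) (W.s _ h₁))) (fun a v => ?_) x
    simp only [LinearMap.comp_apply, fm_single]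
    rw [M.ss hij, W.ss hij]
  fin := fun {q r} h x => by
    induction x using Finsupp.induction_linear with
    | zero => exact ⟨0, fun i _ => map_zero _⟩
    | add y z hy hz =>
      obtain ⟨n, hn⟩ := hy
      obtain ⟨m, hm⟩ := hz
      exact ⟨max n m, fun i hi => by
        rw [map_add, hn i (le_trans (le_max_left _ _) hi), hm i (le_trans (le_max_right _ _) hi),
          add_zero]⟩
    | single x b =>
      obtain ⟨n, hn⟩ := W.fin h b
      exact ⟨n, fun i hi => by rw [fm_single, hn i hi, Finsupp.single_zero]⟩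
  act := fun q m => fm (fun m' => m' + m) LinearMap.id
  act_zero := fun q w => by
    refine lext (fm (fun m' : M.G q => m' + 0) LinearMap.id) LinearMap.id (fun a v => ?_) w
    rw [fm_single, add_zero]
    rfl
  act_add := fun q m m' w => by
    refine lext (fm (fun m'' : M.G q => m'' + (m + m')) LinearMap.id)
      ((fm (fun m'' : M.G q => m'' + m') LinearMap.id).comp
        (fm (fun m'' : M.G q => m'' + m) LinearMap.id)) (fun a v => ?_) w
    rw [LinearMap.comp_apply, fm_single, fm_single, fm_single, add_assoc]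
    rfl
  act_d := fun i {q r} h m w => by
    refine lext ((fm (M.d i h) (W.d i h)).comp (fm (fun m' : M.G r => m' + m) LinearMap.id))
      ((fm (fun m' : M.G q => m' + M.d i h m) LinearMap.id).comp (fm (M.d i h) (W.d i h)))
      (fun a v => ?_) w
    rw [LinearMap.comp_apply, LinearMap.comp_apply, fm_single, fm_single, fm_single, fm_single,
      map_add]
    rfl
  act_s := fun i {q r} h m w => by
    refine lext ((fm (M.s i h) (W.s i h)).comp (fm (fun m' : M.G q => m' + m) LinearMap.id))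
      ((fm (fun m' : M.G r => m' + M.s i h m) LinearMap.id).comp (fm (M.s i h) (W.s i h)))
      (fun a v => ?_) w
    rw [LinearMap.comp_apply, LinearMap.comp_apply, fm_single, fm_single, fm_single, fm_single,
      map_add]
    rfl

/-- the action map `single m w ↦ w · m` -/
noncomputable def mu (W : LMod k M) : LSp.Hom W.T.toLSp W.toLSp where
  f := fun q => Finsupp.lsum k (fun m => W.act q m)
  map_d := fun i {q r} h x => by
    refine lext ((Finsupp.lsum k (fun m => W.act q m)).comp (fm (M.d i h) (W.d i h)))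
      ((W.d i h).comp (Finsupp.lsum k (fun m => W.act r m))) (fun a v => ?_) x
    rw [LinearMap.comp_apply, LinearMap.comp_apply, fm_single, Finsupp.lsum_single,
      Finsupp.lsum_single, W.act_d]
  map_s := fun i {q r} h x => by
    refine lext ((Finsupp.lsum k (fun m => W.act r m)).comp (fm (M.s i h) (W.s i h)))
      ((W.s i h).comp (Finsupp.lsum k (fun m => W.act q m))) (fun a v => ?_) x
    rw [LinearMap.comp_apply, LinearMap.comp_apply, fm_single, Finsupp.lsum_single,
      Finsupp.lsum_single, W.act_s]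

theorem mu_single (W : LMod k M) (q : ℤ) (m : M.G q) (w : W.V q) :
    W.mu.f q (Finsupp.single m w : M.G q →₀ W.V q) = W.act q m w := Finsupp.lsum_single _ _ _ _

theorem mu_act (W : LMod k M) (q : ℤ) (m : M.G q) (t : M.G q →₀ W.V q) :
    W.mu.f q (W.T.act q m t) = W.act q m (W.mu.f q t) := by
  refine lext (k := k) (V := W.V q) ((W.mu.f q).comp (W.T.act q m)) ((W.act q m).comp (W.mu.f q))
    (fun a v => ?_) t
  have h1 : W.T.act q m (Finsupp.single a v : M.G q →₀ W.V q) =
      (Finsupp.single (a + m) v : M.G q →₀ W.V q) := fm_single _ _ _ _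
  rw [LinearMap.comp_apply, LinearMap.comp_apply, h1, mu_single, mu_single, W.act_add]

/-- the kernel of the action map -/
@[reducible] noncomputable def O (W : LMod k M) : LMod k M where
  toLSp := W.mu.kerS.toL
  act := fun q m => (W.T.act q m).restrict (p := LinearMap.ker (W.mu.f q))
    (q := LinearMap.ker (W.mu.f q)) (fun x hx => by
      rw [LinearMap.mem_ker] at hx ⊢
      rw [mu_act, hx, map_zero])
  act_zero := fun q w => Subtype.ext (W.T.act_zero q w.1)
  act_add := fun q m m' w => Subtype.ext (W.T.act_add q m m' w.1)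
  act_d := fun i _ _ h m w => Subtype.ext (W.T.act_d i h m w.1)
  act_s := fun i _ _ h m w => Subtype.ext (W.T.act_s i h m w.1)

/-- the projection `id - σ μ` -/
noncomputable def pr (W : LMod k M) {q : ℤ} (σ : W.V q →ₗ[k] (M.G q →₀ W.V q))
    (hσ : ∀ w, W.mu.f q (σ w) = w) : (M.G q →₀ W.V q) →ₗ[k] W.O.V q :=
  LinearMap.codRestrict (LinearMap.ker (W.mu.f q)) (LinearMap.id - σ.comp (W.mu.f q))
    (fun x => by
      rw [LinearMap.mem_ker, LinearMap.sub_apply, map_sub, LinearMap.comp_apply, hσ,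
        LinearMap.id_apply, sub_self])

theorem pr_val (W : LMod k M) {q : ℤ} (σ : W.V q →ₗ[k] (M.G q →₀ W.V q))
    (hσ : ∀ w, W.mu.f q (σ w) = w) (t : M.G q →₀ W.V q) :
    ((W.pr σ hσ t).1 : M.G q →₀ W.V q) = t - σ (W.mu.f q t) := rfl

theorem pr_ker (W : LMod k M) {q : ℤ} (σ : W.V q →ₗ[k] (M.G q →₀ W.V q))
    (hσ : ∀ w, W.mu.f q (σ w) = w) (t : W.O.V q) : W.pr σ hσ t.1 = t := by
  refine Subtype.ext ?_
  have h1 : W.mu.f q t.1 = 0 := t.2
  rw [pr_val, h1, map_zero, sub_zero]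

theorem pr_act (W : LMod k M) {q : ℤ} (σ : W.V q →ₗ[k] (M.G q →₀ W.V q))
    (hσ : ∀ w, W.mu.f q (σ w) = w)
    (hσ2 : ∀ m w, σ (W.act q m w) = (σ w).mapDomain (fun m' => m' + m)) (m : M.G q)
    (t : M.G q →₀ W.V q) : W.pr σ hσ (W.T.act q m t) = W.O.act q m (W.pr σ hσ t) := by
  refine Subtype.ext ?_
  have h1 : ∀ t : M.G q →₀ W.V q, W.T.act q m t = t.mapDomain (fun m' => m' + m) := fun t =>
    fm_id _ t
  change W.T.act q m t - σ (W.mu.f q (W.T.act q m t)) = W.T.act q m (t - σ (W.mu.f q t))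
  rw [mu_act, hσ2, map_sub, ← h1]

theorem O_proj (W : LMod k M) (hP : W.Proj) : W.O.Proj := by
  intro q
  obtain ⟨σ, h1, hσ2⟩ := hP q
  have hσ : ∀ w, W.mu.f q (σ w) = w := h1
  obtain ⟨l, hl⟩ : ∃ l : W.V q →ₗ[k] W.O.V q, l = (W.pr σ hσ).comp (Finsupp.lsingle 0) :=
    ⟨_, rfl⟩
  have hl1 : ∀ v, l v = W.pr σ hσ (Finsupp.single 0 v) := fun v => by rw [hl]; rfl
  refine ⟨(fm (fun m : M.G q => m) l).comp (LinearMap.ker (W.mu.f q)).subtype, ?_, ?_⟩
  · intro w
    have h2 : ∀ t : M.G q →₀ W.V q, W.O.mu.f q (fm (fun m : M.G q => m) l t) = W.pr σ hσ t := by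
      intro t
      refine lext (k := k) (V := W.V q) ((W.O.mu.f q).comp (fm (fun m : M.G q => m) l))
        (W.pr σ hσ) (fun m v => ?_) t
      rw [LinearMap.comp_apply, fm_single, mu_single, hl1, ← pr_act W σ hσ hσ2]
      congr 1
      change (fm (fun m' : M.G q => m' + m) LinearMap.id) (Finsupp.single 0 v) = _
      rw [fm_single, zero_add]
      rfl
    have h3 := h2 w.1
    rw [pr_ker] at h3
    exact h3
  · intro m w
    change fm (fun m : M.G q => m) l (fm (fun m' : M.G q => m' + m) LinearMap.id w.1) =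
      Finsupp.mapDomain (fun m' => m' + m) (fm (fun m : M.G q => m) l w.1)
    rw [← fm_id (k := k)]
    refine lext (k := k) (V := W.V q) ((fm (fun m : M.G q => m) l).comp
      (fm (fun m' : M.G q => m' + m) LinearMap.id))
      ((fm (fun m' : M.G q => m' + m) LinearMap.id).comp (fm (fun m : M.G q => m) l))
      (fun a v => ?_) w.1
    rw [LinearMap.comp_apply, LinearMap.comp_apply, fm_single, fm_single, fm_single, fm_single]
    rfl

theorem O_below (W : LMod k M) {m : ℤ} (h : W.toLSp.toG.Below m) : W.O.toLSp.toG.Below m := by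
  intro q hq x
  refine Subtype.ext ?_
  refine Finsupp.ext (α := M.G q) (M := W.V q) fun a => ?_
  exact h q hq _

/-- the sum of the coefficients -/
noncomputable def eps (W : LMod k M) (q : ℤ) : (M.G q →₀ W.V q) →ₗ[k] W.V q :=
  Finsupp.lsum k (fun _ => LinearMap.id)

theorem eps_single (W : LMod k M) (q : ℤ) (m : M.G q) (w : W.V q) :
    W.eps q (Finsupp.single m w) = w := Finsupp.lsum_single _ _ _ _

theorem eps_of_I (W : LMod k M) (q : ℤ) {t : M.G q →₀ W.V q} (ht : t ∈ W.T.I.S q) :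
    W.eps q t = 0 := by
  have h1 : W.T.I.S q ≤ LinearMap.ker (W.eps q) := by
    refine Submodule.span_le.2 ?_
    rintro x ⟨m, w, rfl⟩
    change W.eps q (W.T.act q m w - w) = 0
    rw [map_sub, sub_eq_zero]
    refine lext (k := k) (V := W.V q) ((W.eps q).comp (W.T.act q m)) (W.eps q) (fun a v => ?_) w
    have h1 : W.T.act q m (Finsupp.single a v : M.G q →₀ W.V q) =
        (Finsupp.single (a + m) v : M.G q →₀ W.V q) := fm_single _ _ _ _
    rw [LinearMap.comp_apply, h1, eps_single, eps_single]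
  exact h1 ht

theorem I_of_eps (W : LMod k M) (q : ℤ) {t : M.G q →₀ W.V q} (ht : W.eps q t = 0) :
    t ∈ W.T.I.S q := by
  have h1 : ∀ t : M.G q →₀ W.V q, t - Finsupp.single 0 (W.eps q t) ∈ W.T.I.S q := by
    intro t
    induction t using Finsupp.induction_linear with
    | zero =>
      rw [map_zero, Finsupp.single_zero, sub_zero]
      exact zero_mem _
    | add x y hx hy =>
      rw [map_add, Finsupp.single_add, add_sub_add_comm]
      exact add_mem hx hy
    | single m w =>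
      rw [eps_single]
      refine Submodule.subset_span ⟨m, (Finsupp.single 0 w : M.G q →₀ W.V q), ?_⟩
      have h1 : W.T.act q m (Finsupp.single 0 w : M.G q →₀ W.V q) =
          (Finsupp.single (0 + m) w : M.G q →₀ W.V q) := fm_single _ _ _ _
      rw [h1, zero_add]
  have h2 := h1 t
  rwa [ht, Finsupp.single_zero, sub_zero] at h2

/-- a bound for the nontrivial faces of all the terms -/
theorem exists_bd (W : LMod k M) {q r : ℤ} (h : q + 1 = r) (t : M.G r →₀ W.V r) :
    ∃ n : ℕ, ∀ i, n ≤ i → (∀ m ∈ t.support, M.d i h m = 0) ∧ ∀ m, W.d i h (t m) = 0 := by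
  have h1 : ∀ m, ∃ n : ℕ, ∀ i, n ≤ i → M.d i h m = 0 ∧ W.d i h (t m) = 0 := by
    intro m
    obtain ⟨a, ha⟩ := M.fin h m
    obtain ⟨b, hb⟩ := W.fin h (t m)
    exact ⟨max a b, fun i hi => ⟨ha i ((le_max_left _ _).trans hi),
      hb i ((le_max_right _ _).trans hi)⟩⟩
  choose n hn using h1
  refine ⟨t.support.sup n, fun i hi => ⟨fun m hm => (hn m i ((Finset.le_sup hm).trans hi)).1,
    fun m => ?_⟩⟩
  by_cases hm : m ∈ t.support
  · exact (hn m i ((Finset.le_sup hm).trans hi)).2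
  · rw [Finsupp.notMem_support_iff.1 hm, map_zero]

theorem fm_eq_sum {A B V U : Type} [AddCommGroup V] [Module k V] [AddCommGroup U] [Module k U]
    (a : A → B) (f : V →ₗ[k] U) (t : A →₀ V) :
    fm a f t = ∑ x ∈ t.support, Finsupp.single (a x) (f (t x)) := by
  unfold fm
  rw [Finsupp.lsum_apply]
  rfl

theorem T_acyclic (W : LMod k M) : (W.T.I.toL).toG.Acyclic := by
  intro q z hz
  obtain ⟨t, ht⟩ := z
  change M.G q →₀ W.V q at t
  obtain ⟨l, hl⟩ : ∃ l, l + 1 = q := ⟨q - 1, by omega⟩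
  have hz' : ∀ i, W.T.d i hl t = 0 := fun i =>
    congrArg (fun v : W.T.I.S l => (v : W.T.V l)) (hz i hl)
  obtain ⟨n, hn⟩ := W.exists_bd hl t
  have hε := W.eps_of_I q ht
  obtain ⟨θ, hθ⟩ : ∃ θ : M.G (q + 1) →₀ W.V (q + 1),
      θ = fm (M.s (n + 1) (rfl : q + 1 = q + 1)) (W.s n (rfl : q + 1 = q + 1)) t := ⟨_, rfl⟩
  have hcomp : ∀ i, W.T.d i (rfl : q + 1 = q + 1) θ =
      fm (fun m => M.d i rfl (M.s (n + 1) rfl m)) ((W.d i rfl).comp (W.s n rfl)) t := by
    intro i
    rw [hθ]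
    refine lext (k := k) (V := W.V q) ((fm (M.d i (rfl : q + 1 = q + 1))
      (W.d i (rfl : q + 1 = q + 1))).comp (fm (M.s (n + 1) (rfl : q + 1 = q + 1))
      (W.s n (rfl : q + 1 = q + 1)))) (fm (fun m => M.d i rfl (M.s (n + 1) rfl m))
      ((W.d i rfl).comp (W.s n rfl))) (fun a v => ?_) t
    rw [LinearMap.comp_apply, fm_single, fm_single, fm_single]
    rfl
  have hθI : θ ∈ W.T.I.S (q + 1) := by
    apply I_of_eps
    rw [hθ]
    have h1 : W.eps (q + 1) (fm (M.s (n + 1) (rfl : q + 1 = q + 1))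
        (W.s n (rfl : q + 1 = q + 1)) t) = W.s n rfl (W.eps q t) := by
      refine lext (k := k) (V := W.V q) ((W.eps (q + 1)).comp
        (fm (M.s (n + 1) (rfl : q + 1 = q + 1)) (W.s n (rfl : q + 1 = q + 1))))
        ((W.s n rfl).comp (W.eps q)) (fun a v => ?_) t
      rw [LinearMap.comp_apply, LinearMap.comp_apply, fm_single, eps_single, eps_single]
    rw [h1, hε, map_zero]
  have hface : (W.T.I.toL).toG.d (n + 1) rfl (⟨θ, hθI⟩ : W.T.I.S (q + 1)) = ⟨t, ht⟩ := by
    refine Subtype.ext ?_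
    change W.T.d (n + 1) rfl θ = t
    rw [hcomp]
    refine lext (k := k) (V := W.V q) (fm (fun m => M.d (n + 1) rfl (M.s (n + 1) rfl m))
      ((W.d (n + 1) rfl).comp (W.s n rfl))) LinearMap.id (fun a v => ?_) t
    rw [fm_single, M.ds_eq, LinearMap.comp_apply, W.ds_succ]
    rfl
  rw [← hface]
  refine GSp.face _ rfl (n + 1) _ ?_
  intro i hi
  refine Subtype.ext ?_
  change W.T.d i rfl θ = 0
  rw [hcomp]
  rcases lt_trichotomy i n with hin | hin | hin
  · obtain ⟨n', rfl⟩ : ∃ n', n = n' + 1 := ⟨n - 1, by omega⟩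
    have h1 : fm (fun m => M.d i rfl (M.s (n' + 1 + 1) rfl m))
        ((W.d i rfl).comp (W.s (n' + 1) rfl)) t =
        fm (M.s (n' + 1) hl) (W.s n' hl) (W.T.d i hl t) := by
      refine lext (k := k) (V := W.V q) (fm (fun m => M.d i rfl (M.s (n' + 1 + 1) rfl m))
        ((W.d i rfl).comp (W.s (n' + 1) rfl)))
        ((fm (M.s (n' + 1) hl) (W.s n' hl)).comp (fm (M.d i hl) (W.d i hl))) (fun a v => ?_) t
      rw [LinearMap.comp_apply, fm_single, fm_single, fm_single, LinearMap.comp_apply,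
        M.ds_lt (by omega) hl rfl, W.ds_lt (by omega) hl rfl]
    rw [h1, hz', map_zero]
  · subst hin
    rw [fm_eq_sum]
    have h1 : ∀ m ∈ t.support, Finsupp.single (M.d i rfl (M.s (i + 1) rfl m))
        (((W.d i rfl).comp (W.s i rfl)) (t m)) = Finsupp.single (0 : M.G q) (t m) := by
      intro m hm
      rw [M.ds_lt (le_refl i) hl rfl, ((hn i le_rfl).1 m hm), map_zero, LinearMap.comp_apply,
        W.ds_eq]
    rw [Finset.sum_congr rfl h1]
    have h2 : ∑ m ∈ t.support, Finsupp.single (0 : M.G q) (t m) =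
        Finsupp.single (0 : M.G q) (W.eps q t) := by
      have h3 : W.eps q t = ∑ m ∈ t.support, t m := by
        unfold eps
        rw [Finsupp.lsum_apply]
        rfl
      rw [h3]
      exact (map_sum (Finsupp.singleAddHom (0 : M.G q)) _ _).symm
    rw [h2, hε, Finsupp.single_zero]
  · obtain ⟨j, rfl⟩ : ∃ j, i = j + 1 := ⟨i - 1, by omega⟩
    rw [fm_eq_sum]
    refine Finset.sum_eq_zero fun m _ => ?_
    rw [LinearMap.comp_apply, W.ds_gt (by omega : n < j) hl rfl, (hn j (by omega)).2 m, map_zero,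
      Finsupp.single_zero]

theorem mu_I (W : LMod k M) (q : ℤ) {t : M.G q →₀ W.V q} (ht : t ∈ W.T.I.S q) :
    W.mu.f q t ∈ W.I.S q := by
  have h1 : W.T.I.S q ≤ Submodule.comap (W.mu.f q) (W.I.S q) := by
    refine Submodule.span_le.2 ?_
    rintro x ⟨m, w, rfl⟩
    change W.mu.f q (W.T.act q m w - w) ∈ W.I.S q
    rw [map_sub, mu_act]
    exact Submodule.subset_span ⟨m, _, rfl⟩
  exact h1 ht

/-- the homomorphism `(T W) I → W I` -/
noncomputable def muI (W : LMod k M) : LSp.Hom W.T.I.toL W.I.toL where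
  f := fun q => (W.mu.f q).restrict (p := W.T.I.S q) (q := W.I.S q) (fun _ hx => W.mu_I q hx)
  map_d := fun i _ _ h x => Subtype.ext (W.mu.map_d i h x.1)
  map_s := fun i _ _ h x => Subtype.ext (W.mu.map_s i h x.1)

theorem muI_surj (W : LMod k M) : W.muI.toG.Surj := by
  intro q x
  have h1 : W.I.S q ≤ Submodule.map (W.mu.f q) (W.T.I.S q) := by
    refine Submodule.span_le.2 ?_
    rintro y ⟨m, w, rfl⟩
    refine ⟨W.T.act q m (Finsupp.single 0 w : M.G q →₀ W.V q) -
      (Finsupp.single 0 w : M.G q →₀ W.V q), Submodule.subset_span ⟨m, _, rfl⟩, ?_⟩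
    rw [map_sub, mu_act, mu_single, W.act_zero]
  obtain ⟨y, hy, hyx⟩ := h1 x.2
  exact ⟨⟨y, hy⟩, Subtype.ext hyx⟩

theorem O_I_le (W : LMod k M) (q : ℤ) {x : W.O.V q} (hx : x ∈ W.O.I.S q) : x.1 ∈ W.T.I.S q := by
  have h1 : W.O.I.S q ≤ Submodule.comap (LinearMap.ker (W.mu.f q)).subtype (W.T.I.S q) := by
    refine Submodule.span_le.2 ?_
    rintro y ⟨m, w, rfl⟩
    exact Submodule.subset_span ⟨m, w.1, rfl⟩
  exact h1 hx

theorem le_O_I (W : LMod k M) (hP : W.Proj) (q : ℤ) (x : W.O.V q) (hx : x.1 ∈ W.T.I.S q) :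
    x ∈ W.O.I.S q := by
  obtain ⟨σ, h1, hσ2⟩ := hP q
  have hσ : ∀ w, W.mu.f q (σ w) = w := h1
  have h2 : W.T.I.S q ≤ Submodule.comap (W.pr σ hσ) (W.O.I.S q) := by
    refine Submodule.span_le.2 ?_
    rintro y ⟨m, w, rfl⟩
    change W.pr σ hσ (W.T.act q m w - w) ∈ W.O.I.S q
    rw [map_sub, pr_act W σ hσ hσ2]
    exact Submodule.subset_span ⟨m, _, rfl⟩
  have h3 := h2 hx
  rw [← pr_ker W σ hσ x]
  exact h3

theorem bar_step (W : LMod k M) (hP : W.Proj) {q r : ℤ} (e : q + 1 = r)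
    (hO : (W.O.I.toL).toG.Vanish q) : (W.I.toL).toG.Vanish r := by
  have hK : (GSp.ker W.muI.toG).Vanish q := by
    intro z hz
    have hμ : W.mu.f q z.1.1 = 0 := congrArg (fun v : W.I.S q => (v : W.V q)) z.2
    have hmem : (⟨z.1.1, hμ⟩ : W.O.V q) ∈ W.O.I.S q := W.le_O_I hP q ⟨z.1.1, hμ⟩ z.1.2
    obtain ⟨v, hv, hv0⟩ := hO (⟨⟨z.1.1, hμ⟩, hmem⟩ : W.O.I.S q) (by
      intro i t h
      refine Subtype.ext (Subtype.ext ?_)
      have h1 := hz i h
      have h2 := congrArg (fun v : (GSp.ker W.muI.toG).G t => (v.1.1 : M.G t →₀ W.V t)) h1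
      exact h2)
    refine ⟨(⟨⟨v.1.1, W.O_I_le _ v.2⟩, Subtype.ext v.1.2⟩ : (GSp.ker W.muI.toG).G (q + 1)), ?_, ?_⟩
    · intro i t h
      have h1 := hv i h
      have h2 := congrArg (fun v : W.O.I.S t => (v.1.1 : M.G t →₀ W.V t)) h1
      exact Subtype.ext (Subtype.ext h2)
    · have h2 := congrArg (fun v : W.O.I.S q => (v.1.1 : M.G q →₀ W.V q)) hv0
      exact Subtype.ext (Subtype.ext h2)
  intro z hz
  obtain ⟨y, hy1, hy2⟩ := GSp.ext_fill W.muI.toG W.muI_surj e hK z (fun _ => 0) 0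
    (fun _ _ => rfl) (fun {i j} _ {t} h₂ => by rw [map_zero, map_zero])
    (fun i => by rw [map_zero]; exact (hz i e).symm)
  have hyZ : y ∈ (W.T.I.toL).toG.Z r := by
    intro i t h
    obtain rfl : t = q := by omega
    exact hy2 i
  rw [← hy1]
  exact GSp.Hom.map_B W.muI.toG (W.T_acyclic r y hyZ)

/-- **Bar argument**: for a strictly bounded below levelwise projective module spectrum `W` over a
monoid spectrum, `W · I` is acyclic.

PROOF.  Let `T W = W ⊗ k[M]` be the module spectrum `(T W)_q = (M_q →₀ W_q)`, faces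
`single m w ↦ single (d m) (d w)`, action `single m w · m' = single (m + m') w`.
(1) `(T W) · I = {t | ∑_m t(m) = 0}`.  It is ACYCLIC: for a cycle `t` choose `k` with `d_i w = 0`,
`d_i m = 0` for all `i ≥ k` and all `m` in the support, `w = t(m)`; `θ(single m w) =
single (s_{k+1} m) (s_k w)`.  Then `θ t` has the only face `d_{k+1} θ t = t`:
`d_i θ = θ d_i` for `i < k` (with `k - 1` instead of `k`), `d_k θ t = ∑ single 0 (t m) = 0`,
`d_{k+1} θ t = t`, the higher faces are `0` (they contain `s_k (d_i w) = 0`).  Use `GSp.face`.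
(2) `μ : T W → W`, `single m w ↦ w · m`, is a surjective homomorphism of module spectra; let
`O W` be its kernel, a module spectrum.  It is again projective (it is a levelwise retract of
`T W` by the `k[M]`-linear projection `π = id - σ μ`; the section `O W → T W → T (T W) → T (O W)` is
`single m w ↦ single m (π (single 0 w))`).  It vanishes in the same degrees as `W`.
(3) `0 → (O W) I → (T W) I → W I → 0` is exact: if `t ∈ (T W) I`, `μ t = 0`, write
`t = ∑ (t_j · m_j - t_j)`; then `t = π t = ∑ (π t_j · m_j - π t_j) ∈ (O W) I`.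
(4) By (1) and the long exact sequence `π_q (W I) ≅ π_{q-1} ((O W) I)`.  By induction on `q`,
for all `W` with the given lower bound simultaneously, `π_q (W I) = 0`. -/
theorem bar_acyclic (W : LMod k M) (hW : W.toLSp.toG.SBB) (hP : W.Proj) :
    (W.I.toL).toG.Acyclic := by
  obtain ⟨m₀, hm₀⟩ := hW
  have key : ∀ (n : ℕ) (q : ℤ), q < m₀ + n → ∀ W : LMod k M, W.toLSp.toG.Below m₀ → W.Proj →
      (W.I.toL).toG.Vanish q := by
    intro n
    induction n with
    | zero =>
      intro q hq W hW _ z _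
      have h1 : z = 0 := Subtype.ext (hW q (by simpa using hq) z.1)
      rw [h1]
      exact zero_mem _
    | succ n ih =>
      intro q hq W hW hP
      exact W.bar_step hP (by omega : (q - 1) + 1 = q)
        (ih (q - 1) (by push_cast at hq; omega) W.O (W.O_below hW) (W.O_proj hP))
  intro q
  exact key (q - m₀ + 1).toNat q (by omega) W hm₀ hP

end LMod

end BPN
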