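import Pool.Agent.BPN.L.FExt

/-!
# Contravariant exactness for linear targets (project BPN, module L/CE)

For a surjective homomorphism `p : E → G` of strictly bounded below group spectra with kernel `K` and
a linear spectrum `L`.  Notation: `R = ker (lin E → lin G)`, `R / lin K` is acyclic
(`FreeAct.quot_acyclic` for `Hom.freeAct`).
-/

namespace BPN

open GSp

variable {k : Type} [Field k] {E G H : GSp}

/-! Auxiliary facts. -/

/-- The kernel as a sub-spectrum of the underlying pointed-set spectrum. -/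
private def ceK (p : Hom E G) : PSub E.U where
  S := fun q => {x | p.f q x = 0}
  pt_mem := fun q => map_zero (p.f q)
  d_mem := fun i q r h x hx => by
    have h1 : p.f r x = 0 := hx
    change p.f q (E.d i h x) = 0
    rw [p.map_d, h1, map_zero]
  s_mem := fun i q r h x hx => by
    have h1 : p.f q x = 0 := hx
    change p.f r (E.s i h x) = 0
    rw [p.map_s, h1, map_zero]

private def ceKH (p : Hom E G) : PSp.Hom (ceK p).toPSp (ker p).U :=
  ⟨fun _ x => ⟨x.1, x.2⟩, fun _ => rfl, fun _ _ _ _ _ => rfl, fun _ _ _ _ _ => rfl⟩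

/-- Maps into an acyclic group spectrum extend from a sub-spectrum. -/
private theorem ce_extend {X : PSp} (A : PSub X) {M : GSp} (hM : M.Acyclic)
    (b : Map A.toPSp M) : ∃ h : Map X M, ∀ q (x : A.toPSp.X q), h.f q x.1 = b.f q x := by
  let z : GSp.Hom M HC.zeroG := ⟨fun _ => 0, fun _ _ _ _ _ => rfl, fun _ _ _ _ _ => rfl⟩
  have hz : z.Surj := fun q y => ⟨0, rfl⟩
  have hzK : (GSp.ker z).Acyclic := by
    refine HC.acyclic_of_bij (K := M) (L := GSp.ker z)
      ⟨fun q => (AddMonoidHom.id _).codRestrict _ (fun _ => rfl), fun _ _ _ _ _ => rfl,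
        fun _ _ _ _ _ => rfl⟩ (fun q => ⟨?_, ?_⟩) hM
    · intro x x' h
      exact congrArg Subtype.val h
    · rintro ⟨x, hx⟩
      exact ⟨x, rfl⟩
  obtain ⟨h, -, hh⟩ := lift_rel z hz hzK A (0 : Map X HC.zeroG) b (Map.ext2 fun _ _ => rfl)
  exact ⟨h, fun q x => congrArg (fun m : Map A.toPSp M => m.f q x) hh⟩

private theorem ce_extK (p : Hom E G) {M : GSp} (hM : M.Acyclic) (b : Map (ker p).U M) :
    ∃ h : Map E.U M, ∀ q (x : (ker p).G q), h.f q x.1 = b.f q x := by
  obtain ⟨h, hh⟩ := ce_extend (ceK p) hM (Map.pre (ceKH p) b)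
  exact ⟨h, fun q x => hh q ⟨x.1, x.2⟩⟩

/-- The generators of `lin X`, typed as elements of `lin X`. -/
private noncomputable def ceG (k : Type) [Field k] {X : PSp} {q : ℤ} (x : X.X q) :
    (lin k X).V q := Fr.of k (X.pt q) x

private theorem ceG_pt (X : PSp) (q : ℤ) : ceG k (X.pt q) = 0 := Fr.of_pt

private theorem ceG_ext {X : PSp} {q : ℤ} {V : Type} [AddCommGroup V] [Module k V]
    {f g : (lin k X).V q →ₗ[k] V} (h : ∀ x : X.X q, f (ceG k x) = g (ceG k x)) : f = g :=
  Fr.hom_ext h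

private theorem ceG_lin {X : PSp} {M : LSp k} (f : Map X M.toG) (q : ℤ) (x : X.X q) :
    (Map.lin f).f q (ceG k x) = f.f q x := Map.lin_of f q x

private theorem ceG_map {X Y : PSp} (φ : PSp.Hom X Y) (q : ℤ) (x : X.X q) :
    (linMap k φ).f q (ceG k x) = ceG k (φ.f q x) := linMap_of k φ q x

private theorem ceG_d (X : PSp) (i : ℕ) {q r : ℤ} (h : q + 1 = r) (x : X.X r) :
    ceG k (X.d i h x) = (lin k X).d i h (ceG k x) := (lin.eta k X).map_d i h x

private theorem ceG_s (X : PSp) (i : ℕ) {q r : ℤ} (h : q + 1 = r) (x : X.X q) :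
    ceG k (X.s i h x) = (lin k X).s i h (ceG k x) := (lin.eta k X).map_s i h x

private theorem ce_lin_below {X : PSp} {m : ℤ} (hX : ∀ q, q < m → ∀ x : X.X q, x = X.pt q) :
    (lin k X).toG.Below m := by
  intro q hq x
  have h1 : (LinearMap.id : Fr k (X.X q) (X.pt q) →ₗ[k] Fr k (X.X q) (X.pt q)) = 0 := by
    refine Fr.hom_ext fun y => ?_
    rw [hX q hq y, Fr.of_pt, map_zero, map_zero]
  exact DFunLike.congr_fun h1 x

private theorem ce_lin_sbb (hE : E.SBB) : (lin k E.U).toG.SBB := by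
  obtain ⟨m, hm⟩ := hE
  exact ⟨m, ce_lin_below hm⟩

private theorem ce_sub_sbb {M : LSp k} (hM : M.toG.SBB) (S : LSp.Sub M) : S.toL.toG.SBB := by
  obtain ⟨m, hm⟩ := hM
  exact ⟨m, fun q hq x => Subtype.ext (hm q hq x.1)⟩

private theorem ce_quot_sbb {M : LSp k} (hM : M.toG.SBB) (S : LSp.Sub M) :
    S.quot.toG.SBB := by
  obtain ⟨m, hm⟩ := hM
  refine ⟨m, fun q hq x => ?_⟩
  obtain ⟨y, rfl⟩ := Submodule.mkQ_surjective _ x
  have h1 : y = 0 := hm q hq y
  rw [h1]
  exact map_zero _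

/-- The inclusion of `R`. -/
private noncomputable def ceI (k : Type) [Field k] (p : Hom E G) (hp : p.Surj) :
    LSp.Hom ((p.freeAct hp).R k) (lin k E.U) := (linMap k (p.freeAct hp).π).kerS.incl

private theorem ceI_ker (p : Hom E G) (hp : p.Surj) (q : ℤ) (w : ((p.freeAct hp).R k).V q) :
    (linMap k (p.freeAct hp).π).f q ((ceI k p hp).f q w) = 0 := w.2

private theorem ceI_mk (p : Hom E G) (hp : p.Surj) (q : ℤ) (z : (lin k E.U).V q)
    (hz : (linMap k (p.freeAct hp).π).f q z = 0) :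
    ∃ w : ((p.freeAct hp).R k).V q, (ceI k p hp).f q w = z := ⟨⟨z, hz⟩, rfl⟩

private theorem ce_extP (p : Hom E G) (hp : p.Surj) (hE : E.SBB) {M : LSp k}
    (c : LSp.Hom ((p.freeAct hp).R k) M.P) :
    ∃ c' : LSp.Hom (lin k E.U) M.P, ∀ q w, c'.f q ((ceI k p hp).f q w) = c.f q w :=
  LSp.ext_P (ce_lin_sbb hE) _ c

/-- A linear map which vanishes on the generators of the kernel vanishes on `R₀`. -/
private theorem ce_R₀ (p : Hom E G) (hp : p.Surj) {M : LSp k}
    (F : LSp.Hom ((p.freeAct hp).R k) M)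
    (hF : ∀ q (x : (ker p).G q) (w : ((p.freeAct hp).R k).V q),
      (ceI k p hp).f q w = ceG k (X := E.U) x.1 → F.f q w = 0) :
    ∀ q, ∀ x ∈ ((p.freeAct hp).R₀ k).S q, F.f q x = 0 := by
  intro q x hx
  obtain ⟨y, hy⟩ := hx
  have hk : ∀ y, (linMap k (p.freeAct hp).π).f q ((linMap k (p.freeAct hp).orb).f q y) = 0 := by
    intro y
    have h1 : ((linMap k (p.freeAct hp).π).f q).comp ((linMap k (p.freeAct hp).orb).f q) = 0 := by
      refine ceG_ext fun m => ?_
      rw [LinearMap.comp_apply, ceG_map, ceG_map]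
      have h2 : (p.freeAct hp).π.f q ((p.freeAct hp).orb.f q m) = 0 := by
        change p.f q ((0 : E.G q) + m.1) = 0
        rw [zero_add]
        exact m.2
      rw [h2]
      exact ceG_pt G.U q
    exact DFunLike.congr_fun h1 y
  have h3 : (F.f q).comp (((linMap k (p.freeAct hp).orb).f q).codRestrict
      (LinearMap.ker ((linMap k (p.freeAct hp).π).f q)) hk) = 0 := by
    refine ceG_ext fun m => ?_
    refine hF q m _ ?_
    refine (ceG_map (p.freeAct hp).orb q m).trans ?_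
    change ceG k (X := E.U) ((0 : E.G q) + m.1) = _
    rw [zero_add]
  have h4 := DFunLike.congr_fun h3 y
  have h5 : x = ((linMap k (p.freeAct hp).orb).f q).codRestrict
      (LinearMap.ker ((linMap k (p.freeAct hp).π).f q)) hk y := Subtype.ext hy.symm
  rw [h5]
  exact h4

/-- Key lemma: a linear map on `R` which vanishes on the generators of the kernel is linearly
nullhomotopic by a nullhomotopy which vanishes on the generators of the kernel. -/
private theorem ce_key (p : Hom E G) (hp : p.Surj) (hE : E.SBB) {M : LSp k}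
    (F : LSp.Hom ((p.freeAct hp).R k) M)
    (hF : ∀ q (x : (ker p).G q) (w : ((p.freeAct hp).R k).V q),
      (ceI k p hp).f q w = ceG k (X := E.U) x.1 → F.f q w = 0) :
    ∃ c : LSp.Hom ((p.freeAct hp).R k) M.P, (∀ q w, M.dP.f q (c.f q w) = F.f q w) ∧
      ∀ q (x : (ker p).G q) (w : ((p.freeAct hp).R k).V q),
        (ceI k p hp).f q w = ceG k (X := E.U) x.1 → c.f q w = 0 := by
  have h0 := ce_R₀ p hp F hF
  have hA := (p.freeAct hp).quot_acyclic k hE
  obtain ⟨b, hb⟩ := LSp.null_lin (ce_quot_sbb (ce_sub_sbb (ce_lin_sbb hE) _) _) hA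
    (LSp.Sub.desc ((p.freeAct hp).R₀ k) F h0)
  refine ⟨b.comp (((p.freeAct hp).R₀ k).proj), fun q w => hb q _, ?_⟩
  intro q x w hw
  have h1 : w ∈ ((p.freeAct hp).R₀ k).S q := by
    refine ⟨ceG k (X := (ker p).toM.U) x, ?_⟩
    refine (ceG_map (p.freeAct hp).orb q x).trans ?_
    change ceG k (X := E.U) ((0 : E.G q) + x.1) = (ceI k p hp).f q w
    rw [zero_add, hw]
  have h2 : (((p.freeAct hp).R₀ k).proj).f q w = 0 :=
    (Submodule.Quotient.mk_eq_zero _).2 h1
  exact (congrArg (b.f q) h2).trans (map_zero (b.f q))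

/-- A linear map on `lin E` which vanishes on `R` factors through `G`. -/
private theorem ce_factor (p : Hom E G) (hp : p.Surj) {M : LSp k} (F : LSp.Hom (lin k E.U) M)
    (hF : ∀ q w, F.f q ((ceI k p hp).f q w) = 0) :
    ∃ θ : Map G.U M.toG, ∀ q (x : E.G q), θ.f q (p.f q x) = F.f q (ceG k (X := E.U) x) := by
  have key : ∀ q (x y : E.G q), p.f q x = p.f q y →
      F.f q (ceG k (X := E.U) x) = F.f q (ceG k (X := E.U) y) := by
    intro q x y hxy
    have h1 : (linMap k (p.freeAct hp).π).f q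
        (ceG k (X := E.U) x - ceG k (X := E.U) y) = 0 := by
      rw [map_sub]
      have h2 := ceG_map (k := k) (p.freeAct hp).π q x
      have h3 := ceG_map (k := k) (p.freeAct hp).π q y
      have h4 : (p.freeAct hp).π.f q x = (p.freeAct hp).π.f q y := hxy
      rw [h4] at h2
      exact sub_eq_zero.2 (h2.trans h3.symm)
    obtain ⟨w, hw⟩ := ceI_mk p hp q _ h1
    have h6 := hF q w
    rw [hw, map_sub] at h6
    exact sub_eq_zero.1 h6
  have hθ : ∀ q (x : E.G q), F.f q (ceG k (X := E.U) (hp q (p.f q x)).choose) =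
      F.f q (ceG k (X := E.U) x) := fun q x => key q _ _ (hp q (p.f q x)).choose_spec
  refine ⟨⟨fun q y => F.f q (ceG k (X := E.U) (hp q y).choose), ?_, ?_, ?_⟩, hθ⟩
  · intro q
    have h1 := hθ q 0
    rw [map_zero] at h1
    refine h1.trans ?_
    exact (congrArg (F.f q) (ceG_pt E.U q)).trans (map_zero (F.f q))
  · intro i q r h y
    obtain ⟨x, rfl⟩ := hp r y
    change F.f q (ceG k (X := E.U) (hp q (G.d i h (p.f r x))).choose) =
      M.d i h (F.f r (ceG k (X := E.U) (hp r (p.f r x)).choose))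
    rw [hθ r x, ← p.map_d, hθ q, ← F.map_d]
    exact congrArg (F.f q) (ceG_d E.U i h x)
  · intro i q r h y
    obtain ⟨x, rfl⟩ := hp q y
    change F.f r (ceG k (X := E.U) (hp r (G.s i h (p.f q x))).choose) =
      M.s i h (F.f q (ceG k (X := E.U) (hp q (p.f q x)).choose))
    rw [hθ q x, ← p.map_s, hθ r, ← F.map_s]
    exact congrArg (F.f r) (ceG_s E.U i h x)

/-- A linear map `lin X → M` as a set-level map. -/
private noncomputable def ceM {X : PSp} {M : LSp k} (F : LSp.Hom (lin k X) M) : Map X M.toG :=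
  Map.post F.toG (lin.eta k X)

private theorem ceM_f {X : PSp} {M : LSp k} (F : LSp.Hom (lin k X) M) (q : ℤ) (x : X.X q) :
    (ceM F).f q x = F.f q (ceG k x) := rfl

/-- A point of the kernel gives an element of `R`. -/
private theorem ce_mem (p : Hom E G) (hp : p.Surj) (q : ℤ) (x : (ker p).G q) :
    (linMap k (p.freeAct hp).π).f q (ceG k (X := E.U) x.1) = 0 := by
  refine (ceG_map (p.freeAct hp).π q x.1).trans ?_
  have h1 : (p.freeAct hp).π.f q x.1 = 0 := x.2
  rw [h1]
  exact ceG_pt G.U q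

/-- Exactness at `[E, L]`.  PROOF: by `HC.hep` we may assume that `a` vanishes on `K`.  The linear
extension of `a` on `R` vanishes on `lin K`, hence is a map from the acyclic `R / lin K`, which is
linearly nullhomotopic (`LSp.null_lin`); extend the nullhomotopy from `R / lin K` to
`lin E / lin K` (`LSp.ext_P`) and subtract; the new map vanishes on `R`, hence factors through
`lin G`. -/
theorem CE.exact_E (p : Hom E G) (hp : p.Surj) (hE : E.SBB) (L : LSp k) (a : Map E.U L.toG)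
    (ha : (Map.comp a (Map.ofHom (kerIncl p))).Null) :
    ∃ θ : Map G.U L.toG, HC.mk (Map.comp θ (Map.ofHom p)) = HC.mk a := by
  have h0 : (Map.pre (ceK p).incl a).Null := ha.pre (ceKH p)
  obtain ⟨a', ha', hz⟩ := HC.hep (ceK p) a h0
  obtain ⟨c, hc, -⟩ := ce_key p hp hE
    ((a'.lin).comp (ceI k p hp)) (by
      intro q x w hw
      change (a'.lin).f q ((ceI k p hp).f q w) = 0
      rw [hw]
      exact (ceG_lin a' q x.1).trans (hz q x.1 x.2))
  obtain ⟨c', hc'⟩ := ce_extP p hp hE c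
  obtain ⟨θ, hθ⟩ := ce_factor p hp (a'.lin + -(L.dP.comp c')) (by
    intro q w
    change (a'.lin).f q ((ceI k p hp).f q w) + -(L.dP.f q (c'.f q ((ceI k p hp).f q w))) = 0
    rw [hc' q w, hc q w]
    exact add_neg_cancel _)
  refine ⟨θ, ?_⟩
  rw [← ha', HC.mk_eq]
  have h1 : Map.comp θ (Map.ofHom p) = a' + -(Map.post L.toG.dP (ceM c')) := by
    refine Map.ext2 fun q x => ?_
    refine (hθ q x).trans ?_
    change (a'.lin).f q (ceG k (X := E.U) x) + -(L.dP.f q (c'.f q (ceG k (X := E.U) x))) = _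
    exact congrArg (fun z => z + -(L.dP.f q (c'.f q (ceG k (X := E.U) x)))) (ceG_lin a' q x)
  rw [← HC.mk_eq, h1, map_add, map_neg]
  have h2 : HC.mk (Map.post L.toG.dP (ceM c')) = 0 := HC.mk_eq_zero.2 ⟨ceM c', rfl⟩
  rw [h2, neg_zero, add_zero]

/-- Transgression.  PROOF: extend `u : lin K → Ω L ⊆ P L` to `b' : R → P L` (`LSp.ext_P`); `dP b'`
vanishes on `lin K`, hence is a map from `R / lin K`, linearly nullhomotopic; subtract the
nullhomotopy: now `b' : R → Ω L`; extend to `b : lin E → P L`; `dP b` vanishes on `R`. -/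
theorem CE.exists_transgression (p : Hom E G) (hp : p.Surj) (hE : E.SBB) (L : LSp k)
    (u : Map (ker p).U L.toG.Om) :
    ∃ (κ : Map G.U L.toG) (b : Map E.U L.toG.P),
      Map.post L.toG.dP b = Map.comp κ (Map.ofHom p) ∧
      ∀ q (x : (ker p).G q), b.f q x.1 = (u.f q x).1 := by
  obtain ⟨b₀, hb₀⟩ := ce_extK p L.toG.P_acyclic (Map.post (kerIncl L.toG.dP) u)
  have hu : ∀ q (x : (ker p).G q), L.dP.f q (u.f q x).1 = 0 := fun q x => (u.f q x).2
  let F₀ : LSp.Hom (lin k E.U) L.P := Map.lin (L := L.P) b₀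
  have hF₀ : ∀ q (x : (ker p).G q), F₀.f q (ceG k (X := E.U) x.1) = (u.f q x).1 := fun q x =>
    (ceG_lin (M := L.P) b₀ q x.1).trans (hb₀ q x)
  obtain ⟨c, hc, hc0⟩ := ce_key p hp hE
    ((L.dP.comp F₀).comp (ceI k p hp)) (by
      intro q x w hw
      change L.dP.f q (F₀.f q ((ceI k p hp).f q w)) = 0
      rw [hw, hF₀]
      exact hu q x)
  obtain ⟨b', hb'⟩ := ce_extP p hp hE (F₀.comp (ceI k p hp) + -c)
  obtain ⟨κ, hκ⟩ := ce_factor p hp (L.dP.comp b') (by
    intro q w
    change L.dP.f q (b'.f q ((ceI k p hp).f q w)) = 0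
    rw [hb' q w]
    change L.dP.f q (F₀.f q ((ceI k p hp).f q w) + -(c.f q w)) = 0
    rw [map_add, map_neg, hc q w]
    exact add_neg_cancel _)
  refine ⟨κ, ceM b', ?_, ?_⟩
  · refine Map.ext2 fun q x => ?_
    exact (hκ q x).symm
  · intro q x
    obtain ⟨w, hw⟩ := ceI_mk p hp q _ (ce_mem (k := k) p hp q x)
    have h1 := hb' q w
    rw [hw] at h1
    refine h1.trans ?_
    change F₀.f q ((ceI k p hp).f q w) + -(c.f q w) = _
    rw [hc0 q x w hw, neg_zero, add_zero, hw, hF₀]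

/-- Exactness at `[G, L]`.  PROOF: `b` restricted to `K` is nullhomotopic in `Ω L`; extend the
nullhomotopy `K → P Ω L` to `E → P Ω L` (`P Ω L` is acyclic) and subtract: `b` vanishes on `K`;
then `b : R / lin K → Ω L` is linearly nullhomotopic, subtract again: `b` vanishes on `R` and factors
through `lin G`. -/
theorem CE.null_of (p : Hom E G) (hp : p.Surj) (hE : E.SBB) (L : LSp k) (κ : Map G.U L.toG)
    (b : Map E.U L.toG.P) (hb : Map.post L.toG.dP b = Map.comp κ (Map.ofHom p))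
    (u : Map (ker p).U L.toG.Om) (hu : ∀ q (x : (ker p).G q), b.f q x.1 = (u.f q x).1)
    (hn : u.Null) : κ.Null := by
  obtain ⟨v, hv⟩ := hn
  obtain ⟨v', hv'⟩ := ce_extK p L.toG.Om.P_acyclic v
  -- subtract the nullhomotopy on the kernel
  let b₁ : Map E.U L.toG.P :=
    b + -(Map.post (kerIncl L.toG.dP) (Map.post L.toG.Om.dP v'))
  have hb₁K : ∀ q (x : (ker p).G q), b₁.f q x.1 = 0 := by
    intro q x
    have h1 : (u.f q x).1 = (L.toG.Om.dP.f q (v.f q x)).1 :=
      congrArg (fun m : Map (ker p).U L.toG.Om => (m.f q x).1) hv.symm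
    change b.f q x.1 + -(L.toG.Om.dP.f q (v'.f q x.1)).1 = 0
    rw [hu, hv', h1]
    exact add_neg_cancel _
  have hb₁d : ∀ q (x : E.G q), L.toG.dP.f q (b₁.f q x) = κ.f q (p.f q x) := by
    intro q x
    have h1 : L.toG.dP.f q (b.f q x) = κ.f q (p.f q x) :=
      congrArg (fun m : Map E.U L.toG => m.f q x) hb
    have h2 : L.toG.dP.f q (L.toG.Om.dP.f q (v'.f q x)).1 = 0 := (L.toG.Om.dP.f q (v'.f q x)).2
    change L.toG.dP.f q (b.f q x + -(L.toG.Om.dP.f q (v'.f q x)).1) = _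
    rw [map_add, map_neg, h2, neg_zero, add_zero, h1]
  let F₁ : LSp.Hom (lin k E.U) L.P := Map.lin (L := L.P) b₁
  have hF₁ : ∀ q (x : E.G q), F₁.f q (ceG k (X := E.U) x) = b₁.f q x := fun q x =>
    ceG_lin (M := L.P) b₁ q x
  -- `dP F₁` vanishes on `R`
  have hd : ∀ q, (L.dP.f q).comp (F₁.f q) =
      ((κ.lin).f q).comp ((linMap k (p.freeAct hp).π).f q) := by
    intro q
    refine ceG_ext fun x => ?_
    change L.dP.f q (F₁.f q (ceG k (X := E.U) x)) =
      (κ.lin).f q ((linMap k (p.freeAct hp).π).f q (ceG k (X := E.U) x))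
    rw [hF₁, ceG_map]
    refine (hb₁d q x).trans ?_
    exact (ceG_lin κ q (p.f q x)).symm
  have hdR : ∀ q w, L.dP.f q (F₁.f q ((ceI k p hp).f q w)) = 0 := by
    intro q w
    have h1 := DFunLike.congr_fun (hd q) ((ceI k p hp).f q w)
    refine h1.trans ?_
    rw [LinearMap.comp_apply, ceI_ker, map_zero]
  let F₂ : LSp.Hom ((p.freeAct hp).R k) (L.dP.kerS.toL) :=
    ⟨fun q => ((F₁.f q).comp ((ceI k p hp).f q)).codRestrict _ (fun w => hdR q w),
      fun i _ _ h w => Subtype.ext ((F₁.comp (ceI k p hp)).map_d i h w),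
      fun i _ _ h w => Subtype.ext ((F₁.comp (ceI k p hp)).map_s i h w)⟩
  obtain ⟨c, hc, -⟩ := ce_key p hp hE F₂ (by
    intro q x w hw
    apply Subtype.ext
    change F₁.f q ((ceI k p hp).f q w) = 0
    rw [hw, hF₁]
    exact hb₁K q x)
  obtain ⟨c', hc'⟩ := ce_extP p hp hE c
  let F₃ : LSp.Hom (lin k E.U) L.P :=
    F₁ + -((L.dP.kerS.incl).comp ((L.dP.kerS.toL).dP.comp c'))
  obtain ⟨β, hβ⟩ := ce_factor p hp F₃ (by
    intro q w
    change F₁.f q ((ceI k p hp).f q w) +
      -((L.dP.kerS.toL).dP.f q (c'.f q ((ceI k p hp).f q w))).1 = 0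
    rw [hc' q w, hc q w]
    exact add_neg_cancel _)
  refine ⟨β, Map.ext2 fun q y => ?_⟩
  obtain ⟨x, rfl⟩ := hp q y
  have h1 : L.dP.f q (F₃.f q (ceG k (X := E.U) x)) = κ.f q (p.f q x) := by
    have h2 : L.dP.f q ((L.dP.kerS.toL).dP.f q (c'.f q (ceG k (X := E.U) x))).1 = 0 :=
      ((L.dP.kerS.toL).dP.f q (c'.f q (ceG k (X := E.U) x))).2
    change L.dP.f q (F₁.f q (ceG k (X := E.U) x) +
      -((L.dP.kerS.toL).dP.f q (c'.f q (ceG k (X := E.U) x))).1) = _
    rw [map_add, map_neg, h2, neg_zero, add_zero, hF₁]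
    exact hb₁d q x
  refine Eq.trans ?_ h1
  exact congrArg (L.dP.f q) (hβ q x)

private theorem ce_P_sbb (hH : H.SBB) : H.P.SBB := by
  obtain ⟨m, hm⟩ := hH
  exact ⟨m - 1, fun q hq x => hm (q + 1) (by omega) x⟩

private theorem ce_F_below {X : PSp} {m : ℤ} (hX : ∀ q, q < m → ∀ x : X.X q, x = X.pt q) :
    X.F.Below m := by
  intro q hq x
  have h1 : (AddMonoidHom.id (FrG (X.X q) (X.pt q))) = 0 := by
    refine FrG.hom_ext fun y => ?_
    rw [hX q hq y, FrG.of_pt, map_zero, map_zero]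
  exact DFunLike.congr_fun h1 x

private theorem ce_cyl_sbb (c : Map G.U H) (hG : G.SBB) (hH : H.SBB) : c.Cyl.SBB := by
  obtain ⟨m, hm⟩ := hG
  obtain ⟨n, hn⟩ := hH
  refine ⟨min m (n - 1), ce_F_below fun q hq x => ?_⟩
  exact Prod.ext (hm q (by omega) x.1) (hn (q + 1) (by omega) x.2)

/-- Looping is injective on classes with linear target: apply `CE.null_of` to `P H → H` and
`b = P θ`. -/
theorem CE.om_inj (hH : H.SBB) (L : LSp k) (θ : Map H.U L.toG) (h : θ.Om.Null) : θ.Null := by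
  refine CE.null_of H.dP H.dP_surj (ce_P_sbb hH) L θ θ.mapP ?_ θ.Om (fun q x => rfl) h
  exact Map.ext2 fun q x => (θ.map_d 0 rfl x).symm

/-- Looping is surjective on classes with linear target: apply `CE.exists_transgression` to
`P H → H`; then `P κ` and `b` are two nullhomotopies of `κ dP`, which differ by a map
`P H → Ω L`, nullhomotopic as `P H` is acyclic. -/
theorem CE.om_surj (hH : H.SBB) (L : LSp k) (u : Map H.Om.U L.toG.Om) :
    ∃ θ : Map H.U L.toG, HC.mk θ.Om = HC.mk u := by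
  obtain ⟨κ, b, hb, hu⟩ := CE.exists_transgression H.dP H.dP_surj (ce_P_sbb hH) L u
  refine ⟨κ, ?_⟩
  have hd : ∀ q (x : H.P.G q), L.toG.dP.f q ((κ.mapP + -b).f q x) = 0 := by
    intro q x
    rw [Map.add_f, Map.neg_f]
    have h1 : L.toG.dP.f q (b.f q x) = κ.f q (H.dP.f q x) :=
      congrArg (fun m : Map H.P.U L.toG => m.f q x) hb
    have h2 : L.toG.dP.f q (κ.mapP.f q x) = κ.f q (H.dP.f q x) := (κ.map_d 0 rfl x).symm
    rw [map_add, map_neg, h1, h2]
    exact add_neg_cancel _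
  let w : Map H.P.U L.toG.Om :=
    ⟨fun q x => ⟨(κ.mapP + -b).f q x, hd q x⟩,
      fun q => Subtype.ext ((κ.mapP + -b).map_pt q),
      fun i _ _ h x => Subtype.ext ((κ.mapP + -b).map_d i h x),
      fun i _ _ h x => Subtype.ext ((κ.mapP + -b).map_s i h x)⟩
  have hw : w.Null := Map.null_of_acyclic_source H.P_acyclic w
  rw [HC.mk_eq]
  refine (congrArg Map.Null (Map.ext2 fun q x => ?_)).mp (hw.pre (Map.ofHom (kerIncl H.dP)).toHom)
  apply Subtype.ext
  exact congrArg (fun z : L.toG.G (q + 1) => κ.f (q + 1) x.1 + -z) (hu q x)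

/-- **Exactness at `G` of `Fib c → G → H`**: a class on `G` with linear target which vanishes on
`Fib c` comes from `H`.  PROOF: replace `c` by the surjective homomorphism `cylP : Cyl c → H`
(kernel `K`, `SBB`), `pr : Cyl c → G × P H → G`, `pr ∘ cylI = id`, `c ∘ pr ≃ cylP`.  The restriction
of `pr` to `K` lifts to `Fib c` since `c ∘ pr ≃ 0` on `K`.  Hence `a ∘ pr` is null on `K`, so
`a ∘ pr ≃ θ ∘ cylP` by `CE.exact_E`; compose with `cylI`. -/
theorem CE.exact_G (c : Map G.U H) (hG : G.SBB) (hH : H.SBB) (L : LSp k) (a : Map G.U L.toG)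
    (ha : (Map.comp a (Map.ofHom c.fibP)).Null) :
    ∃ θ : Map H.U L.toG, HC.mk (Map.comp θ c) = HC.mk a := by
  -- the projection of the cylinder
  let pr : Hom c.Cyl G := (fst G H.P).comp (G.prod H.P).eps
  have hpr : Map.comp (Map.ofHom pr) c.cylI = Map.id G := by
    refine Map.ext2 fun q x => ?_
    have h3 : (G.prod H.P).eps.f q (FrG.of ((G.prod H.P).U.pt q) (x, (0 : H.P.G q))) =
        (x, (0 : H.P.G q)) := (Map.id (G.prod H.P)).ext'_of q (x, (0 : H.P.G q))
    exact congrArg Prod.fst h3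
  have h1 : HC.mk (Map.comp c (Map.ofHom pr)) = HC.mk (Map.ofHom c.cylP) := by
    apply (c.cylI_we.pre_bijective (K := H)).1
    rw [HC.pre_mk, HC.pre_mk]
    have h2 : Map.pre c.cylI.toHom (Map.comp c (Map.ofHom pr)) = c :=
      congrArg (fun z => Map.comp c z) hpr
    have h3 : Map.pre c.cylI.toHom (Map.ofHom c.cylP) = c := c.cylP_cylI
    rw [h2, h3]
  -- the restriction of `pr` to the kernel lifts to the fibre
  have h4 : (Map.comp c (Map.comp (Map.ofHom pr) (Map.ofHom (kerIncl c.cylP)))).Null := by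
    have h5 := congrArg (HC.pre (Map.ofHom (kerIncl c.cylP)).toHom) h1
    rw [HC.pre_mk, HC.pre_mk] at h5
    rw [← HC.mk_eq_zero]
    refine Eq.trans h5 ?_
    have h6 : Map.pre (Map.ofHom (kerIncl c.cylP)).toHom (Map.ofHom c.cylP) = 0 :=
      Map.ext2 fun q x => x.2
    rw [h6, map_zero]
  obtain ⟨a', ha'⟩ := c.exists_fib_lift _ h4
  have h7 : (Map.comp (Map.comp a (Map.ofHom pr)) (Map.ofHom (kerIncl c.cylP))).Null := by
    have h8 := ha.comp_left a'
    refine (congrArg Map.Null ?_).mp h8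
    exact congrArg (fun z => Map.comp a z) ha'
  obtain ⟨θ, hθ⟩ := CE.exact_E c.cylP c.cylP_surj (ce_cyl_sbb c hG hH) L
    (Map.comp a (Map.ofHom pr)) h7
  refine ⟨θ, ?_⟩
  have h9 := congrArg (HC.pre c.cylI.toHom) hθ
  rw [HC.pre_mk, HC.pre_mk] at h9
  have h10 : Map.pre c.cylI.toHom (Map.comp θ (Map.ofHom c.cylP)) = Map.comp θ c :=
    congrArg (fun z => Map.comp θ z) c.cylP_cylI
  have h11 : Map.pre c.cylI.toHom (Map.comp a (Map.ofHom pr)) = a :=
    congrArg (fun z => Map.comp a z) hpr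
  rw [h10, h11] at h9
  exact h9

/-- Fibres of strictly bounded below group spectra are strictly bounded below. -/
theorem CE.fib_sbb (c : Map G.U H) (hG : G.SBB) (hH : H.SBB) : c.Fib.SBB := by
  obtain ⟨m, hm⟩ := hG
  obtain ⟨n, hn⟩ := hH
  refine ⟨min m (n - 1), fun q hq x => ?_⟩
  apply Subtype.ext
  refine Prod.ext ?_ ?_
  · exact ce_F_below (X := G.U) (fun q hq x => hm q hq x) q (by omega) x.1.1
  · exact hn (q + 1) (by omega) x.1.2

/-- **Exactness at `Fib c` of `Ω H → Fib c → G`** for linear targets.  PROOF: `CE.exact_E` for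
`fibP`, whose kernel is weakly equivalent to `Ω H` by `omKer_we`. -/
theorem CE.exact_Fib (c : Map G.U H) (hG : G.SBB) (hH : H.SBB) (L : LSp k)
    (a : Map c.Fib.U L.toG) (ha : (Map.comp a (Map.ofHom c.fibI)).Null) :
    ∃ θ : Map G.U L.toG, HC.mk (Map.comp θ (Map.ofHom c.fibP)) = HC.mk a := by
  refine CE.exact_E c.fibP c.fibP_surj (CE.fib_sbb c hG hH) L a ?_
  rw [← HC.mk_eq_zero]
  apply (c.omKer_we.pre_bijective (K := L.toG)).1
  rw [HC.pre_mk, map_zero, HC.mk_eq_zero]
  exact ha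

theorem CE.om_sbb (hG : G.SBB) : G.Om.SBB := by
  obtain ⟨m, hm⟩ := hG
  exact ⟨m - 1, fun q hq x => Subtype.ext (hm (q + 1) (by omega) x.1)⟩

end BPN
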