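import Pool.Agent.BPN.L.Bar

/-!
# Free actions and linearisation (project BPN, module L/FExt)
-/

namespace BPN

open GSp Classical

/-- The monoid spectrum as a pointed-set spectrum. -/
@[reducible] def MSp.U (M : MSp) : PSp where
  X := M.G
  pt := fun _ => 0
  d := fun i _ _ h x => M.d i h x
  s := fun i _ _ h x => M.s i h x
  d_pt := fun _ _ _ _ => map_zero _
  s_pt := fun _ _ _ _ => map_zero _
  dd := M.dd
  ds_lt := M.ds_lt
  ds_eq := M.ds_eq
  ds_succ := M.ds_succ
  ds_gt := M.ds_gt
  ss := M.ss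
  fin := M.fin

/-! ### an interface for quotients and linearisations -/

section API

variable {k : Type} [Field k]

private theorem proj_surj {L : LSp k} (S : LSp.Sub L) (q : ℤ) :
    Function.Surjective (S.proj.f q) := Submodule.mkQ_surjective (S.S q)

private theorem proj_eq_zero {L : LSp k} (S : LSp.Sub L) (q : ℤ) (x : L.V q) :
    S.proj.f q x = 0 ↔ x ∈ S.S q := Submodule.Quotient.mk_eq_zero (S.S q)

private def qlift {L : LSp k} (S : LSp.Sub L) (q : ℤ) {V : Type} [AddCommGroup V] [Module k V]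
    (f : L.V q →ₗ[k] V) (hf : ∀ x ∈ S.S q, f x = 0) : S.quot.V q →ₗ[k] V :=
  (S.S q).liftQ f hf

private theorem qlift_proj {L : LSp k} (S : LSp.Sub L) (q : ℤ) {V : Type} [AddCommGroup V]
    [Module k V] (f : L.V q →ₗ[k] V) (hf : ∀ x ∈ S.S q, f x = 0) (x : L.V q) :
    qlift S q f hf (S.proj.f q x) = f x := rfl

private theorem q_ext {L : LSp k} (S : LSp.Sub L) (q : ℤ) {V : Type} [AddCommGroup V]
    [Module k V] {f g : S.quot.V q →ₗ[k] V} (h : ∀ x, f (S.proj.f q x) = g (S.proj.f q x)) :
    f = g := Submodule.linearMap_qext (S.S q) (LinearMap.ext h)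

/-- generators of `lin X` -/
private noncomputable def gen (k : Type) [Field k] (X : PSp) (q : ℤ) (x : X.X q) :
    (lin k X).V q := Fr.of k (X.pt q) x

private theorem gen_pt (X : PSp) (q : ℤ) : gen k X q (X.pt q) = 0 := Fr.of_pt

private noncomputable def glift (X : PSp) (q : ℤ) {V : Type} [AddCommGroup V] [Module k V]
    (f : X.X q → V) : (lin k X).V q →ₗ[k] V := (Fr.lift f : Fr k (X.X q) (X.pt q) →ₗ[k] V)

private theorem glift_gen (X : PSp) (q : ℤ) {V : Type} [AddCommGroup V] [Module k V]
    (f : X.X q → V) (hf : f (X.pt q) = 0) (x : X.X q) : glift X q f (gen k X q x) = f x :=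
  Fr.lift_of f hf x

private theorem g_ext (X : PSp) (q : ℤ) {V : Type} [AddCommGroup V] [Module k V]
    {f g : (lin k X).V q →ₗ[k] V} (h : ∀ x, f (gen k X q x) = g (gen k X q x)) : f = g :=
  Fr.hom_ext h

private theorem d_gen (X : PSp) (i : ℕ) {q r : ℤ} (h : q + 1 = r) (x : X.X r) :
    (lin k X).d i h (gen k X r x) = gen k X q (X.d i h x) := Fr.map_of _ (X.d_pt i h) x

private theorem s_gen (X : PSp) (i : ℕ) {q r : ℤ} (h : q + 1 = r) (x : X.X q) :
    (lin k X).s i h (gen k X q x) = gen k X r (X.s i h x) := Fr.map_of _ (X.s_pt i h) x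

private theorem linMap_gen {X Y : PSp} (φ : PSp.Hom X Y) (q : ℤ) (x : X.X q) :
    (linMap k φ).f q (gen k X q x) = gen k Y q (φ.f q x) := linMap_of k φ q x

private theorem kerS_mem {L K : LSp k} (f : LSp.Hom L K) (q : ℤ) (z : L.V q)
    (h : f.f q z = 0) : ∃ x : f.kerS.toL.V q, f.kerS.incl.f q x = z := ⟨⟨z, h⟩, rfl⟩

private theorem kerS_incl {L K : LSp k} (f : LSp.Hom L K) (q : ℤ) (x : f.kerS.toL.V q) :
    f.f q (f.kerS.incl.f q x) = 0 := x.2

private theorem incl_mem {L : LSp k} (S : LSp.Sub L) (q : ℤ) (x : S.toL.V q) :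
    S.incl.f q x ∈ S.S q := x.2

private theorem incl_surj {L : LSp k} (S : LSp.Sub L) (q : ℤ) (x : L.V q) (h : x ∈ S.S q) :
    ∃ y : S.toL.V q, S.incl.f q y = x := ⟨⟨x, h⟩, rfl⟩

private theorem incl_inj {L : LSp k} (S : LSp.Sub L) (q : ℤ) :
    Function.Injective (S.incl.f q) := Subtype.val_injective

/-- Acyclicity of a sub-object of `K` passes to an `L` mapping isomorphically onto it. -/
private theorem acyclic_of_iso {L K : LSp k} (S : LSp.Sub K) (f : LSp.Hom L K)
    (hinj : ∀ q, Function.Injective (f.f q)) (hr : ∀ q w, w ∈ S.S q ↔ ∃ v, f.f q v = w)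
    (hS : (S.toL).toG.Acyclic) : L.toG.Acyclic := by
  intro q x hx
  obtain ⟨x', hx'⟩ := incl_surj S q (f.f q x) ((hr q _).2 ⟨x, rfl⟩)
  have hZ : x' ∈ (S.toL).toG.Z q := by
    intro i r h
    apply incl_inj S r
    have h1 : S.incl.f r (S.toL.d i h x') = K.d i h (S.incl.f q x') := S.incl.map_d i h x'
    have h2 : L.d i h x = 0 := hx i h
    have h3 : K.d i h (f.f q x) = 0 := by rw [← f.map_d, h2, map_zero]
    rw [hx', h3] at h1
    exact h1.trans (map_zero (S.incl.f r)).symm
  obtain ⟨y, hyN, hy⟩ := hS q x' hZ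
  obtain ⟨v, hv⟩ := (hr (q + 1) _).1 (incl_mem S (q + 1) y)
  refine ⟨v, ?_, ?_⟩
  · intro i r h
    apply hinj r
    have h1 : S.toL.d (i + 1) h y = 0 := hyN i h
    have h2 : K.d (i + 1) h (S.incl.f (q + 1) y) = 0 := by
      rw [← S.incl.map_d, h1, map_zero]
    have h3 : f.f r (L.d (i + 1) h v) = 0 := by rw [f.map_d, hv, h2]
    exact h3.trans (map_zero (f.f r)).symm
  · apply hinj q
    have h1 : S.toL.d 0 rfl y = x' := hy
    have h2 : K.d 0 rfl (S.incl.f (q + 1) y) = f.f q x := by
      rw [← S.incl.map_d, h1, hx']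
    have h3 : f.f q (L.d 0 rfl v) = f.f q x := by rw [f.map_d, hv, h2]
    exact h3

end API

/-- A levelwise free right action of a monoid spectrum `M` on a pointed-set spectrum `X` with orbit
projection `π : X → Y`.  The base point need not be fixed by `M`.  `t` is a levelwise section of `π`
(no compatibility with faces) such that every `x` is `t (π x) · m` for a unique `m`. -/
structure FreeAct (M : MSp) (X Y : PSp) where
  act : ∀ q, X.X q → M.G q → X.X q
  act_zero : ∀ q x, act q x 0 = x
  act_add : ∀ q x m m', act q x (m + m') = act q (act q x m) m'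
  act_d : ∀ (i : ℕ) {q r : ℤ} (h : q + 1 = r) x m,
    X.d i h (act r x m) = act q (X.d i h x) (M.d i h m)
  act_s : ∀ (i : ℕ) {q r : ℤ} (h : q + 1 = r) x m,
    X.s i h (act q x m) = act r (X.s i h x) (M.s i h m)
  π : PSp.Hom X Y
  π_act : ∀ q x m, π.f q (act q x m) = π.f q x
  t : ∀ q, Y.X q → X.X q
  t_pt : ∀ q, t q (Y.pt q) = X.pt q
  π_t : ∀ q y, π.f q (t q y) = y
  free : ∀ q x, ∃! m, act q (t q (π.f q x)) m = x

namespace FreeAct

variable {M : MSp} {X Y : PSp} (A : FreeAct M X Y)

/-- The orbit map of the base point. -/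
def orb : PSp.Hom M.U X where
  f := fun q m => A.act q (X.pt q) m
  map_pt := fun q => A.act_zero q _
  map_d := fun i q r h m => by
    rw [A.act_d, X.d_pt]
  map_s := fun i q r h m => by
    rw [A.act_s, X.s_pt]

/-- The kernel of `lin X → lin Y`. -/
noncomputable def R (k : Type) [Field k] : LSp k := (linMap k A.π).kerS.toL

/-- The image of `lin M` in the kernel. -/
noncomputable def R₀ (k : Type) [Field k] : LSp.Sub (A.R k) where
  S := fun q => (LinearMap.range ((linMap k A.orb).f q)).comap
    (LinearMap.ker ((linMap k A.π).f q)).subtype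
  d_mem := fun i {q r} h x hx => by
    obtain ⟨y, hy⟩ := hx
    exact ⟨(lin k M.U).d i h y, by rw [(linMap k A.orb).map_d, hy]; rfl⟩
  s_mem := fun i {q r} h x hx => by
    obtain ⟨y, hy⟩ := hx
    exact ⟨(lin k M.U).s i h y, by rw [(linMap k A.orb).map_s, hy]; rfl⟩

/-- The unique `m` with `t (π x) · m = x`. -/
noncomputable def co (q : ℤ) (x : X.X q) : M.G q := (A.free q x).choose

theorem co_spec (q : ℤ) (x : X.X q) : A.act q (A.t q (A.π.f q x)) (A.co q x) = x :=
  (A.free q x).choose_spec.1

theorem co_unique (q : ℤ) (x : X.X q) (m : M.G q) (h : A.act q (A.t q (A.π.f q x)) m = x) :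
    m = A.co q x := (A.free q x).choose_spec.2 m h

theorem co_act (q : ℤ) (x : X.X q) (m : M.G q) : A.co q (A.act q x m) = A.co q x + m := by
  symm
  apply A.co_unique
  rw [A.π_act, A.act_add, A.co_spec]

theorem pt_act (q : ℤ) (m : M.G q) : A.π.f q (A.act q (X.pt q) m) = Y.pt q := by
  rw [A.π_act, A.π.map_pt]

theorem co_pt_act (q : ℤ) (m : M.G q) : A.co q (A.act q (X.pt q) m) = m := by
  symm
  apply A.co_unique
  rw [A.pt_act, A.t_pt]

theorem co_pt (q : ℤ) : A.co q (X.pt q) = 0 := by
  have h2 := A.co_pt_act q 0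
  rwa [A.act_zero] at h2

private theorem orb_gen (k : Type) [Field k] (q : ℤ) (m : M.G q) :
    (linMap k A.orb).f q (gen k M.U q m) = gen k X q (A.act q (X.pt q) m) :=
  linMap_gen A.orb q m

/-- The map `lin M → lin X` is injective. -/
theorem orb_inj (k : Type) [Field k] (q : ℤ) :
    Function.Injective ((linMap k A.orb).f q) := by
  let g : X.X q → (lin k M.U).V q := fun x =>
    if A.π.f q x = Y.pt q then gen k M.U q (A.co q x) else 0
  have hg : g (X.pt q) = 0 := by
    simp only [g]
    rw [if_pos (A.π.map_pt q), A.co_pt]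
    exact gen_pt M.U q
  have hcomp : (glift X q g).comp ((linMap k A.orb).f q) = LinearMap.id := by
    refine g_ext M.U q fun m => ?_
    rw [LinearMap.comp_apply, LinearMap.id_apply, A.orb_gen, glift_gen X q g hg]
    simp only [g]
    rw [if_pos (A.pt_act q m), A.co_pt_act]
  intro a b hab
  have h1 := DFunLike.congr_fun hcomp a
  have h2 := DFunLike.congr_fun hcomp b
  rw [LinearMap.comp_apply, LinearMap.id_apply] at h1 h2
  rw [← h1, ← h2, hab]

/-- The span of the orbit of the base point. -/
noncomputable def Orb (k : Type) [Field k] : LSp.Sub (lin k X) where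
  S := fun q => LinearMap.range ((linMap k A.orb).f q)
  d_mem := fun i {q r} h x hx => by
    obtain ⟨y, rfl⟩ := hx
    exact ⟨(lin k M.U).d i h y, by rw [(linMap k A.orb).map_d]⟩
  s_mem := fun i {q r} h x hx => by
    obtain ⟨y, rfl⟩ := hx
    exact ⟨(lin k M.U).s i h y, by rw [(linMap k A.orb).map_s]⟩

/-- The class of a generator in `lin X / Orb`. -/
private noncomputable def cl (k : Type) [Field k] (q : ℤ) (x : X.X q) : (A.Orb k).quot.V q :=
  (A.Orb k).proj.f q (gen k X q x)

private theorem cl_pt_act (k : Type) [Field k] (q : ℤ) (m : M.G q) :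
    A.cl k q (A.act q (X.pt q) m) = 0 := by
  rw [cl, proj_eq_zero]
  exact ⟨gen k M.U q m, A.orb_gen k q m⟩

private theorem cl_pt (k : Type) [Field k] (q : ℤ) : A.cl k q (X.pt q) = 0 := by
  have h := A.cl_pt_act k q 0
  rwa [A.act_zero] at h

/-- Maps out of the quotient. -/
private noncomputable def clift (k : Type) [Field k] {V : Type} [AddCommGroup V] [Module k V]
    (q : ℤ) (f : X.X q → V) (hf : ∀ m, f (A.act q (X.pt q) m) = 0) :
    (A.Orb k).quot.V q →ₗ[k] V :=
  qlift (A.Orb k) q (glift X q f) (by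
    rintro _ ⟨y, rfl⟩
    have h0 : f (X.pt q) = 0 := by
      have h := hf 0
      rwa [A.act_zero] at h
    have hcomp : (glift X q f).comp ((linMap k A.orb).f q) = 0 := by
      refine g_ext M.U q fun m => ?_
      rw [LinearMap.comp_apply, LinearMap.zero_apply, A.orb_gen, glift_gen X q f h0, hf]
    exact DFunLike.congr_fun hcomp y)

private theorem clift_cl (k : Type) [Field k] {V : Type} [AddCommGroup V] [Module k V] (q : ℤ)
    (f : X.X q → V) (hf : ∀ m, f (A.act q (X.pt q) m) = 0) (x : X.X q) :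
    A.clift k q f hf (A.cl k q x) = f x := by
  have h0 : f (X.pt q) = 0 := by
    have h := hf 0
    rwa [A.act_zero] at h
  rw [cl, clift, qlift_proj, glift_gen X q f h0]

/-- Extensionality for maps out of the quotient. -/
private theorem c_ext (k : Type) [Field k] {V : Type} [AddCommGroup V] [Module k V] (q : ℤ)
    {f g : (A.Orb k).quot.V q →ₗ[k] V} (h : ∀ x, f (A.cl k q x) = g (A.cl k q x)) : f = g := by
  refine q_ext (A.Orb k) q ?_
  have h1 : f.comp ((A.Orb k).proj.f q) = g.comp ((A.Orb k).proj.f q) := g_ext X q h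
  exact fun x => DFunLike.congr_fun h1 x

/-- The action on the quotient. -/
private noncomputable def qact (k : Type) [Field k] (q : ℤ) (m : M.G q) :
    (A.Orb k).quot.V q →ₗ[k] (A.Orb k).quot.V q :=
  A.clift k q (fun x => A.cl k q (A.act q x m)) (fun m' => by
    rw [← A.act_add]; exact A.cl_pt_act k q _)

private theorem qact_cl (k : Type) [Field k] (q : ℤ) (m : M.G q) (x : X.X q) :
    A.qact k q m (A.cl k q x) = A.cl k q (A.act q x m) := A.clift_cl k q _ _ x

private theorem d_cl (k : Type) [Field k] (i : ℕ) {q r : ℤ} (h : q + 1 = r) (x : X.X r) :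
    (A.Orb k).quot.d i h (A.cl k r x) = A.cl k q (X.d i h x) := by
  rw [cl, cl, ← (A.Orb k).proj.map_d, d_gen]

private theorem s_cl (k : Type) [Field k] (i : ℕ) {q r : ℤ} (h : q + 1 = r) (x : X.X q) :
    (A.Orb k).quot.s i h (A.cl k q x) = A.cl k r (X.s i h x) := by
  rw [cl, cl, ← (A.Orb k).proj.map_s, s_gen]

/-- `lin X / Orb` as a module spectrum over `M`. -/
private noncomputable def W (k : Type) [Field k] : LMod k M where
  toLSp := (A.Orb k).quot
  act := A.qact k
  act_zero := fun q w => by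
    refine DFunLike.congr_fun (g := LinearMap.id) (A.c_ext k q fun x => ?_) w
    rw [A.qact_cl, A.act_zero, LinearMap.id_apply]
  act_add := fun q m m' w => by
    refine DFunLike.congr_fun (g := (A.qact k q m').comp (A.qact k q m))
      (A.c_ext k q fun x => ?_) w
    rw [LinearMap.comp_apply, A.qact_cl, A.qact_cl, A.qact_cl, A.act_add]
  act_d := fun i q r h m w => by
    refine DFunLike.congr_fun (f := ((A.Orb k).quot.d i h).comp (A.qact k r m))
      (g := (A.qact k q (M.d i h m)).comp ((A.Orb k).quot.d i h)) (A.c_ext k r fun x => ?_) w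
    rw [LinearMap.comp_apply, LinearMap.comp_apply, A.qact_cl, A.d_cl, A.d_cl, A.qact_cl, A.act_d]
  act_s := fun i q r h m w => by
    refine DFunLike.congr_fun (f := ((A.Orb k).quot.s i h).comp (A.qact k q m))
      (g := (A.qact k r (M.s i h m)).comp ((A.Orb k).quot.s i h)) (A.c_ext k q fun x => ?_) w
    rw [LinearMap.comp_apply, LinearMap.comp_apply, A.qact_cl, A.s_cl, A.s_cl, A.qact_cl, A.act_s]

private theorem sig_wd (k : Type) [Field k] (q : ℤ) (m : M.G q) :
    Finsupp.single (A.co q (A.act q (X.pt q) m))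
      (A.cl k q (A.t q (A.π.f q (A.act q (X.pt q) m)))) = 0 := by
  rw [A.pt_act, A.t_pt, A.cl_pt, Finsupp.single_zero]

private noncomputable def sig (k : Type) [Field k] (q : ℤ) :
    (A.Orb k).quot.V q →ₗ[k] (M.G q →₀ (A.Orb k).quot.V q) :=
  A.clift k q (fun x => Finsupp.single (A.co q x) (A.cl k q (A.t q (A.π.f q x))))
    (A.sig_wd k q)

private theorem sig_cl (k : Type) [Field k] (q : ℤ) (x : X.X q) :
    A.sig k q (A.cl k q x) = Finsupp.single (A.co q x) (A.cl k q (A.t q (A.π.f q x))) :=
  A.clift_cl k q _ _ x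

private theorem W_proj (k : Type) [Field k] : (A.W k).Proj := by
  intro q
  refine ⟨A.sig k q, fun w => ?_, fun m w => ?_⟩
  · have h1 : (Finsupp.lsum k (fun m => A.qact k q m)).comp (A.sig k q) = LinearMap.id := by
      refine A.c_ext k q fun x => ?_
      rw [LinearMap.comp_apply, A.sig_cl, Finsupp.lsum_single, A.qact_cl, A.co_spec,
        LinearMap.id_apply]
    exact DFunLike.congr_fun h1 w
  · have h1 : (A.sig k q).comp (A.qact k q m) =
        (Finsupp.lmapDomain _ k (fun m' => m' + m)).comp (A.sig k q) := by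
      refine A.c_ext k q fun x => ?_
      rw [LinearMap.comp_apply, LinearMap.comp_apply, A.qact_cl, A.sig_cl, A.sig_cl,
        A.π_act, A.co_act, Finsupp.lmapDomain_apply, Finsupp.mapDomain_single]
    exact DFunLike.congr_fun h1 w

/-- The map `R / R₀ → lin X / Orb`. -/
private noncomputable def Psi (k : Type) [Field k] : LSp.Hom (A.R₀ k).quot (A.Orb k).quot :=
  (A.R₀ k).desc
    (LSp.Hom.comp (A.Orb k).proj (LSp.Sub.incl (linMap k A.π).kerS)) (fun q _ hx =>
      (proj_eq_zero (A.Orb k) q _).2 hx)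

private theorem Psi_proj (k : Type) [Field k] (q : ℤ) (x : (A.R k).V q) :
    (A.Psi k).f q ((A.R₀ k).proj.f q x) =
      (A.Orb k).proj.f q ((linMap k A.π).kerS.incl.f q x) := rfl

private theorem Psi_inj (k : Type) [Field k] (q : ℤ) : Function.Injective ((A.Psi k).f q) := by
  rw [← LinearMap.ker_eq_bot, LinearMap.ker_eq_bot']
  intro w hw
  obtain ⟨x, rfl⟩ := proj_surj (A.R₀ k) q w
  rw [A.Psi_proj, proj_eq_zero] at hw
  exact (proj_eq_zero (A.R₀ k) q x).2 hw

/-- `W · I` as a subspace of `lin X / Orb`. -/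
private noncomputable def IS (k : Type) [Field k] (q : ℤ) : Submodule k ((A.Orb k).quot.V q) :=
  (A.W k).I.S q

private theorem IS_mem (k : Type) [Field k] (q : ℤ) (m : M.G q) (w : (A.Orb k).quot.V q) :
    A.qact k q m w - w ∈ A.IS k q := by
  have h : ∀ w : (A.W k).V q, (A.W k).act q m w - w ∈ (A.W k).I.S q := fun w =>
    Submodule.subset_span ⟨m, w, rfl⟩
  exact h w

private theorem IS_le (k : Type) [Field k] (q : ℤ) (S : Submodule k ((A.Orb k).quot.V q))
    (h : ∀ m w, A.qact k q m w - w ∈ S) : A.IS k q ≤ S := by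
  intro x hx
  have hx' : x ∈ (A.W k).I.S q := hx
  refine Submodule.span_induction (p := fun x _ => x ∈ S) ?_ ?_ ?_ ?_ hx'
  · rintro _ ⟨m, w, rfl⟩
    exact h m w
  · exact S.zero_mem
  · exact fun _ _ _ _ h1 h2 => S.add_mem h1 h2
  · exact fun a _ _ h1 => S.smul_mem a h1

/-- `[z] - [t (π z)]` is in `W · I`. -/
private theorem sub_mem' (k : Type) [Field k] (q : ℤ) (z : (lin k X).V q) :
    (A.Orb k).proj.f q z - glift Y q (fun y => A.cl k q (A.t q y)) ((linMap k A.π).f q z) ∈
      A.IS k q := by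
  have h0 : A.cl k q (A.t q (Y.pt q)) = 0 := by rw [A.t_pt, A.cl_pt]
  have h1 : ((A.IS k q).mkQ).comp ((A.Orb k).proj.f q -
      (glift Y q (fun y => A.cl k q (A.t q y))).comp ((linMap k A.π).f q)) = 0 := by
    refine g_ext X q fun x => ?_
    rw [LinearMap.comp_apply, LinearMap.zero_apply, LinearMap.sub_apply, LinearMap.comp_apply,
      linMap_gen, glift_gen Y q _ h0]
    have h2 : (A.Orb k).proj.f q (gen k X q x) - A.cl k q (A.t q (A.π.f q x)) =
        A.qact k q (A.co q x) (A.cl k q (A.t q (A.π.f q x))) - A.cl k q (A.t q (A.π.f q x)) := by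
      rw [A.qact_cl, A.co_spec]
      rfl
    rw [h2]
    exact (Submodule.Quotient.mk_eq_zero _).2 (A.IS_mem k q _ _)
  exact (Submodule.Quotient.mk_eq_zero _).1 (DFunLike.congr_fun h1 z)

private theorem Psi_range (k : Type) [Field k] (q : ℤ) (w : (A.Orb k).quot.V q) :
    w ∈ A.IS k q ↔ ∃ v, (A.Psi k).f q v = w := by
  constructor
  · have hmem : ∀ (m : M.G q) (w : (A.Orb k).quot.V q),
        A.qact k q m w - w ∈ LinearMap.range ((A.Psi k).f q) := by
      intro m w
      have h1 : ((LinearMap.range ((A.Psi k).f q)).mkQ).comp (A.qact k q m - LinearMap.id) = 0 := by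
        refine A.c_ext k q fun x => ?_
        rw [LinearMap.comp_apply, LinearMap.zero_apply, LinearMap.sub_apply, LinearMap.id_apply,
          A.qact_cl]
        obtain ⟨y, hy⟩ := kerS_mem (linMap k A.π) q
          (gen k X q (A.act q x m) - gen k X q x) (by
            rw [map_sub, linMap_gen, linMap_gen, A.π_act, sub_self])
        have h2 : (A.Psi k).f q ((A.R₀ k).proj.f q y) =
            A.cl k q (A.act q x m) - A.cl k q x := by
          rw [A.Psi_proj, hy, map_sub]
          rfl
        exact (Submodule.Quotient.mk_eq_zero _).2 ⟨_, h2⟩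
      exact (Submodule.Quotient.mk_eq_zero _).1 (DFunLike.congr_fun h1 w)
    have hle : A.IS k q ≤ LinearMap.range ((A.Psi k).f q) := A.IS_le k q _ hmem
    exact fun hw => hle hw
  · rintro ⟨v, rfl⟩
    obtain ⟨x, rfl⟩ := proj_surj (A.R₀ k) q v
    have h1 := A.sub_mem' k q ((linMap k A.π).kerS.incl.f q x)
    rw [kerS_incl, map_zero, sub_zero] at h1
    exact h1

/-- **Key result**: `ker (lin X → lin Y) / lin M` is acyclic.
PROOF.  Let `W = lin X / lin (orbit of pt)`, i.e. the reduced free vector space on `X` with the orbit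
of the base point collapsed; `M` acts on it by `[x] · m = [x · m]` (`x` not in the orbit).
`W` is levelwise projective: `σ [x] = single m [t (π x)]` with the unique `m` of `free`.
`(R k) / R₀ ≅ W · I`: `ker (lin X → lin Y)` is spanned by the differences `[x · m] - [x]`.
Apply `LMod.bar_acyclic`. -/
theorem quot_acyclic (k : Type) [Field k] (hX : ∃ b : ℤ, ∀ q, q < b → ∀ x : X.X q, x = X.pt q) :
    ((A.R₀ k).quot).toG.Acyclic := by
  have hSBB : (A.W k).toLSp.toG.SBB := by
    obtain ⟨b, hb⟩ := hX
    refine ⟨b, fun q hq w => ?_⟩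
    obtain ⟨z, hz⟩ := proj_surj (A.Orb k) q w
    have h1 : ∀ z : Fr k (X.X q) (X.pt q), z = 0 := by
      intro z
      ext ⟨x, hx⟩
      exact absurd (hb q hq x) hx
    have h2 : z = 0 := h1 z
    rw [h2, map_zero] at hz
    exact hz.symm
  exact acyclic_of_iso (A.W k).I (A.Psi k) (A.Psi_inj k) (A.Psi_range k)
    (LMod.bar_acyclic (A.W k) hSBB (A.W_proj k))

end FreeAct

/-- The free action of the kernel on the source of a surjective homomorphism. -/
noncomputable def GSp.Hom.freeAct {E G : GSp} (p : GSp.Hom E G) (hp : p.Surj) :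
    FreeAct (GSp.ker p).toM E.U G.U where
  act := fun q x m => x + m.1
  act_zero := fun q x => add_zero x
  act_add := fun q x m m' => (add_assoc x m.1 m'.1).symm
  act_d := fun i q r h x m => map_add (E.d i h) x m.1
  act_s := fun i q r h x m => map_add (E.s i h) x m.1
  π := (Map.ofHom p).toHom
  π_act := fun q x m => by
    change p.f q (x + m.1) = p.f q x
    rw [map_add, m.2, add_zero]
  t := fun q y => if y = 0 then 0 else (hp q y).choose
  t_pt := fun q => if_pos rfl
  π_t := fun q y => by
    change p.f q (if y = 0 then 0 else (hp q y).choose) = y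
    split_ifs with h
    · rw [map_zero, h]
    · exact (hp q y).choose_spec
  free := fun q x => by
    have hsec : p.f q (if p.f q x = 0 then 0 else (hp q (p.f q x)).choose) = p.f q x := by
      split_ifs with h
      · rw [map_zero, h]
      · exact (hp q (p.f q x)).choose_spec
    refine ⟨⟨-(if p.f q x = 0 then 0 else (hp q (p.f q x)).choose) + x, ?_⟩, ?_, ?_⟩
    · change p.f q (-(if p.f q x = 0 then 0 else (hp q (p.f q x)).choose) + x) = 0
      rw [map_add, map_neg, hsec, neg_add_cancel]
    · change (if p.f q x = 0 then 0 else (hp q (p.f q x)).choose) +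
        (-(if p.f q x = 0 then 0 else (hp q (p.f q x)).choose) + x) = x
      rw [add_neg_cancel_left]
    · rintro ⟨m, hm⟩ h
      have h' : (if p.f q x = 0 then 0 else (hp q (p.f q x)).choose) + m = x := h
      apply Subtype.ext
      change m = -(if p.f q x = 0 then 0 else (hp q (p.f q x)).choose) + x
      calc m = -(if p.f q x = 0 then 0 else (hp q (p.f q x)).choose) +
          ((if p.f q x = 0 then 0 else (hp q (p.f q x)).choose) + m) :=
            (neg_add_cancel_left _ _).symm
        _ = _ := by rw [h']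

end BPN
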