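import Pool.Agent.BPN.S.Conn

/-!
# Linear spectra (project BPN, module L/LSp)

`LSp k` : levelwise `k`-linear group spectra, `k` a field.  Sub-objects, quotients, kernels, path
spectra, the Dold-Kan decomposition and the linear lifting theorem.
-/

namespace BPN

open GSp

/-- Linear spectra. -/
structure LSp (k : Type) [Field k] where
  V : ℤ → Type
  [acg : ∀ q, AddCommGroup (V q)]
  [mod : ∀ q, Module k (V q)]
  d : ℕ → ∀ {q r : ℤ}, q + 1 = r → V r →ₗ[k] V q
  s : ℕ → ∀ {q r : ℤ}, q + 1 = r → V q →ₗ[k] V r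
  dd : ∀ {i j : ℕ}, i ≤ j → ∀ {q r t : ℤ} (h₁ : q + 1 = r) (h₂ : r + 1 = t) (x : V t),
      d i h₁ (d (j + 1) h₂ x) = d j h₁ (d i h₂ x)
  ds_lt : ∀ {i j : ℕ}, i ≤ j → ∀ {q r t : ℤ} (h₁ : q + 1 = r) (h₂ : r + 1 = t) (x : V r),
      d i h₂ (s (j + 1) h₂ x) = s j h₁ (d i h₁ x)
  ds_eq : ∀ (i : ℕ) {q r : ℤ} (h : q + 1 = r) (x : V q), d i h (s i h x) = x
  ds_succ : ∀ (i : ℕ) {q r : ℤ} (h : q + 1 = r) (x : V q), d (i + 1) h (s i h x) = x
  ds_gt : ∀ {i j : ℕ}, j < i → ∀ {q r t : ℤ} (h₁ : q + 1 = r) (h₂ : r + 1 = t) (x : V r),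
      d (i + 1) h₂ (s j h₂ x) = s j h₁ (d i h₁ x)
  ss : ∀ {i j : ℕ}, i ≤ j → ∀ {q r t : ℤ} (h₁ : q + 1 = r) (h₂ : r + 1 = t) (x : V q),
      s i h₂ (s j h₁ x) = s (j + 1) h₂ (s i h₁ x)
  fin : ∀ {q r : ℤ} (h : q + 1 = r) (x : V r), ∃ n : ℕ, ∀ i, n ≤ i → d i h x = 0

attribute [instance] LSp.acg LSp.mod

namespace LSp

variable {k : Type} [Field k]

/-- The underlying group spectrum. -/
@[reducible] def toG (L : LSp k) : GSp where
  G := L.V
  grp := fun q => (L.acg q).toAddGroup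
  d := fun i _ _ h => (L.d i h).toAddMonoidHom
  s := fun i _ _ h => (L.s i h).toAddMonoidHom
  dd := L.dd
  ds_lt := L.ds_lt
  ds_eq := L.ds_eq
  ds_succ := L.ds_succ
  ds_gt := L.ds_gt
  ss := L.ss
  fin := L.fin

/-- Homomorphisms. -/
@[ext] structure Hom (L K : LSp k) where
  f : ∀ q, L.V q →ₗ[k] K.V q
  map_d : ∀ (i : ℕ) {q r : ℤ} (h : q + 1 = r) (x : L.V r), f q (L.d i h x) = K.d i h (f r x)
  map_s : ∀ (i : ℕ) {q r : ℤ} (h : q + 1 = r) (x : L.V q), f r (L.s i h x) = K.s i h (f q x)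

/-- The underlying homomorphism of group spectra. -/
def Hom.toG {L K : LSp k} (f : Hom L K) : GSp.Hom L.toG K.toG :=
  ⟨fun q => (f.f q).toAddMonoidHom, f.map_d, f.map_s⟩

def Hom.id (L : LSp k) : Hom L L := ⟨fun _ => LinearMap.id, fun _ _ _ _ _ => rfl,
  fun _ _ _ _ _ => rfl⟩

def Hom.comp {L K M : LSp k} (g : Hom K M) (f : Hom L K) : Hom L M :=
  ⟨fun q => (g.f q).comp (f.f q), fun i q r h x => by simp [f.map_d, g.map_d],
    fun i q r h x => by simp [f.map_s, g.map_s]⟩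

instance (L K : LSp k) : Zero (Hom L K) := ⟨⟨fun _ => 0, fun _ _ _ _ _ => by simp,
  fun _ _ _ _ _ => by simp⟩⟩

instance (L K : LSp k) : Add (Hom L K) := ⟨fun f g => ⟨fun q => f.f q + g.f q,
  fun i q r h x => by simp [f.map_d, g.map_d], fun i q r h x => by simp [f.map_s, g.map_s]⟩⟩

instance (L K : LSp k) : Neg (Hom L K) := ⟨fun f => ⟨fun q => -f.f q,
  fun i q r h x => by simp [f.map_d], fun i q r h x => by simp [f.map_s]⟩⟩

/-- Path spectrum. -/
def P (L : LSp k) : LSp k where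
  V := fun q => L.V (q + 1)
  d := fun i {q r} h => L.d (i + 1) (by omega : (q + 1) + 1 = r + 1)
  s := fun i {q r} h => L.s (i + 1) (by omega : (q + 1) + 1 = r + 1)
  dd := fun {i j} hij {q r t} h₁ h₂ x => L.dd (by omega : i + 1 ≤ j + 1) (by omega) (by omega) x
  ds_lt := fun {i j} hij {q r t} h₁ h₂ x =>
    L.ds_lt (by omega : i + 1 ≤ j + 1) (by omega) (by omega) x
  ds_eq := fun i {q r} h x => L.ds_eq (i + 1) (by omega) x
  ds_succ := fun i {q r} h x => L.ds_succ (i + 1) (by omega) x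
  ds_gt := fun {i j} hij {q r t} h₁ h₂ x =>
    L.ds_gt (by omega : j + 1 < i + 1) (by omega) (by omega) x
  ss := fun {i j} hij {q r t} h₁ h₂ x => L.ss (by omega : i + 1 ≤ j + 1) (by omega) (by omega) x
  fin := fun {q r} h x => by
    obtain ⟨n, hn⟩ := L.fin (by omega : (q + 1) + 1 = r + 1) x
    exact ⟨n, fun i hi => hn (i + 1) (by omega)⟩

/-- The end point map. -/
def dP (L : LSp k) : Hom L.P L where
  f := fun q => L.d 0 (rfl : q + 1 = q + 1)
  map_d := fun i {q r} h x => by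
    subst h
    exact L.dd (Nat.zero_le i) rfl rfl x
  map_s := fun i {q r} h x => by
    subst h
    exact L.ds_lt (Nat.zero_le i) rfl rfl x

/-- Families of subspaces closed under the operators. -/
structure Sub (L : LSp k) where
  S : ∀ q, Submodule k (L.V q)
  d_mem : ∀ (i : ℕ) {q r : ℤ} (h : q + 1 = r) (x : L.V r), x ∈ S r → L.d i h x ∈ S q
  s_mem : ∀ (i : ℕ) {q r : ℤ} (h : q + 1 = r) (x : L.V q), x ∈ S q → L.s i h x ∈ S r

/-- A sub-object as a linear spectrum. -/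
def Sub.toL {L : LSp k} (S : Sub L) : LSp k where
  V := fun q => S.S q
  d := fun i {q r} h => ((L.d i h).comp (S.S r).subtype).codRestrict (S.S q)
    (fun x => S.d_mem i h x.1 x.2)
  s := fun i {q r} h => ((L.s i h).comp (S.S q).subtype).codRestrict (S.S r)
    (fun x => S.s_mem i h x.1 x.2)
  dd := fun hij _ _ _ h₁ h₂ x => Subtype.ext (L.dd hij h₁ h₂ x.1)
  ds_lt := fun hij _ _ _ h₁ h₂ x => Subtype.ext (L.ds_lt hij h₁ h₂ x.1)
  ds_eq := fun i _ _ h x => Subtype.ext (L.ds_eq i h x.1)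
  ds_succ := fun i _ _ h x => Subtype.ext (L.ds_succ i h x.1)
  ds_gt := fun hij _ _ _ h₁ h₂ x => Subtype.ext (L.ds_gt hij h₁ h₂ x.1)
  ss := fun hij _ _ _ h₁ h₂ x => Subtype.ext (L.ss hij h₁ h₂ x.1)
  fin := fun {q r} h x => by
    obtain ⟨n, hn⟩ := L.fin h x.1
    exact ⟨n, fun i hi => Subtype.ext (hn i hi)⟩

/-- The inclusion. -/
def Sub.incl {L : LSp k} (S : Sub L) : Hom S.toL L :=
  ⟨fun q => (S.S q).subtype, fun _ _ _ _ _ => rfl, fun _ _ _ _ _ => rfl⟩

/-- Quotients. -/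
def Sub.quot {L : LSp k} (S : Sub L) : LSp k where
  V := fun q => L.V q ⧸ S.S q
  d := fun i {q r} h => Submodule.mapQ (S.S r) (S.S q) (L.d i h) (fun x hx => S.d_mem i h x hx)
  s := fun i {q r} h => Submodule.mapQ (S.S q) (S.S r) (L.s i h) (fun x hx => S.s_mem i h x hx)
  dd := fun hij _ _ _ h₁ h₂ x => by
    obtain ⟨x, rfl⟩ := Submodule.mkQ_surjective _ x
    exact congrArg (Submodule.mkQ _) (L.dd hij h₁ h₂ x)
  ds_lt := fun hij _ _ _ h₁ h₂ x => by
    obtain ⟨x, rfl⟩ := Submodule.mkQ_surjective _ x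
    exact congrArg (Submodule.mkQ _) (L.ds_lt hij h₁ h₂ x)
  ds_eq := fun i _ _ h x => by
    obtain ⟨x, rfl⟩ := Submodule.mkQ_surjective _ x
    exact congrArg (Submodule.mkQ _) (L.ds_eq i h x)
  ds_succ := fun i _ _ h x => by
    obtain ⟨x, rfl⟩ := Submodule.mkQ_surjective _ x
    exact congrArg (Submodule.mkQ _) (L.ds_succ i h x)
  ds_gt := fun hij _ _ _ h₁ h₂ x => by
    obtain ⟨x, rfl⟩ := Submodule.mkQ_surjective _ x
    exact congrArg (Submodule.mkQ _) (L.ds_gt hij h₁ h₂ x)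
  ss := fun hij _ _ _ h₁ h₂ x => by
    obtain ⟨x, rfl⟩ := Submodule.mkQ_surjective _ x
    exact congrArg (Submodule.mkQ _) (L.ss hij h₁ h₂ x)
  fin := fun {q r} h x => by
    obtain ⟨x, rfl⟩ := Submodule.mkQ_surjective _ x
    obtain ⟨n, hn⟩ := L.fin h x
    exact ⟨n, fun i hi => by
      change Submodule.mkQ _ (L.d i h x) = 0
      rw [hn i hi, map_zero]⟩

/-- The projection to the quotient. -/
def Sub.proj {L : LSp k} (S : Sub L) : Hom L S.quot :=
  ⟨fun q => (S.S q).mkQ, fun _ _ _ _ _ => rfl, fun _ _ _ _ _ => rfl⟩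

/-- The kernel of a homomorphism. -/
def Hom.kerS {L K : LSp k} (f : Hom L K) : Sub L where
  S := fun q => LinearMap.ker (f.f q)
  d_mem := fun i {q r} h x hx => by
    rw [LinearMap.mem_ker] at hx ⊢
    rw [f.map_d, hx, map_zero]
  s_mem := fun i {q r} h x hx => by
    rw [LinearMap.mem_ker] at hx ⊢
    rw [f.map_s, hx, map_zero]

/-- A homomorphism which vanishes on a sub-object factors through the quotient. -/
def Sub.desc {L K : LSp k} (S : Sub L) (f : Hom L K) (h : ∀ q, ∀ x ∈ S.S q, f.f q x = 0) :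
    Hom S.quot K where
  f := fun q => (S.S q).liftQ (f.f q) (fun x hx => h q x hx)
  map_d := fun i _ _ e x => by
    obtain ⟨x, rfl⟩ := Submodule.mkQ_surjective _ x
    exact f.map_d i e x
  map_s := fun i _ _ e x => by
    obtain ⟨x, rfl⟩ := Submodule.mkQ_surjective _ x
    exact f.map_s i e x

/-- Surjective homomorphisms. -/
def Hom.Surj {L K : LSp k} (f : Hom L K) : Prop := ∀ q, Function.Surjective (f.f q)

/-- Moore chains: all faces but the `0`-th vanish. -/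
def N (L : LSp k) (r : ℤ) : Submodule k (L.V r) where
  carrier := {x | ∀ (i : ℕ) {q : ℤ} (h : q + 1 = r), L.d (i + 1) h x = 0}
  zero_mem' := fun _ _ _ => map_zero _
  add_mem' := fun {a b} ha hb i r h => by rw [map_add, ha i h, hb i h, add_zero]
  smul_mem' := fun c a ha i r h => by rw [map_smul, ha i h, smul_zero]

/-- Degenerate elements. -/
def D (L : LSp k) (r : ℤ) : Submodule k (L.V r) :=
  ⨆ i : ℕ, LinearMap.range (L.s i (show r - 1 + 1 = r by omega))

/-! ### sums of degeneracies -/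

theorem red1 (L : LSp k) {t q r : ℤ} (h₁ : t + 1 = q) (h₂ : q + 1 = r) (m : ℕ) (y : ℕ → L.V q) :
    L.d (m + 1) h₂ (∑ i ∈ Finset.range (m + 1), L.s i h₂ (y i)) =
      ∑ i ∈ Finset.range m, L.s i h₁ (L.d m h₁ (y i)) + y m := by
  rw [map_sum, Finset.sum_range_succ, L.ds_succ]
  congr 1
  refine Finset.sum_congr rfl fun i hi => ?_
  exact L.ds_gt (Finset.mem_range.1 hi) h₁ h₂ (y i)

theorem red2 (L : LSp k) {t q r : ℤ} (h₁ : t + 1 = q) (h₂ : q + 1 = r) (m : ℕ) (z : ℕ → L.V t) :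
    L.s m h₂ (∑ i ∈ Finset.range m, L.s i h₁ (z i)) =
      ∑ i ∈ Finset.range m, L.s i h₂ (L.s (m - 1) h₁ (z i)) := by
  rw [map_sum]
  refine Finset.sum_congr rfl fun i hi => ?_
  have hi' := Finset.mem_range.1 hi
  obtain ⟨j, rfl⟩ : ∃ j, m = j + 1 := ⟨m - 1, by omega⟩
  exact (L.ss (by omega : i ≤ j) h₁ h₂ (z i)).symm

theorem red3 (L : LSp k) {t q r : ℤ} (h₁ : t + 1 = q) (h₂ : q + 1 = r) (m : ℕ) (y : ℕ → L.V q)
    (hy : y m = -∑ i ∈ Finset.range m, L.s i h₁ (L.d m h₁ (y i))) :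
    ∑ i ∈ Finset.range (m + 1), L.s i h₂ (y i) =
      ∑ i ∈ Finset.range m, L.s i h₂ (y i - L.s (m - 1) h₁ (L.d m h₁ (y i))) := by
  rw [Finset.sum_range_succ, hy, map_neg, L.red2 h₁ h₂, ← sub_eq_add_neg,
    ← Finset.sum_sub_distrib]
  exact Finset.sum_congr rfl fun i _ => (map_sub _ _ _).symm

theorem s_mem_D (L : LSp k) {q r : ℤ} (h : q + 1 = r) (i : ℕ) (y : L.V q) :
    L.s i h y ∈ L.D r := by
  obtain rfl : q = r - 1 := by omega
  exact Submodule.mem_iSup_of_mem i ⟨y, rfl⟩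

/-- all sums of degeneracies as a linear map -/
noncomputable def sD (L : LSp k) {q r : ℤ} (h : q + 1 = r) : (ℕ →₀ L.V q) →ₗ[k] L.V r :=
  Finsupp.lsum k (fun i => L.s i h)

theorem sD_eq (L : LSp k) {q r : ℤ} (h : q + 1 = r) (z : ℕ →₀ L.V q) :
    ∃ m : ℕ, ∀ n, m ≤ n → L.sD h z = ∑ i ∈ Finset.range n, L.s i h (z i) := by
  obtain ⟨m, hm⟩ : ∃ m : ℕ, ∀ i ∈ z.support, i < m := by
    refine ⟨z.support.sup id + 1, fun i hi => ?_⟩
    have := Finset.le_sup (f := id) hi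
    simp only [id] at this
    omega
  refine ⟨m, fun n hn => ?_⟩
  change Finsupp.lsum k (fun i => L.s i h) z = _
  rw [Finsupp.lsum_apply]
  exact Finsupp.sum_of_support_subset _ (fun i hi => Finset.mem_range.2 (by have := hm i hi; omega))
    _ (fun i _ => map_zero _)

theorem sD_single (L : LSp k) {q r : ℤ} (h : q + 1 = r) (i : ℕ) (y : L.V q) :
    L.sD h (Finsupp.single i y) = L.s i h y := by
  change Finsupp.lsum k (fun i => L.s i h) _ = _
  rw [Finsupp.lsum_single]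

theorem mem_D_iff (L : LSp k) {q r : ℤ} (h : q + 1 = r) (x : L.V r) :
    x ∈ L.D r ↔ ∃ z : ℕ →₀ L.V q, L.sD h z = x := by
  obtain rfl : q = r - 1 := by omega
  constructor
  · intro hx
    have h1 : L.D r ≤ LinearMap.range (L.sD h) := by
      refine iSup_le fun i => ?_
      rintro _ ⟨y, rfl⟩
      exact ⟨Finsupp.single i y, L.sD_single h i y⟩
    exact h1 hx
  · rintro ⟨z, rfl⟩
    obtain ⟨m, hm⟩ := L.sD_eq h z
    rw [hm m le_rfl]
    exact Submodule.sum_mem _ fun i _ => L.s_mem_D h i _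

/-- Dold-Kan decomposition: `V = N + D`.  PROOF: if `d_i x = 0` for `i > n`, replace `x` by
`x - s_{n-1} d_n x`, etc. -/
theorem N_sup_D (L : LSp k) (r : ℤ) : L.N r ⊔ L.D r = ⊤ := by
  rw [eq_top_iff]
  obtain ⟨q, h⟩ : ∃ q : ℤ, q + 1 = r := ⟨r - 1, by omega⟩
  obtain ⟨t, ht⟩ : ∃ t : ℤ, t + 1 = q := ⟨q - 1, by omega⟩
  have key : ∀ (n : ℕ) (x : L.V r), (∀ i, n < i → L.d i h x = 0) → x ∈ L.N r ⊔ L.D r := by
    intro n
    induction n with
    | zero =>
      intro x hx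
      refine Submodule.mem_sup_left fun i q' h' => ?_
      obtain rfl : q' = q := by omega
      exact hx (i + 1) (Nat.succ_pos i)
    | succ n ih =>
      intro x hx
      have h1 := ih (x - L.s n h (L.d (n + 1) h x)) (by
        intro i hi
        rw [map_sub]
        rcases Nat.eq_or_lt_of_le (Nat.succ_le_of_lt hi) with h2 | h2
        · subst h2
          rw [Nat.succ_eq_add_one, L.ds_succ, sub_self]
        · obtain ⟨j, rfl⟩ : ∃ j, i = j + 1 := ⟨i - 1, by omega⟩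
          rw [hx (j + 1) (by omega), L.ds_gt (by omega : n < j) ht h,
            ← L.dd (by omega : n + 1 ≤ j) ht h, hx (j + 1) (by omega), map_zero, map_zero,
            sub_zero])
      have h2 := Submodule.add_mem _ h1
        (Submodule.mem_sup_right (S := L.N r) (L.s_mem_D h n (L.d (n + 1) h x)))
      rwa [sub_add_cancel] at h2
  rintro x -
  obtain ⟨n, hn⟩ := L.fin h x
  exact key n x fun i hi => hn i hi.le

theorem N_sum (L : LSp k) {q r : ℤ} (h : q + 1 = r) (m : ℕ) (y : ℕ → L.V q)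
    (hx : ∑ i ∈ Finset.range m, L.s i h (y i) ∈ L.N r) :
    ∑ i ∈ Finset.range m, L.s i h (y i) = 0 := by
  obtain ⟨t, ht⟩ : ∃ t : ℤ, t + 1 = q := ⟨q - 1, by omega⟩
  induction m generalizing y with
  | zero => simp
  | succ m ih =>
    have h1 : L.d (m + 1) h (∑ i ∈ Finset.range (m + 1), L.s i h (y i)) = 0 := hx m h
    rw [L.red1 ht h] at h1
    have h2 := L.red3 ht h m y (eq_neg_of_add_eq_zero_right h1)
    rw [h2] at hx ⊢
    exact ih _ hx

/-- Dold-Kan decomposition: `N ∩ D = 0`.  PROOF: if `x = ∑_{i ≤ m} s_i y_i ∈ N`, then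
`y_m = - ∑_{i<m} s_i d_m y_i` and `x = ∑_{i<m} s_i (y_i - s_{m-1} d_m y_i)`. -/
theorem N_inf_D (L : LSp k) (r : ℤ) : L.N r ⊓ L.D r = ⊥ := by
  rw [eq_bot_iff]
  rintro x ⟨h1, h2⟩
  obtain ⟨q, h⟩ : ∃ q : ℤ, q + 1 = r := ⟨r - 1, by omega⟩
  obtain ⟨z, rfl⟩ := (L.mem_D_iff h x).1 h2
  obtain ⟨m, hm⟩ := L.sD_eq h z
  have h3 := hm m le_rfl
  rw [h3] at h1 ⊢
  rw [L.N_sum h m _ h1]
  exact Submodule.zero_mem _

/-- The map on degenerate elements induced by a map in degrees `≤ q` is well defined. -/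
theorem D_welldef {L K : LSp k} {t q r : ℤ} (h₁ : t + 1 = q) (h₂ : q + 1 = r)
    (f : L.V t →ₗ[k] K.V t) (g : L.V q →ₗ[k] K.V q)
    (hd : ∀ i x, f (L.d i h₁ x) = K.d i h₁ (g x)) (hs : ∀ i x, g (L.s i h₁ x) = K.s i h₁ (f x))
    (m : ℕ) (y : ℕ → L.V q) (hy : ∑ i ∈ Finset.range m, L.s i h₂ (y i) = 0) :
    ∑ i ∈ Finset.range m, K.s i h₂ (g (y i)) = 0 := by
  induction m generalizing y with
  | zero => simp
  | succ m ih =>
    have h1 := L.red1 h₁ h₂ m y
    rw [hy, map_zero] at h1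
    have h2 : y m = -∑ i ∈ Finset.range m, L.s i h₁ (L.d m h₁ (y i)) := by
      exact eq_neg_of_add_eq_zero_right h1.symm
    rw [L.red3 h₁ h₂ m y h2] at hy
    have h3 := ih _ hy
    rw [K.red3 h₁ h₂ m (fun i => g (y i)) (by
      change g (y m) = _
      rw [h2, map_neg, map_sum]
      congr 1
      exact Finset.sum_congr rfl fun i _ => by rw [hs, hd])]
    rw [← h3]
    refine Finset.sum_congr rfl fun i _ => ?_
    rw [map_sub g, hs, hd]

/-- linear algebra: extension of a partial section -/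
theorem ext_section {A T W : Type} [AddCommGroup A] [Module k A] [AddCommGroup T] [Module k T]
    [AddCommGroup W] [Module k W] (π : W →ₗ[k] T) (hπ : Function.Surjective π) (ι : A →ₗ[k] T)
    (ψ : A →ₗ[k] W) (h1 : ∀ a, π (ψ a) = ι a) (h2 : ∀ a, ι a = 0 → ψ a = 0) :
    ∃ σ : T →ₗ[k] W, (∀ x, π (σ x) = x) ∧ ∀ a, σ (ι a) = ψ a := by
  obtain ⟨σ₀, hσ₀⟩ := LinearMap.exists_rightInverse_of_surjective π (LinearMap.range_eq_top.2 hπ)
  obtain ⟨κ₀, hκ₀⟩ := LinearMap.exists_rightInverse_of_surjective ι.rangeRestrict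
    (LinearMap.range_rangeRestrict ι)
  obtain ⟨κ, hκ⟩ := LinearMap.exists_extend κ₀
  have e0 : ∀ x, π (σ₀ x) = x := fun x => LinearMap.congr_fun hσ₀ x
  have e1 : ∀ a, ι (κ (ι a)) = ι a := by
    intro a
    have h3 := LinearMap.congr_fun hκ (ι.rangeRestrict a)
    have h4 := LinearMap.congr_fun hκ₀ (ι.rangeRestrict a)
    have h5 : ι (κ₀ (ι.rangeRestrict a)) = ι a := congrArg Subtype.val h4
    rw [← h3] at h5
    exact h5
  have e2 : ∀ a, ψ (κ (ι a)) = ψ a := by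
    intro a
    have h3 := h2 (κ (ι a) - a) (by rw [map_sub, e1, sub_self])
    rwa [map_sub, sub_eq_zero] at h3
  refine ⟨σ₀ + (ψ - σ₀.comp ι).comp κ, fun x => ?_, fun a => ?_⟩
  · simp only [LinearMap.add_apply, LinearMap.comp_apply, LinearMap.sub_apply, map_add, map_sub,
      e0, h1, sub_self, add_zero]
  · simp only [LinearMap.add_apply, LinearMap.comp_apply, LinearMap.sub_apply, e1, e2]
    abel

/-- `h` is a linear lift of `f` along `p` in degrees `≤ m`, extending the lift `hS` on `S` -/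
structure LLift {E G T : LSp k} (p : Hom E G) (f : Hom T G) (S : Sub T) (hS : Hom S.toL E) (m : ℤ)
    (h : ∀ q, T.V q →ₗ[k] E.V q) : Prop where
  lift : ∀ q, q ≤ m → ∀ x, p.f q (h q x) = f.f q x
  map_d : ∀ (i : ℕ) {q r : ℤ} (e : q + 1 = r) (x : T.V r), r ≤ m →
    h q (T.d i e x) = E.d i e (h r x)
  map_s : ∀ (i : ℕ) {q r : ℤ} (e : q + 1 = r) (x : T.V q), r ≤ m →
    h r (T.s i e x) = E.s i e (h q x)
  ext : ∀ q, q ≤ m → ∀ x : S.toL.V q, h q x.1 = hS.f q x

/-- the pairs `(x, y)` such that `y` is a possible value of the lift at `x` -/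
def LW {E G T : LSp k} (p : Hom E G) (f : Hom T G) {m m' : ℤ} (hm : m + 1 = m')
    (h : T.V m →ₗ[k] E.V m) : Submodule k (T.V m' × E.V m') where
  carrier := {x | p.f m' x.2 = f.f m' x.1 ∧ ∀ i, E.d i hm x.2 = h (T.d i hm x.1)}
  zero_mem' := ⟨by simp, fun i => by simp⟩
  add_mem' := fun {a b} ha hb => ⟨by
    change p.f m' (a.2 + b.2) = f.f m' (a.1 + b.1)
    rw [map_add, map_add, ha.1, hb.1], fun i => by
    change E.d i hm (a.2 + b.2) = h (T.d i hm (a.1 + b.1))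
    rw [map_add, map_add, map_add, ha.2, hb.2]⟩
  smul_mem' := fun c a ha => ⟨by
    change p.f m' (c • a.2) = f.f m' (c • a.1)
    rw [map_smul, map_smul, ha.1], fun i => by
    change E.d i hm (c • a.2) = h (T.d i hm (c • a.1))
    rw [map_smul, map_smul, map_smul, ha.2]⟩

theorem ker_vanish {E G : LSp k} (p : Hom E G) (hK : (p.kerS.toL).toG.Acyclic) :
    (GSp.ker p.toG).Acyclic :=
  HC.acyclic_of_bij (K := (p.kerS.toL).toG) (L := GSp.ker p.toG)
    ⟨fun q => ((LinearMap.ker (p.f q)).subtype.toAddMonoidHom).codRestrict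
        (AddMonoidHom.ker (p.toG.f q)) (fun x => x.2), fun _ _ _ _ _ => rfl,
      fun _ _ _ _ _ => rfl⟩
    (fun q => ⟨fun x y h => Subtype.ext (congrArg Subtype.val h), fun x => ⟨⟨x.1, x.2⟩, rfl⟩⟩) hK

/-- one step of the construction of a linear lift -/
theorem LLift.step {E G T : LSp k} {p : Hom E G} (hp : p.Surj) (hK : (GSp.ker p.toG).Acyclic)
    {f : Hom T G} {S : Sub T} {hS : Hom S.toL E} (hc : ∀ q x, p.f q (hS.f q x) = f.f q x.1)
    {m m' : ℤ} (hm : m + 1 = m') {h : ∀ q, T.V q →ₗ[k] E.V q} (hh : LLift p f S hS m h) :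
    ∃ h' : ∀ q, T.V q →ₗ[k] E.V q, LLift p f S hS m' h' ∧ ∀ q, q ≤ m → h' q = h q := by
  obtain ⟨l, hl⟩ : ∃ l, l + 1 = m := ⟨m - 1, by omega⟩
  -- membership
  have w1 : ∀ a : S.toL.V m', ((a.1, hS.f m' a) : T.V m' × E.V m') ∈ LW p f hm (h m) := by
    intro a
    refine ⟨hc m' a, fun i => ?_⟩
    change E.d i hm (hS.f m' a) = h m (T.d i hm a.1)
    rw [← hS.map_d i hm a]
    exact (hh.ext m le_rfl (S.toL.d i hm a)).symm
  have w2 : ∀ (i : ℕ) (z : T.V m),
      ((T.s i hm z, E.s i hm (h m z)) : T.V m' × E.V m') ∈ LW p f hm (h m) := by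
    intro i z
    refine ⟨?_, fun j => ?_⟩
    · change p.f m' (E.s i hm (h m z)) = f.f m' (T.s i hm z)
      rw [p.map_s, hh.lift m le_rfl, f.map_s]
    · change E.d j hm (E.s i hm (h m z)) = h m (T.d j hm (T.s i hm z))
      rcases lt_trichotomy j i with hji | hji | hji
      · obtain ⟨i', rfl⟩ : ∃ i', i = i' + 1 := ⟨i - 1, by omega⟩
        rw [E.ds_lt (by omega) hl hm, T.ds_lt (by omega) hl hm, hh.map_s _ hl _ le_rfl,
          hh.map_d _ hl _ le_rfl]
      · subst hji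
        rw [E.ds_eq, T.ds_eq]
      · rcases eq_or_lt_of_le (Nat.succ_le_of_lt hji) with h1 | h1
        · subst h1
          rw [Nat.succ_eq_add_one, E.ds_succ, T.ds_succ]
        · obtain ⟨j', rfl⟩ : ∃ j', j = j' + 1 := ⟨j - 1, by omega⟩
          rw [E.ds_gt (by omega) hl hm, T.ds_gt (by omega) hl hm, hh.map_s _ hl _ le_rfl,
            hh.map_d _ hl _ le_rfl]
  -- the partial section
  let ι : (S.toL.V m' × (ℕ →₀ T.V m)) →ₗ[k] T.V m' :=
    ((S.incl).f m').coprod (T.sD hm)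
  let ψ₀ : (S.toL.V m' × (ℕ →₀ T.V m)) →ₗ[k] E.V m' :=
    (hS.f m').coprod ((E.sD hm).comp (Finsupp.mapRange.linearMap (h m)))
  have hι : ∀ a z, ι (a, z) = a.1 + T.sD hm z := fun a z => rfl
  have hψ₀ : ∀ a z, ψ₀ (a, z) = hS.f m' a + E.sD hm (Finsupp.mapRange.linearMap (h m) z) :=
    fun a z => rfl
  have hsum : ∀ z : ℕ →₀ T.V m, ∃ M : ℕ, ∀ n, M ≤ n →
      T.sD hm z = ∑ i ∈ Finset.range n, T.s i hm (z i) ∧
      E.sD hm (Finsupp.mapRange.linearMap (h m) z) =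
        ∑ i ∈ Finset.range n, E.s i hm (h m (z i)) := by
    intro z
    obtain ⟨M₁, h1⟩ := T.sD_eq hm z
    obtain ⟨M₂, h2⟩ := E.sD_eq hm (Finsupp.mapRange.linearMap (h m) z)
    exact ⟨max M₁ M₂, fun n hn => ⟨h1 n (by omega), h2 n (by omega)⟩⟩
  have hmem : ∀ c, (ι.prod ψ₀) c ∈ LW p f hm (h m) := by
    rintro ⟨a, z⟩
    obtain ⟨M, hM⟩ := hsum z
    obtain ⟨h1, h2⟩ := hM M le_rfl
    have h3 : (ι.prod ψ₀) (a, z) = ((a.1, hS.f m' a) : T.V m' × E.V m') +
        ∑ i ∈ Finset.range M, ((T.s i hm (z i), E.s i hm (h m (z i))) : T.V m' × E.V m') := by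
      refine Prod.ext ?_ ?_
      · change ι (a, z) = _
        rw [hι, h1, Prod.fst_add, Prod.fst_sum]
      · change ψ₀ (a, z) = _
        rw [hψ₀, h2, Prod.snd_add, Prod.snd_sum]
    rw [h3]
    exact Submodule.add_mem _ (w1 a) (Submodule.sum_mem _ fun i _ => w2 i _)
  let ψ : (S.toL.V m' × (ℕ →₀ T.V m)) →ₗ[k] LW p f hm (h m) := (ι.prod ψ₀).codRestrict _ hmem
  let π : LW p f hm (h m) →ₗ[k] T.V m' := (LinearMap.fst k _ _).comp (LW p f hm (h m)).subtype
  have hπ : Function.Surjective π := by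
    intro x
    obtain ⟨n, hn⟩ := T.fin hm x
    obtain ⟨y, hy1, hy2⟩ := GSp.ext_fill p.toG hp hm (hK m) (f.f m' x)
      (fun i => h m (T.d i hm x)) n
      (fun i hi => by
        change h m (T.d i hm x) = 0
        rw [hn i hi, map_zero])
      (fun {i j} hij {t} h₂ => by
        change E.d i h₂ (h m (T.d (j + 1) hm x)) = E.d j h₂ (h m (T.d i hm x))
        rw [← hh.map_d _ h₂ _ le_rfl, ← hh.map_d _ h₂ _ le_rfl, T.dd hij])
      (fun i => by
        change p.f m (h m (T.d i hm x)) = G.d i hm (f.f m' x)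
        rw [hh.lift m le_rfl, f.map_d])
    exact ⟨⟨(x, y), hy1, hy2⟩, rfl⟩
  have hinj : ∀ c, ι c = 0 → ψ c = 0 := by
    rintro ⟨a, z⟩ h0
    have h0' := h0
    rw [hι] at h0
    have h1 : a ∈ (S.toL.N m') ⊔ (S.toL.D m') := by
      rw [S.toL.N_sup_D]
      trivial
    obtain ⟨n, hn, d, hd, rfl⟩ := Submodule.mem_sup.1 h1
    obtain ⟨w, rfl⟩ := (S.toL.mem_D_iff hm d).1 hd
    obtain ⟨M₁, hM₁⟩ := S.toL.sD_eq hm w
    obtain ⟨M₂, hM₂⟩ := hsum z
    obtain ⟨M, hM⟩ : ∃ M, M = max M₁ M₂ := ⟨_, rfl⟩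
    have e1 := hM₁ M (by omega)
    obtain ⟨e2, e3⟩ := hM₂ M (by omega)
    have e1' : ((S.toL.sD hm w : S.toL.V m').1 : T.V m') =
        ∑ i ∈ Finset.range M, T.s i hm (w i).1 := by
      rw [e1]
      exact map_sum ((S.incl).f m') _ _
    have h2 : (n.1 : T.V m') = ∑ i ∈ Finset.range M, T.s i hm (-((w i).1 + z i)) := by
      have h3 : (n.1 : T.V m') + (∑ i ∈ Finset.range M, T.s i hm (w i).1 +
          ∑ i ∈ Finset.range M, T.s i hm (z i)) = 0 := by
        rw [← add_assoc, ← e1', ← e2]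
        exact h0
      rw [← Finset.sum_add_distrib] at h3
      rw [eq_neg_of_add_eq_zero_left h3, ← Finset.sum_neg_distrib]
      exact Finset.sum_congr rfl fun i _ => by rw [map_neg, map_add]
    have hnT : (n.1 : T.V m') ∈ T.N m' := fun i q' e => congrArg Subtype.val (hn i e)
    rw [h2] at hnT
    have h4 := T.N_sum hm M _ hnT
    have hn0 : n = 0 := Subtype.ext (h2.trans h4)
    have h5 := D_welldef hl hm (h l) (h m) (fun i x => hh.map_d i hl x le_rfl)
      (fun i x => hh.map_s i hl x le_rfl) M _ h4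
    have h6 : hS.f m' (S.toL.sD hm w) = ∑ i ∈ Finset.range M, E.s i hm (h m (w i).1) := by
      rw [e1, map_sum]
      refine Finset.sum_congr rfl fun i _ => ?_
      rw [hS.map_s, ← hh.ext m le_rfl]
    have h7 : ψ₀ (n + S.toL.sD hm w, z) = 0 := by
      rw [hψ₀, e3, hn0, zero_add, h6, ← Finset.sum_add_distrib, ← neg_eq_zero,
        ← Finset.sum_neg_distrib, ← h5]
      refine Finset.sum_congr rfl fun i _ => ?_
      rw [map_neg (h m), map_neg, map_add (h m), map_add]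
    refine Subtype.ext (Prod.ext ?_ ?_)
    · exact h0'
    · exact h7
  obtain ⟨σ, hσ1, hσ2⟩ := ext_section π hπ ι ψ (fun c => rfl) hinj
  let g : T.V m' →ₗ[k] E.V m' := (LinearMap.snd k _ _).comp ((LW p f hm (h m)).subtype.comp σ)
  have hx : ∀ x, (σ x).1.1 = x := fun x => hσ1 x
  have hg1 : ∀ x, p.f m' (g x) = f.f m' x := fun x => by
    have h1 := (σ x).2.1
    rw [hx] at h1
    exact h1
  have hg2 : ∀ x i, E.d i hm (g x) = h m (T.d i hm x) := fun x i => by
    have h1 := (σ x).2.2 i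
    rw [hx] at h1
    exact h1
  have hg3 : ∀ i x, g (T.s i hm x) = E.s i hm (h m x) := fun i x => by
    have h1 := congrArg (fun v : LW p f hm (h m) => v.1.2) (hσ2 (0, Finsupp.single i x))
    have h2 : ι (0, Finsupp.single i x) = T.s i hm x := by
      rw [hι, T.sD_single]
      exact zero_add _
    have h3 : ψ₀ (0, Finsupp.single i x) = E.s i hm (h m x) := by
      rw [hψ₀, map_zero, zero_add, Finsupp.mapRange.linearMap_apply, Finsupp.mapRange_single,
        E.sD_single]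
    rw [h2] at h1
    exact h1.trans h3
  have hg4 : ∀ x : S.toL.V m', g x.1 = hS.f m' x := fun x => by
    have h1 := congrArg (fun v : LW p f hm (h m) => v.1.2) (hσ2 (x, 0))
    have h2 : ι (x, 0) = x.1 := by
      rw [hι, map_zero, add_zero]
    have h3 : ψ₀ (x, 0) = hS.f m' x := by
      rw [hψ₀, map_zero, map_zero, add_zero]
    rw [h2] at h1
    exact h1.trans h3
  have hu : ∀ q, q ≤ m → Function.update h m' g q = h q := fun q hq =>
    Function.update_of_ne (by omega) _ _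
  have hum : Function.update h m' g m' = g := Function.update_self _ _ _
  refine ⟨Function.update h m' g, ⟨?_, ?_, ?_, ?_⟩, hu⟩
  · intro q hq x
    rcases eq_or_lt_of_le hq with rfl | hq'
    · rw [hum]
      exact hg1 x
    · rw [hu q (by omega)]
      exact hh.lift q (by omega) x
  · intro i q r e x hr
    rcases eq_or_lt_of_le hr with rfl | hr'
    · obtain rfl : q = m := by omega
      rw [hum, hu q le_rfl]
      exact (hg2 x i).symm
    · rw [hu q (by omega), hu r (by omega)]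
      exact hh.map_d i e x (by omega)
  · intro i q r e x hr
    rcases eq_or_lt_of_le hr with rfl | hr'
    · obtain rfl : q = m := by omega
      rw [hum, hu q le_rfl]
      exact hg3 i x
    · rw [hu q (by omega), hu r (by omega)]
      exact hh.map_s i e x (by omega)
  · intro q hq x
    rcases eq_or_lt_of_le hq with rfl | hq'
    · rw [hum]
      exact hg4 x
    · rw [hu q (by omega)]
      exact hh.ext q (by omega) x

/-- **Linear lifting theorem** (relative).  PROOF: degree by degree as in `PLift`; in degree `r`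
decompose `T_r = N_r ⊕ D_r`, `S_r = N_r(S) ⊕ D_r(S)`, `N_r(S) = N_r ∩ S_r`; on `D_r` the map is forced
(`D_welldef`), on `N_r(S)` it is given, on a basis of a complement of `N_r(S)` in `N_r` use
`GSp.ext_fill` (only the `0`-th face is nontrivial). -/
theorem lift_rel {E G T : LSp k} (p : Hom E G) (hp : p.Surj) (hK : (p.kerS.toL).toG.Acyclic)
    (hT : T.toG.SBB) (S : Sub T) (f : Hom T G) (h : Hom S.toL E)
    (hc : ∀ q x, p.f q (h.f q x) = f.f q x.1) :
    ∃ h' : Hom T E, (∀ q x, p.f q (h'.f q x) = f.f q x) ∧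
      ∀ q (x : S.toL.V q), h'.f q x.1 = h.f q x := by
  obtain ⟨m₀, hm₀⟩ := hT
  have hT0 : ∀ q, q < m₀ → ∀ x : T.V q, x = 0 := hm₀
  obtain ⟨m, hm⟩ : ∃ m, m + 1 = m₀ := ⟨m₀ - 1, by omega⟩
  have h0 : LLift p f S h m (fun _ => 0) := by
    refine ⟨?_, ?_, ?_, ?_⟩
    · intro q hq x
      rw [hT0 q (by omega) x, map_zero, map_zero, map_zero]
    · intro i q r e x hr
      rw [hT0 r (by omega) x, map_zero, map_zero, map_zero, map_zero]
    · intro i q r e x hr
      rw [hT0 q (by omega) x, map_zero, map_zero, map_zero, map_zero]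
    · intro q hq x
      have hx : x = 0 := Subtype.ext (hT0 q (by omega) x.1)
      rw [hx, map_zero]
      rfl
  have hst : ∀ (j : ℕ) (g : {g : ∀ q, T.V q →ₗ[k] E.V q // LLift p f S h (m + j) g}),
      ∃ g' : {g : ∀ q, T.V q →ₗ[k] E.V q // LLift p f S h (m + (j + 1 : ℕ)) g},
        ∀ q, q ≤ m + j → g'.1 q = g.1 q := by
    intro j g
    obtain ⟨g', h1, h2⟩ := LLift.step hp (ker_vanish p hK) hc (m := m + j)
      (m' := m + (j + 1 : ℕ)) (by push_cast; ring) g.2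
    exact ⟨⟨g', h1⟩, h2⟩
  choose F hF using hst
  let H : ∀ j : ℕ, {g : ∀ q, T.V q →ₗ[k] E.V q // LLift p f S h (m + j) g} := fun j =>
    Nat.rec ⟨_, by simpa using h0⟩ (fun j g => F j g) j
  have hH : ∀ j, H (j + 1) = F j (H j) := fun j => rfl
  have hst : ∀ j l : ℕ, j ≤ l → ∀ q, q ≤ m + j → (H l).1 q = (H j).1 q := by
    intro j l hjl
    induction l, hjl using Nat.le_induction with
    | base => intro q _; rfl
    | succ l hl ih =>
      intro q hq
      rw [hH, hF l (H l) q (by omega)]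
      exact ih q hq
  let h' : ∀ q, T.V q →ₗ[k] E.V q := fun q => (H (q - m).toNat).1 q
  have hh' : ∀ (j : ℕ) q, q ≤ m + j → h' q = (H j).1 q := by
    intro j q hq
    exact (hst (q - m).toNat j (by omega) q (by omega)).symm
  have hk : ∀ q : ℤ, ∃ j : ℕ, q ≤ m + j := fun q => ⟨(q - m).toNat, by omega⟩
  refine ⟨⟨h', ?_, ?_⟩, ?_, ?_⟩
  · intro i q r e x
    obtain ⟨j, hj⟩ := hk r
    rw [hh' j r hj, hh' j q (by omega)]
    exact (H j).2.map_d i e x hj
  · intro i q r e x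
    obtain ⟨j, hj⟩ := hk r
    rw [hh' j r hj, hh' j q (by omega)]
    exact (H j).2.map_s i e x hj
  · intro q x
    obtain ⟨j, hj⟩ := hk q
    change p.f q (h' q x) = f.f q x
    rw [hh' j q hj]
    exact (H j).2.lift q hj x
  · intro q x
    obtain ⟨j, hj⟩ := hk q
    change h' q x.1 = h.f q x
    rw [hh' j q hj]
    exact (H j).2.ext q hj x

/-- the zero sub-object -/
def Sub.bot (L : LSp k) : Sub L where
  S := fun _ => ⊥
  d_mem := fun i {q r} h x hx => by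
    rw [Submodule.mem_bot] at hx ⊢
    rw [hx, map_zero]
  s_mem := fun i {q r} h x hx => by
    rw [Submodule.mem_bot] at hx ⊢
    rw [hx, map_zero]

/-- the homomorphism of path spectra -/
def Hom.P {L K : LSp k} (f : Hom L K) : Hom L.P K.P :=
  ⟨fun q => f.f (q + 1), fun i _ _ _ x => f.map_d (i + 1) _ x, fun i _ _ _ x => f.map_s (i + 1) _ x⟩

theorem om_acyclic {T : LSp k} (hA : T.toG.Acyclic) : (T.dP.kerS.toL).toG.Acyclic :=
  HC.acyclic_of_bij (K := T.toG.Om) (L := (T.dP.kerS.toL).toG)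
    ⟨fun q => ⟨⟨fun x => ⟨x.1, x.2⟩, rfl⟩, fun _ _ => rfl⟩, fun _ _ _ _ _ => rfl,
      fun _ _ _ _ _ => rfl⟩
    (fun q => ⟨fun x y h => Subtype.ext (congrArg Subtype.val h), fun x => ⟨⟨x.1, x.2⟩, rfl⟩⟩)
    (T.toG.Om_acyclic hA)

/-- Maps from an acyclic linear spectrum are linearly nullhomotopic.  PROOF: `P T → T` is surjective with
acyclic kernel `Ω T`, so it has a section. -/
theorem null_lin {T L : LSp k} (hT : T.toG.SBB) (hA : T.toG.Acyclic) (f : Hom T L) :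
    ∃ b : Hom T L.P, ∀ q x, L.dP.f q (b.f q x) = f.f q x := by
  obtain ⟨σ, hσ, -⟩ := lift_rel T.dP (fun q x => ⟨T.s 0 rfl x, T.ds_eq 0 rfl x⟩)
    (om_acyclic hA) hT (Sub.bot T) (Hom.id T) 0 (fun q x => by
      have hx : (x.1 : T.V q) = 0 := x.2
      change T.dP.f q 0 = (x.1 : T.V q)
      rw [hx, map_zero])
  refine ⟨f.P.comp σ, fun q x => ?_⟩
  have h1 : T.d 0 rfl (σ.f q x) = x := hσ q x
  change L.d 0 rfl (f.f (q + 1) (σ.f q x)) = f.f q x
  rw [← f.map_d, h1]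

/-- the zero linear spectrum -/
def zeroL (k : Type) [Field k] : LSp k where
  V := fun _ => PUnit
  d := fun _ _ _ _ => 0
  s := fun _ _ _ _ => 0
  dd := fun _ _ _ _ _ _ _ => rfl
  ds_lt := fun _ _ _ _ _ _ _ => rfl
  ds_eq := fun _ _ _ _ _ => rfl
  ds_succ := fun _ _ _ _ _ => rfl
  ds_gt := fun _ _ _ _ _ _ _ => rfl
  ss := fun _ _ _ _ _ _ _ => rfl
  fin := fun _ _ => ⟨0, fun _ _ => rfl⟩

/-- Maps to a path spectrum extend along inclusions. -/
theorem ext_P {T L : LSp k} (hT : T.toG.SBB) (S : Sub T) (h : Hom S.toL L.P) :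
    ∃ h' : Hom T L.P, ∀ q (x : S.toL.V q), h'.f q x.1 = h.f q x := by
  let z : Hom L.P (zeroL k) := ⟨fun _ => 0, fun _ _ _ _ _ => rfl, fun _ _ _ _ _ => rfl⟩
  have hz : (z.kerS.toL).toG.Acyclic := by
    refine HC.acyclic_of_bij (K := L.toG.P) (L := (z.kerS.toL).toG)
      ⟨fun q => ⟨⟨fun x => ⟨x, rfl⟩, rfl⟩, fun _ _ => rfl⟩, fun _ _ _ _ _ => rfl,
        fun _ _ _ _ _ => rfl⟩
      (fun q => ⟨fun x y h => congrArg Subtype.val h, fun x => ⟨x.1, rfl⟩⟩) L.toG.P_acyclic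
  obtain ⟨h', -, h1⟩ := lift_rel z (fun q y => ⟨0, rfl⟩) hz hT S
    (⟨fun _ => 0, fun _ _ _ _ _ => rfl, fun _ _ _ _ _ => rfl⟩ : Hom T (zeroL k)) h
    (fun q x => rfl)
  exact ⟨h', h1⟩

end LSp

end BPN
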