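import Pool.Agent.BPN.L.LSp

/-!
# Linearisation (project BPN, module L/Lin)

`lin k X` : the reduced free `k`-linear spectrum on a pointed-set spectrum `X`.
-/

namespace BPN

open GSp Classical

/-- Reduced free vector space on a pointed set. -/
abbrev Fr (k : Type) [Field k] (X : Type) (x₀ : X) : Type := {x : X // x ≠ x₀} →₀ k

namespace Fr

variable {k : Type} [Field k] {X : Type} {x₀ : X}

/-- The generator of a point (`0` for the base point). -/
noncomputable def of (k : Type) [Field k] (x₀ : X) (x : X) : Fr k X x₀ :=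
  if h : x = x₀ then 0 else Finsupp.single ⟨x, h⟩ 1

@[simp] theorem of_pt : of k x₀ x₀ = 0 := by simp [of]

theorem of_ne {x : X} (h : x ≠ x₀) : of k x₀ x = Finsupp.single ⟨x, h⟩ 1 := by simp [of, h]

/-- Universal property. -/
noncomputable def lift {V : Type} [AddCommGroup V] [Module k V] (f : X → V) :
    Fr k X x₀ →ₗ[k] V :=
  Finsupp.linearCombination k (fun x : {x : X // x ≠ x₀} => f x.1)

theorem lift_of {V : Type} [AddCommGroup V] [Module k V] (f : X → V) (hf : f x₀ = 0) (x : X) :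
    lift f (of k x₀ x) = f x := by
  by_cases h : x = x₀
  · subst h; simp [hf]
  · rw [of_ne h, lift, Finsupp.linearCombination_single, one_smul]

theorem hom_ext {V : Type} [AddCommGroup V] [Module k V] {f g : Fr k X x₀ →ₗ[k] V}
    (h : ∀ x, f (of k x₀ x) = g (of k x₀ x)) : f = g := by
  refine Finsupp.lhom_ext fun x b => ?_
  have h1 := h x.1
  rw [of_ne x.2] at h1
  have h2 : (Finsupp.single x b : {x : X // x ≠ x₀} →₀ k) = b • Finsupp.single x 1 := by
    rw [Finsupp.smul_single, smul_eq_mul, mul_one]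
  rw [h2, map_smul, map_smul, h1]

/-- Functoriality. -/
noncomputable def map {Y : Type} {y₀ : Y} (f : X → Y) : Fr k X x₀ →ₗ[k] Fr k Y y₀ :=
  lift (fun x => of k y₀ (f x))

theorem map_of {Y : Type} {y₀ : Y} (f : X → Y) (hf : f x₀ = y₀) (x : X) :
    map (k := k) (x₀ := x₀) (y₀ := y₀) f (of k x₀ x) = of k y₀ (f x) :=
  lift_of _ (by rw [hf]; simp) x

end Fr

/-- The linearisation of a pointed-set spectrum. -/
noncomputable def lin (k : Type) [Field k] (X : PSp) : LSp k where
  V := fun q => Fr k (X.X q) (X.pt q)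
  d := fun i _ _ h => Fr.map (X.d i h)
  s := fun i _ _ h => Fr.map (X.s i h)
  dd := fun hij q r t h₁ h₂ x => by
    refine DFunLike.congr_fun (f := (Fr.map (X.d _ h₁)).comp (Fr.map (X.d _ h₂)))
      (g := (Fr.map (X.d _ h₁)).comp (Fr.map (X.d _ h₂))) (Fr.hom_ext fun x => ?_) x
    simp only [LinearMap.comp_apply, Fr.map_of _ (X.d_pt _ _), X.dd hij]
  ds_lt := fun hij q r t h₁ h₂ x => by
    refine DFunLike.congr_fun (f := (Fr.map (X.d _ h₂)).comp (Fr.map (X.s _ h₂)))
      (g := (Fr.map (X.s _ h₁)).comp (Fr.map (X.d _ h₁))) (Fr.hom_ext fun x => ?_) x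
    simp only [LinearMap.comp_apply, Fr.map_of _ (X.d_pt _ _), Fr.map_of _ (X.s_pt _ _)]
    rw [X.ds_lt hij h₁ h₂]
  ds_eq := fun i q r h x => by
    refine DFunLike.congr_fun (f := (Fr.map (X.d i h)).comp (Fr.map (X.s i h)))
      (g := LinearMap.id) (Fr.hom_ext fun x => ?_) x
    simp only [LinearMap.comp_apply, Fr.map_of _ (X.d_pt _ _), Fr.map_of _ (X.s_pt _ _),
      X.ds_eq, LinearMap.id_apply]
  ds_succ := fun i q r h x => by
    refine DFunLike.congr_fun (f := (Fr.map (X.d (i + 1) h)).comp (Fr.map (X.s i h)))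
      (g := LinearMap.id) (Fr.hom_ext fun x => ?_) x
    simp only [LinearMap.comp_apply, Fr.map_of _ (X.d_pt _ _), Fr.map_of _ (X.s_pt _ _),
      X.ds_succ, LinearMap.id_apply]
  ds_gt := fun hij q r t h₁ h₂ x => by
    refine DFunLike.congr_fun (f := (Fr.map (X.d _ h₂)).comp (Fr.map (X.s _ h₂)))
      (g := (Fr.map (X.s _ h₁)).comp (Fr.map (X.d _ h₁))) (Fr.hom_ext fun x => ?_) x
    simp only [LinearMap.comp_apply, Fr.map_of _ (X.d_pt _ _), Fr.map_of _ (X.s_pt _ _)]
    rw [X.ds_gt hij h₁ h₂]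
  ss := fun hij q r t h₁ h₂ x => by
    refine DFunLike.congr_fun (f := (Fr.map (X.s _ h₂)).comp (Fr.map (X.s _ h₁)))
      (g := (Fr.map (X.s _ h₂)).comp (Fr.map (X.s _ h₁))) (Fr.hom_ext fun x => ?_) x
    simp only [LinearMap.comp_apply, Fr.map_of _ (X.s_pt _ _), X.ss hij]
  fin := fun {q r} h x => by
    induction x using Finsupp.induction_linear with
    | zero => exact ⟨0, fun i _ => map_zero _⟩
    | add y z hy hz =>
      obtain ⟨n, hn⟩ := hy
      obtain ⟨m, hm⟩ := hz
      exact ⟨max n m, fun i hi => by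
        rw [map_add, hn i (le_trans (le_max_left _ _) hi), hm i (le_trans (le_max_right _ _) hi),
          add_zero]⟩
    | single x b =>
      obtain ⟨n, hn⟩ := X.fin h x.1
      refine ⟨n, fun i hi => ?_⟩
      have h2 : (Finsupp.single x b : {y : X.X r // y ≠ X.pt r} →₀ k) =
          b • Fr.of k (X.pt r) x.1 := by
        rw [Fr.of_ne x.2, Finsupp.smul_single, smul_eq_mul, mul_one]
      rw [h2, map_smul, Fr.map_of _ (X.d_pt _ _), hn i hi, Fr.of_pt, smul_zero]

/-- Inclusion of generators. -/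
noncomputable def lin.eta (k : Type) [Field k] (X : PSp) : Map X (lin k X).toG where
  f := fun q x => Fr.of k (X.pt q) x
  map_pt := fun q => Fr.of_pt
  map_d := fun i q r h x => (Fr.map_of _ (X.d_pt i h) x).symm
  map_s := fun i q r h x => (Fr.map_of _ (X.s_pt i h) x).symm

/-- Linear extension of a map. -/
noncomputable def Map.lin {k : Type} [Field k] {X : PSp} {L : LSp k} (f : Map X L.toG) :
    LSp.Hom (lin k X) L where
  f := fun q => Fr.lift (f.f q)
  map_d := fun i q r h x => by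
    refine DFunLike.congr_fun (f := (Fr.lift (f.f q)).comp (Fr.map (X.d i h)))
      (g := (L.d i h).comp (Fr.lift (f.f r))) (Fr.hom_ext fun x => ?_) x
    simp only [LinearMap.comp_apply, Fr.map_of _ (X.d_pt _ _)]
    rw [Fr.lift_of _ (f.map_pt q), Fr.lift_of _ (f.map_pt r)]
    exact f.map_d i h x
  map_s := fun i q r h x => by
    refine DFunLike.congr_fun (f := (Fr.lift (f.f r)).comp (Fr.map (X.s i h)))
      (g := (L.s i h).comp (Fr.lift (f.f q))) (Fr.hom_ext fun x => ?_) x
    simp only [LinearMap.comp_apply, Fr.map_of _ (X.s_pt _ _)]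
    rw [Fr.lift_of _ (f.map_pt q), Fr.lift_of _ (f.map_pt r)]
    exact f.map_s i h x

theorem Map.lin_of {k : Type} [Field k] {X : PSp} {L : LSp k} (f : Map X L.toG) (q : ℤ)
    (x : X.X q) : f.lin.f q (Fr.of k (X.pt q) x) = f.f q x := Fr.lift_of _ (f.map_pt q) x

/-- Functoriality of linearisation. -/
noncomputable def linMap (k : Type) [Field k] {X Y : PSp} (φ : PSp.Hom X Y) :
    LSp.Hom (lin k X) (lin k Y) :=
  (Map.pre φ (lin.eta k Y)).lin

theorem linMap_of (k : Type) [Field k] {X Y : PSp} (φ : PSp.Hom X Y) (q : ℤ) (x : X.X q) :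
    (linMap k φ).f q (Fr.of k (X.pt q) x) = Fr.of k (Y.pt q) (φ.f q x) :=
  Map.lin_of _ q x

end BPN
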